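import Pool.Agent.P.MP_bb4f54_co.Setup

set_option autoImplicit false
set_option linter.unusedSectionVars false

namespace Pool.Agent.P.MP_bb4f54_co

open Finset SimpleGraph

variable {V : Type*} [Fintype V] [DecidableEq V] {G : SimpleGraph V} [DecidableRel G.Adj]

lemma Good.conn {X : Finset V} (hX : Good G X) {L B : ℕ} (hL : X.card < 2 ^ (L + 1))
    (hB : 576 * (L + 2) ^ 2 ≤ B) : Conn G X B (2304 * (L + 1) ^ 3) :=
  fun _ _ _ s₁ n₁ c₁ s₂ n₂ c₂ => hX.connect hL s₁ n₁ ((Nat.mul_le_mul_right _ hB).trans c₁) s₂ n₂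
    ((Nat.mul_le_mul_right _ hB).trans c₂)

theorem Good.ho {X : Finset V} (hX : Good G X) {g j₀ β L : ℕ} (hg : Gir G g)
    (hN : Num g j₀ β L) (hL : 2 ^ L ≤ X.card) (hL' : X.card < 2 ^ (L + 1)) :
    HO G X ((2 ^ β) ^ 32) ((2 ^ β) ^ 31) (3 * rho β + 2304 * (L + 1) ^ 3 + 1) := by
  intro W₀ hW₀
  have hβ := hN.four_le
  have hC := hX.conn hL' hN.b1
  have b2 := hN.b2
  have a3 := hN.a3
  have hρ : 1 ≤ rho β := by unfold rho; omega
  set k := 2304 * (L + 1) ^ 3 with hk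
  set D := 2 ^ (37 * β) with hD
  rw [← pow_mul, mul_comm] at hW₀ ⊢
  have p0 : 2 ^ β ≤ 2 ^ (31 * β) := Nat.pow_le_pow_right (by norm_num) (by omega)
  have p1 : 2 ^ (31 * β + 4) ≤ 2 ^ (32 * β) := Nat.pow_le_pow_right (by norm_num) (by omega)
  have p2 : 2 ^ (32 * β + 4) ≤ 2 ^ (33 * β) := Nat.pow_le_pow_right (by norm_num) (by omega)
  have p3 : 2 ^ (33 * β + 4) ≤ 2 ^ (34 * β) := Nat.pow_le_pow_right (by norm_num) (by omega)
  have p4 : 2 ^ (34 * β + 4) ≤ 2 ^ (35 * β) := Nat.pow_le_pow_right (by norm_num) (by omega)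
  have p5 : 2 ^ (35 * β + 4) ≤ 2 ^ (36 * β) := Nat.pow_le_pow_right (by norm_num) (by omega)
  have p6 : 2 ^ (36 * β + 4) ≤ 2 ^ (37 * β) := Nat.pow_le_pow_right (by norm_num) (by omega)
  rw [pow_add] at p1 p2 p3 p4 p5 p6
  obtain ⟨W, hW1, hW2, hW3⟩ : ∃ W : Finset V, W₀ ⊆ W ∧ W.card < 2 ^ (34 * β) ∧
      (Hb G X D ⊆ W ∨ W.card + 6 ≤ (Hb G X D).card) := by
    rcases le_or_gt (Hb G X D).card (2 ^ (33 * β)) with h | h
    · exact ⟨W₀ ∪ Hb G X D, subset_union_left, by have := card_union_le W₀ (Hb G X D); omega,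
        Or.inl subset_union_right⟩
    · exact ⟨W₀, subset_rfl, by omega, Or.inr (by omega)⟩
  obtain ⟨X₁, hX₁, cX₁, hE, u, hu, u', hu', a₁, ha₁, a₂, ha₂, b₁, hb₁, b₂, hb₂, e, e₁, e₂, e₃, e₄,
    n₁, n₂, n₃, n₄, n₅, n₆⟩ := hX.setup hg hN hL hW2
  have tri : ∀ a b, G.Adj a u → G.Adj b u' → a ≠ b := by
    rintro a b h₁ h₂ rfl
    exact hg.no_triangle (by omega) e h₁.symm h₂
  set I : Finset V := {a₁, a₂, b₁, b₂} with hI
  set K : Finset V := {u, u'} with hK
  have cI : I.card ≤ 4 := card_le_four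
  have cK : K.card ≤ 2 := card_le_two
  have hIX : ∀ w ∈ I, w ∈ X₁ ∧ (G.Adj w u ∨ G.Adj w u') ∧ w ∉ K := by
    have := e₁.ne
    have := e₂.ne
    have := e₃.ne
    have := e₄.ne
    intro w hw
    simp only [hI, hK, mem_insert, mem_singleton] at hw ⊢
    grind
  have hIu : ∀ U : Finset V, X \ W ⊆ U → ∀ w ∈ I, Rch G U 2 w u := by
    intro U hU w hw
    obtain ⟨h1, h2 | h2, -⟩ := hIX w hw
    · exact (Rch.adj h2 (hU (hX₁ h1)) (hU (hX₁ hu))).mono subset_rfl (by omega)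
    · exact (Rch.adj h2 (hU (hX₁ h1)) (hU (hX₁ hu'))).trans
        (Rch.adj e.symm (hU (hX₁ hu')) (hU (hX₁ hu)))
  have hs : 2 ^ β * (W.card + 2 ^ (33 * β)) ≤ 2 ^ (36 * β) := by
    calc _ ≤ 2 ^ β * 2 ^ (35 * β) := Nat.mul_le_mul_left _ (by omega)
      _ = _ := by rw [← pow_add]; congr 1; ring
  have core : ∀ (J₀ : Finset V) (T : V → Finset V) (Pr : V → Finset V → Prop),
      4 ≤ J₀.card → (∀ z ∈ J₀, T z ⊆ X \ W) → (∀ z ∈ J₀, Disjoint (T z) K) →
      (∀ z ∈ J₀, ∀ z' ∈ J₀, z ≠ z' → Disjoint (T z) (T z')) →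
      (∀ z ∈ J₀, ∀ Q : Finset V, Q.card ≤ 2 ^ (33 * β) → Disjoint (T z) Q →
        2 ^ (36 * β) ≤ (bl G ((X \ W) \ Q) (T z) 1).card) →
      (∀ z ∈ J₀, ∀ y ∈ T z, ∃ R ⊆ T z, R.card ≤ 2 * 2 ^ (31 * β) ∧
        (∀ x ∈ R, x ≠ y → x ∉ bl G (X \ W) I (rho β)) ∧ Pr y R) →
      ∃ F : V → Finset V, (∀ w ∈ I, F w ⊆ (X \ W) \ K ∧
        (F w).card ≤ rho β + k + 2 + 2 * 2 ^ (31 * β) ∧
        ∃ (y : V) (R : Finset V) (p : G.Walk w y), p.length ≤ rho β + k + 1 ∧
          F w = p.support.toFinset ∪ R ∧ Pr y R) ∧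
        ∀ w ∈ I, ∀ w' ∈ I, w ≠ w' → Disjoint (F w) (F w') := by
    intro J₀ T Pr h1 h2 h3 h4 h5 h6
    refine multi (K := K) (c := u) (q := 2 ^ (33 * β)) hC hs Nat.one_le_two_pow ?_ ?_ h2 h4 h5 h6
      I.card I J₀ K 1 subset_rfl subset_rfl rfl (by omega) ?_ h3 ?_ (by omega) ?_
    · intro w hw
      obtain ⟨h1, h2, -⟩ := hIX w hw
      refine ⟨hX₁ h1, ?_, hIu _ (subset_univ _) w hw⟩
      rcases h2 with h2 | h2
      · exact ⟨u, by simp [hK], h2⟩
      · exact ⟨u', by simp [hK], h2⟩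
    · intro w hw Q h1 h2 h3
      exact hE w (hIX w hw).1 u K Q (hIu _ (subset_univ _) w hw) h1 h2 h3
    · exact Finset.disjoint_left.2 fun w hw => (hIX w hw).2.2
    · have : I.card * (rho β + k + 2 + 2 * 2 ^ (31 * β)) ≤ 4 * (rho β + k + 2 + 2 * 2 ^ (31 * β)) :=
        Nat.mul_le_mul_right _ cI
      omega
    · intro w hw r _
      refine ⟨K, subset_rfl, subset_rfl, fun _ _ x hx _ => hx, by omega, ?_, ?_⟩
      · exact (con_singleton u').insert (mem_singleton_self _) (Or.inr e)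
      · intro x hx
        rw [mem_bl_one]
        rcases mem_insert.1 hx with rfl | hx
        · exact Rch.refl (mem_univ _) _
        · rw [mem_singleton.1 hx]
          exact (Rch.adj e.symm (mem_univ _) (mem_univ _)).mono subset_rfl (by omega)
  suffices h : ∃ F : V → Finset V, (∀ w ∈ I, F w ⊆ (X \ W) \ K ∧ Xp G (F w) w (3 * rho β + k + 1) ∧
      2 ^ (31 * β) ≤ (F w).card) ∧ ∀ w ∈ I, ∀ w' ∈ I, w ≠ w' → Disjoint (F w) (F w') by
    obtain ⟨F, h1, h2⟩ := h
    have m₁ : a₁ ∈ I := by simp [hI]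
    have m₂ : a₂ ∈ I := by simp [hI]
    have m₃ : b₁ ∈ I := by simp [hI]
    have m₄ : b₂ ∈ I := by simp [hI]
    have hsub : X \ W ⊆ X \ W₀ := sdiff_subset_sdiff subset_rfl hW1
    have hsub' : (X \ W) \ K ⊆ (X \ W₀) \ K := sdiff_subset_sdiff hsub subset_rfl
    exact ⟨u, u', a₁, a₂, b₁, b₂, F a₁, F a₂, F b₁, F b₂, e, e₁, e₂, e₃, e₄, (h1 _ m₁).2.1,
      (h1 _ m₂).2.1, (h1 _ m₃).2.1, (h1 _ m₄).2.1, (h1 _ m₁).2.2, (h1 _ m₂).2.2, (h1 _ m₃).2.2,
      (h1 _ m₄).2.2, hsub (hX₁ hu), hsub (hX₁ hu'), (h1 _ m₁).1.trans hsub',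
      (h1 _ m₂).1.trans hsub', (h1 _ m₃).1.trans hsub', (h1 _ m₄).1.trans hsub',
      h2 _ m₁ _ m₂ n₁, h2 _ m₁ _ m₃ (tri _ _ e₁ e₃), h2 _ m₁ _ m₄ (tri _ _ e₁ e₄),
      h2 _ m₂ _ m₃ (tri _ _ e₂ e₃), h2 _ m₂ _ m₄ (tri _ _ e₂ e₄), h2 _ m₃ _ m₄ n₂⟩
  rcases hW3 with hfew | hmany
  · have hlow : ∀ v ∈ X \ W, dg G X v < D := fun v hv =>
      low_dg (W := W) v (mem_sdiff.2 ⟨hv, fun h => (mem_sdiff.1 hv).2 (hfew h)⟩)
    obtain ⟨J, hJ1, hJ2, hJ3, hJ4⟩ := far_points (R := 2 * rho β + 2) sdiff_subset hlow u hX₁ 4 (by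
      have b5 := hN.b5
      have : 2 ^ (37 * β * (2 * rho β + 2) + 4) ≤ 2 ^ L :=
        Nat.pow_le_pow_right (by norm_num) (by omega)
      rw [pow_add, pow_mul, ← hD] at this
      have : 1 ≤ D ^ (2 * rho β + 2) := Nat.one_le_pow _ _ (by omega)
      omega)
    have hT : ∀ z ∈ J, 2 ^ (36 * β) ≤ (bl G (X \ W) {z} (rho β)).card := by
      intro z hz
      have := hE z (hJ1 hz) z ∅ ∅ (Rch.refl (mem_univ _) _) (notMem_empty _) (by simp)
        (fun r _ => ⟨∅, subset_rfl, subset_rfl, by simp, by simp, con_empty, empty_subset _⟩)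
      rwa [sdiff_empty] at this
    obtain ⟨F, h1, h2⟩ := core J (fun z => bl G (X \ W) {z} (rho β))
      (fun y R => Xp G R y (rho β + rho β) ∧ 2 ^ (31 * β) ≤ R.card) hJ2.ge
      (fun z _ => bl_subset _ _ _) (by
        intro z hz
        rw [Finset.disjoint_left]
        intro x hx hxK
        have hx' := (mem_bl_one.1 hx).symm
        rcases mem_insert.1 hxK with rfl | hxK
        · exact hJ3 z hz (hx'.mono subset_rfl (by omega))
        · rw [mem_singleton.1 hxK] at hx'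
          exact hJ3 z hz ((hx'.trans (Rch.adj e.symm (hX₁ hu') (hX₁ hu))).mono subset_rfl
            (by omega)))
      (by
        intro z hz z' hz' hne
        rw [Finset.disjoint_left]
        intro x hx hx'
        exact hJ4 z hz z' hz' hne (((mem_bl_one.1 hx).symm.trans (mem_bl_one.1 hx')).mono
          subset_rfl (by omega)))
      (by
        intro z hz Q _ hd
        refine (hT z hz).trans (card_le_card (subset_bl ?_ 1))
        exact subset_sdiff.2 ⟨bl_subset _ _ _, hd⟩)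
      (by
        intro z hz y hy
        obtain ⟨F', s1, s2, s3⟩ := (xp_bl (G := G) (hX₁ (hJ1 hz)) (rho β)).trim
          (D := 2 ^ (31 * β)) Nat.one_le_two_pow (le_trans (by omega) (hT z hz))
        obtain ⟨q, hq1, hq2⟩ := (mem_bl_one.1 hy).in_bl
        have hsub : q.support.toFinset ∪ F' ⊆ bl G (X \ W) {z} (rho β) :=
          union_subset (fun x hx => hq2 x (List.mem_toFinset.1 hx)) s1
        refine ⟨q.support.toFinset ∪ F', hsub, ?_, ?_, s2.walk_union q hq1,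
          s3 ▸ card_le_card subset_union_right⟩
        · have := card_union_le q.support.toFinset F'
          have := card_support_le q
          omega
        · intro x hx _ hx'
          obtain ⟨w, hw, hr⟩ := mem_bl.1 hx'
          exact hJ3 z hz ((((mem_bl_one.1 (hsub hx)).symm.trans hr).trans
            (hIu _ subset_rfl w hw)).mono subset_rfl (by omega)))
    refine ⟨F, fun w hw => ?_, h2⟩
    obtain ⟨s1, -, y, R, p, hp, hF, hR1, hR2⟩ := h1 w hw
    refine ⟨s1, ?_, ?_⟩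
    · rw [hF]; exact (hR1.walk_union p hp).mono (by omega)
    · rw [hF]; exact hR2.trans (card_le_card subset_union_right)
  · obtain ⟨F, h1, h2⟩ := core (Hb G X D \ (W ∪ K)) (fun z => {z})
      (fun y R => R = ∅ ∧ D ≤ dg G X y) (by
        have := le_card_sdiff (W ∪ K) (Hb G X D)
        have := card_union_le W K
        omega)
      (by
        intro z hz
        simp only [Hb, mem_sdiff, mem_filter, mem_union] at hz
        simp only [singleton_subset_iff, mem_sdiff]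
        tauto)
      (by
        intro z hz
        simp only [mem_sdiff, mem_union] at hz
        simp only [disjoint_singleton_left]
        tauto)
      (fun z _ z' _ hne => by simpa using hne)
      (by
        intro z hz Q hQ hd
        simp only [Hb, mem_sdiff, mem_filter, mem_union] at hz
        have hzU : z ∈ (X \ W) \ Q := by
          simp only [disjoint_singleton_left] at hd
          simp only [mem_sdiff]
          tauto
        have a2 := dg_le_sdiff_add (G := G) X W z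
        have a3 := dg_le_sdiff_add (G := G) (X \ W) Q z
        have a4 : dg G ((X \ W) \ Q) z ≤ (bl G ((X \ W) \ Q) {z} (0 + 1)).card :=
          card_le_card fun x hx => mem_bl_succ (mem_bl_one.2 (Rch.refl hzU _)) (mem_filter.1 hx).2
            (mem_filter.1 hx).1
        have := hz.1.2
        simp only [zero_add] at a4
        omega)
      (by
        intro z hz y hy
        rw [mem_singleton.1 hy]
        exact ⟨∅, empty_subset _, by simp, by simp, rfl, (mem_filter.1 (mem_sdiff.1 hz).1).2⟩)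
    have h3 : ∀ w, ∃ y, w ∈ I → ∃ p : G.Walk w y, p.length ≤ rho β + k + 1 ∧
        F w = p.support.toFinset ∧ D ≤ dg G X y := by
      intro w
      by_cases hw : w ∈ I
      · obtain ⟨-, -, y, R, p, hp, hF, rfl, hR2⟩ := h1 w hw
        exact ⟨y, fun _ => ⟨p, hp, by simpa using hF, hR2⟩⟩
      · exact ⟨w, fun h => absurd h hw⟩
    choose y hy using h3
    have cF : (I.biUnion F).card ≤ 4 * (rho β + k + 2 + 2 * 2 ^ (31 * β)) :=
      (card_biUnion_le_card_mul _ _ _ fun w hw => (h1 w hw).2.1).trans (Nat.mul_le_mul_right _ cI)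
    obtain ⟨M, hM1, hM2⟩ := select I
      (fun w => (((X \ W) \ K) \ I.biUnion F).filter (G.Adj (y w))) (2 ^ (31 * β)) (by
        intro w hw
        obtain ⟨p, -, -, hd⟩ := hy w hw
        have a2 := dg_le_sdiff_add (G := G) X W (y w)
        have a3 := dg_le_sdiff_add (G := G) (X \ W) K (y w)
        have a4 := dg_le_sdiff_add (G := G) ((X \ W) \ K) (I.biUnion F) (y w)
        have a5 : I.card * 2 ^ (31 * β) ≤ 4 * 2 ^ (31 * β) := Nat.mul_le_mul_right _ cI
        change _ ≤ dg G _ _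
        omega)
    have hMF : ∀ w ∈ I, ∀ w' ∈ I, Disjoint (M w) (F w') := fun w hw w' hw' =>
      sdiff_disjoint.mono (((hM1 w hw).1.trans (filter_subset _ _))) (subset_biUnion_of_mem F hw')
    refine ⟨fun w => F w ∪ M w, fun w hw => ⟨union_subset (h1 w hw).1
      (((hM1 w hw).1.trans (filter_subset _ _)).trans sdiff_subset), ?_,
      (hM1 w hw).2 ▸ card_le_card subset_union_right⟩, fun w hw w' hw' hne => ?_⟩
    · obtain ⟨p, hp, hF, -⟩ := hy w hw
      have hx : Xp G (insert (y w) (M w)) (y w) 1 := by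
        refine ⟨mem_insert_self _ _, fun x hx => ?_⟩
        rcases mem_insert.1 hx with rfl | hx'
        · exact Rch.refl hx _
        · exact Rch.adj (mem_filter.1 ((hM1 w hw).1 hx')).2.symm hx (mem_insert_self _ _)
      have := hx.walk_union p hp
      rw [union_insert, insert_eq_of_mem (mem_union_left _ (by simp)), ← hF] at this
      exact this.mono (by omega)
    · simp only [disjoint_union_left, disjoint_union_right]
      exact ⟨⟨h2 w hw w' hw' hne, hMF w hw w' hw'⟩, (hMF w' hw' w hw).symm, hM2 w hw w' hw' hne⟩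

end Pool.Agent.P.MP_bb4f54_co
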