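import Mathlib

set_option autoImplicit false
set_option linter.unusedSectionVars false

namespace Pool.Agent.P.MP_bb4f54_co

open Finset SimpleGraph

variable {V : Type*} [Fintype V] [DecidableEq V] (G : SimpleGraph V) [DecidableRel G.Adj]

/-- Number of neighbours of `v` inside `X`. -/
def dg (X : Finset V) (v : V) : ℕ := (X.filter (G.Adj v)).card

/-- Number of ordered adjacent pairs from `Y` to `T`. -/
def E (Y T : Finset V) : ℕ := ∑ y ∈ Y, dg G T y

/-- A walk of length at most `r` from `a` to `b` inside `U`. -/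
def Rch (U : Finset V) (r : ℕ) (a b : V) : Prop :=
  ∃ p : G.Walk a b, p.length ≤ r ∧ ∀ x ∈ p.support, x ∈ U

open Classical in
/-- The ball of radius `r` around `A` inside `U`. -/
noncomputable def bl (U A : Finset V) (r : ℕ) : Finset V :=
  univ.filter (fun v => ∃ a ∈ A, Rch G U r v a)

/-- All cycles have length at least `g`. -/
def Gir (g : ℕ) : Prop := ∀ a (w : G.Walk a a), w.IsCycle → g ≤ w.length

variable {G}

section dgE

omit [Fintype V] [DecidableEq V] in
lemma dg_mono {X X' : Finset V} (h : X ⊆ X') (v : V) : dg G X v ≤ dg G X' v :=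
  card_le_card (filter_subset_filter _ h)

omit [Fintype V] [DecidableEq V] in
lemma dg_le_of_sub {X X' : Finset V} {v : V} (h : ∀ x ∈ X, G.Adj v x → x ∈ X') :
    dg G X v ≤ dg G X' v := by
  apply card_le_card
  intro x hx
  rw [mem_filter] at hx ⊢
  exact ⟨h x hx.1 hx.2, hx.2⟩

omit [Fintype V] [DecidableEq V] in
lemma dg_le_card (X : Finset V) (v : V) : dg G X v ≤ X.card := card_filter_le _ _

omit [Fintype V] in
lemma dg_union_le (X X' : Finset V) (v : V) : dg G (X ∪ X') v ≤ dg G X v + dg G X' v := by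
  unfold dg; rw [filter_union]; exact card_union_le _ _

omit [Fintype V] in
lemma dg_union {X X' : Finset V} (h : Disjoint X X') (v : V) :
    dg G (X ∪ X') v = dg G X v + dg G X' v := by
  unfold dg; rw [filter_union]; exact card_union_of_disjoint (disjoint_filter_filter h)

omit [Fintype V] in
lemma dg_split {Y X : Finset V} (h : Y ⊆ X) (v : V) : dg G X v = dg G Y v + dg G (X \ Y) v := by
  rw [← dg_union disjoint_sdiff, union_sdiff_of_subset h]

omit [Fintype V] in
lemma dg_le_sdiff_add (X Y : Finset V) (v : V) : dg G X v ≤ dg G (X \ Y) v + Y.card := by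
  calc dg G X v ≤ dg G ((X \ Y) ∪ Y) v := dg_mono (by intro x hx; by_cases h : x ∈ Y <;> simp [*]) v
    _ ≤ _ := dg_union_le _ _ _
    _ ≤ _ := Nat.add_le_add_left (dg_le_card _ _) _

omit [DecidableEq V] in
lemma dg_univ (v : V) : dg G univ v = G.degree v := by
  unfold dg; rw [← card_neighborFinset_eq_degree, neighborFinset_eq_filter]

omit [Fintype V] [DecidableEq V] in
lemma dg_eq_sum (X : Finset V) (v : V) : dg G X v = ∑ x ∈ X, if G.Adj v x then 1 else 0 := by
  unfold dg; rw [card_filter]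

omit [Fintype V] [DecidableEq V] in
lemma E_comm (Y T : Finset V) : E G Y T = E G T Y := by
  unfold E
  simp only [dg_eq_sum]
  rw [sum_comm]
  refine sum_congr rfl fun t _ => sum_congr rfl fun y _ => ?_
  simp only [G.adj_comm]

omit [Fintype V] [DecidableEq V] in
lemma E_mono_right (Y : Finset V) {T T' : Finset V} (h : T ⊆ T') : E G Y T ≤ E G Y T' :=
  sum_le_sum fun y _ => dg_mono h y

omit [Fintype V] [DecidableEq V] in
lemma E_le_of_sub {Y T T' : Finset V} (h : ∀ y ∈ Y, ∀ x ∈ T, G.Adj y x → x ∈ T') :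
    E G Y T ≤ E G Y T' :=
  sum_le_sum fun y hy => dg_le_of_sub (h y hy)

omit [Fintype V] [DecidableEq V] in
lemma E_mono_left {Y Y' : Finset V} (T : Finset V) (h : Y ⊆ Y') : E G Y T ≤ E G Y' T :=
  sum_le_sum_of_subset h

omit [Fintype V] [DecidableEq V] in
lemma E_mono {Y Y' : Finset V} (h : Y ⊆ Y') : E G Y Y ≤ E G Y' Y' :=
  (E_mono_right _ h).trans (E_mono_left _ h)

omit [Fintype V] in
lemma E_union_right (Y : Finset V) {T T' : Finset V} (h : Disjoint T T') :
    E G Y (T ∪ T') = E G Y T + E G Y T' := by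
  unfold E; simp only [dg_union h, sum_add_distrib]

omit [Fintype V] in
lemma E_union_left {Y Y' : Finset V} (T : Finset V) (h : Disjoint Y Y') :
    E G (Y ∪ Y') T = E G Y T + E G Y' T := sum_union h

omit [Fintype V] in
lemma E_union_self {Y T : Finset V} (h : Disjoint Y T) :
    E G (Y ∪ T) (Y ∪ T) = E G Y Y + 2 * E G Y T + E G T T := by
  rw [E_union_left _ h, E_union_right _ h, E_union_right _ h, E_comm T Y]; ring

omit [Fintype V] in
lemma E_split {Y X : Finset V} (Z : Finset V) (h : Y ⊆ X) :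
    E G Z X = E G Z Y + E G Z (X \ Y) := by
  rw [← E_union_right _ disjoint_sdiff, union_sdiff_of_subset h]

omit [Fintype V] [DecidableEq V] in
lemma E_singleton_left (v : V) (T : Finset V) : E G {v} T = dg G T v := by simp [E]

omit [Fintype V] in
lemma E_insert_self {S : Finset V} {x : V} (hx : x ∉ S) :
    E G (insert x S) (insert x S) = E G S S + 2 * dg G S x := by
  have hd : Disjoint ({x} : Finset V) S := by simpa using hx
  have : insert x S = {x} ∪ S := by ext; simp
  rw [this, E_union_self hd, E_singleton_left, E_singleton_left]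
  have : dg G {x} x = 0 := by simp [dg]
  omega

/-- A set that spans at least as many edges as a tree on it. -/
def Con (G : SimpleGraph V) [DecidableRel G.Adj] (S : Finset V) : Prop :=
  2 * S.card ≤ E G S S + 2

omit [Fintype V] [DecidableEq V] in
lemma con_empty : Con G (∅ : Finset V) := by simp [Con]

omit [Fintype V] [DecidableEq V] in
lemma con_singleton (v : V) : Con G {v} := by simp [Con]

omit [Fintype V] in
lemma Con.insert {S : Finset V} (h : Con G S) {x s : V} (hs : s ∈ S) (hx : x = s ∨ G.Adj x s) :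
    Con G (insert x S) := by
  by_cases hxS : x ∈ S
  · rwa [insert_eq_of_mem hxS]
  · rcases hx with rfl | hx
    · exact absurd hs hxS
    unfold Con at *
    rw [E_insert_self hxS, card_insert_of_notMem hxS]
    have : 1 ≤ dg G S x := card_pos.2 ⟨s, mem_filter.2 ⟨hs, hx⟩⟩
    omega

end dgE

section rch

omit [Fintype V] [DecidableEq V] [DecidableRel G.Adj]

lemma Rch.refl {U : Finset V} {a : V} (ha : a ∈ U) (r : ℕ) : Rch G U r a a :=
  ⟨Walk.nil, by simp, by simpa using ha⟩

lemma Rch.left {U : Finset V} {r : ℕ} {a b : V} (h : Rch G U r a b) : a ∈ U := by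
  obtain ⟨p, -, hp⟩ := h; exact hp a p.start_mem_support

lemma Rch.right {U : Finset V} {r : ℕ} {a b : V} (h : Rch G U r a b) : b ∈ U := by
  obtain ⟨p, -, hp⟩ := h; exact hp b p.end_mem_support

lemma Rch.mono {U U' : Finset V} {r r' : ℕ} {a b : V} (h : Rch G U r a b) (hU : U ⊆ U')
    (hr : r ≤ r') : Rch G U' r' a b := by
  obtain ⟨p, h1, hp⟩ := h; exact ⟨p, h1.trans hr, fun x hx => hU (hp x hx)⟩

lemma Rch.symm {U : Finset V} {r : ℕ} {a b : V} (h : Rch G U r a b) : Rch G U r b a := by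
  obtain ⟨p, h1, hp⟩ := h
  exact ⟨p.reverse, by simpa using h1, fun x hx => hp x (by simpa using hx)⟩

lemma Rch.trans {U : Finset V} {r r' : ℕ} {a b c : V} (h : Rch G U r a b) (h' : Rch G U r' b c) :
    Rch G U (r + r') a c := by
  obtain ⟨p, h1, hp⟩ := h
  obtain ⟨q, h2, hq⟩ := h'
  refine ⟨p.append q, by simp; omega, fun x hx => ?_⟩
  rcases (Walk.mem_support_append_iff _ _).1 hx with h | h
  · exact hp x h
  · exact hq x h

lemma Rch.adj {U : Finset V} {a b : V} (h : G.Adj a b) (ha : a ∈ U) (hb : b ∈ U) :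
    Rch G U 1 a b :=
  ⟨Walk.cons h Walk.nil, by simp, by simp [ha, hb]⟩

lemma Rch.cons {U : Finset V} {r : ℕ} {x a b : V} (h : Rch G U r a b) (hx : G.Adj x a)
    (hxU : x ∈ U) : Rch G U (r + 1) x b := by
  have := (Rch.adj hx hxU h.left).trans h
  rwa [add_comm] at this

lemma Rch.zero {U : Finset V} {a b : V} (h : Rch G U 0 a b) : a = b := by
  obtain ⟨p, h1, -⟩ := h
  exact Walk.eq_of_length_eq_zero (Nat.le_zero.1 h1)

lemma Rch.succ {U : Finset V} {r : ℕ} {a b : V} (h : Rch G U (r + 1) a b) :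
    a = b ∨ ∃ c, G.Adj a c ∧ Rch G U r c b := by
  obtain ⟨p, h1, hp⟩ := h
  cases p with
  | nil => exact Or.inl rfl
  | cons h q =>
    exact Or.inr ⟨_, h, q, by simpa using h1, fun x hx => hp x (by simp [hx])⟩

lemma rch_getVert_end {U : Finset V} {a b : V} (p : G.Walk a b) (hp : ∀ x ∈ p.support, x ∈ U)
    (i : ℕ) : Rch G U (p.length - i) (p.getVert i) b := by
  refine ⟨p.drop i, by simp, fun x hx => hp x ?_⟩
  rw [Walk.drop_support_eq_support_drop_min] at hx
  exact List.mem_of_mem_drop hx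

lemma rch_getVert_start {U : Finset V} {a b : V} (p : G.Walk a b) (hp : ∀ x ∈ p.support, x ∈ U)
    (i : ℕ) : Rch G U i a (p.getVert i) := by
  refine ⟨p.take i, by simp, fun x hx => hp x ?_⟩
  rw [Walk.support_take] at hx
  exact List.mem_of_mem_take hx

lemma rch_of_mem_support {U : Finset V} {a b x : V} (p : G.Walk a b)
    (hp : ∀ x ∈ p.support, x ∈ U) (hx : x ∈ p.support) : Rch G U p.length x b := by
  classical
  obtain ⟨i, rfl, -⟩ := Walk.mem_support_iff_exists_getVert.1 hx
  exact (rch_getVert_end p hp i).mono subset_rfl (Nat.sub_le _ _)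

end rch

lemma Rch.path {U : Finset V} {r : ℕ} {a b : V} (h : Rch G U r a b) :
    ∃ p : G.Walk a b, p.IsPath ∧ p.length ≤ r ∧ ∀ x ∈ p.support, x ∈ U := by
  obtain ⟨p, h1, hp⟩ := h
  exact ⟨p.bypass, p.bypass_isPath, p.length_bypass_le_length.trans h1,
    fun x hx => hp x (p.support_bypass_subset_support hx)⟩

section ball

omit [DecidableEq V] [DecidableRel G.Adj] in
lemma mem_bl {U A : Finset V} {r : ℕ} {v : V} : v ∈ bl G U A r ↔ ∃ a ∈ A, Rch G U r v a := by
  simp [bl]

omit [DecidableEq V] [DecidableRel G.Adj] in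
lemma mem_bl_one {U : Finset V} {r : ℕ} {v a : V} : v ∈ bl G U {a} r ↔ Rch G U r v a := by
  simp [bl]

omit [DecidableEq V] [DecidableRel G.Adj] in
lemma bl_subset (U A : Finset V) (r : ℕ) : bl G U A r ⊆ U := by
  intro v hv; obtain ⟨a, -, h⟩ := mem_bl.1 hv; exact h.left

omit [DecidableEq V] [DecidableRel G.Adj] in
lemma bl_mono {U U' A A' : Finset V} {r r' : ℕ} (hU : U ⊆ U') (hA : A ⊆ A') (hr : r ≤ r') :
    bl G U A r ⊆ bl G U' A' r' := by
  intro v hv; obtain ⟨a, ha, h⟩ := mem_bl.1 hv; exact mem_bl.2 ⟨a, hA ha, h.mono hU hr⟩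

omit [DecidableEq V] [DecidableRel G.Adj] in
lemma subset_bl {U A : Finset V} (h : A ⊆ U) (r : ℕ) : A ⊆ bl G U A r :=
  fun a ha => mem_bl.2 ⟨a, ha, Rch.refl (h ha) r⟩

omit [DecidableEq V] [DecidableRel G.Adj] in
lemma mem_bl_succ {U A : Finset V} {r : ℕ} {v x : V} (hv : v ∈ bl G U A r) (hx : G.Adj v x)
    (hxU : x ∈ U) : x ∈ bl G U A (r + 1) := by
  obtain ⟨a, ha, h⟩ := mem_bl.1 hv; exact mem_bl.2 ⟨a, ha, h.cons hx.symm hxU⟩

omit [DecidableEq V] [DecidableRel G.Adj] in
lemma bl_zero_subset (U A : Finset V) : bl G U A 0 ⊆ A := by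
  intro v hv; obtain ⟨a, ha, h⟩ := mem_bl.1 hv; rwa [h.zero]

omit [DecidableEq V] [DecidableRel G.Adj] in
lemma card_bl_mono (U A : Finset V) : Monotone fun r => (bl G U A r).card :=
  fun _ _ h => card_le_card (bl_mono subset_rfl subset_rfl h)

/-- Upper bound for balls in a part of the graph with small degrees. -/
lemma card_bl_le {U X : Finset V} (A : Finset V) {D : ℕ} (hU : U ⊆ X)
    (hD : ∀ v ∈ U, dg G X v < D) (r : ℕ) : (bl G U A r).card ≤ A.card * D ^ r := by
  induction r with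
  | zero => simpa using card_le_card (bl_zero_subset U A)
  | succ r ih =>
    have hsub : bl G U A (r + 1) ⊆
        (bl G U A r).biUnion (fun v => insert v (X.filter (G.Adj v))) := by
      intro v hv
      obtain ⟨a, ha, h⟩ := mem_bl.1 hv
      rcases h.succ with rfl | ⟨c, hc, h'⟩
      · exact mem_biUnion.2 ⟨v, mem_bl.2 ⟨v, ha, Rch.refl h.left _⟩, mem_insert_self _ _⟩
      · exact mem_biUnion.2 ⟨c, mem_bl.2 ⟨a, ha, h'⟩,
          mem_insert_of_mem (mem_filter.2 ⟨hU h.left, hc.symm⟩)⟩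
    calc _ ≤ _ := card_le_card hsub
      _ ≤ (bl G U A r).card * D := by
        apply card_biUnion_le_card_mul
        intro v hv
        have := hD v (bl_subset _ _ _ hv)
        exact (card_insert_le _ _).trans this
      _ ≤ A.card * D ^ r * D := Nat.mul_le_mul_right _ ih
      _ = _ := by ring

omit [DecidableEq V] [DecidableRel G.Adj] in
/-- A walk to the centre stays inside the ball. -/
lemma Rch.in_bl {U : Finset V} {r : ℕ} {v a : V} (h : Rch G U r v a) :
    Rch G (bl G U {a} r) r v a := by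
  obtain ⟨p, h1, hp⟩ := h
  exact ⟨p, h1, fun x hx => mem_bl_one.2 ((rch_of_mem_support p hp hx).mono subset_rfl h1)⟩

end ball

section girth

omit [Fintype V] [DecidableEq V] [DecidableRel G.Adj] in
lemma Gir.two_paths {g : ℕ} (hg : Gir G g) {a b : V} {p q : G.Walk a b} (hp : p.IsPath)
    (hq : q.IsPath) (h : p ≠ q) : g ≤ p.length + q.length := by
  obtain ⟨w, -, -, c, hc, hl⟩ := hp.exists_isCycle_length_le_add_of_ne hq h
  exact (hg w c hc).trans hl

omit [DecidableRel G.Adj] in
lemma Gir.one_nbr {g : ℕ} (hg : Gir G g) {c x y₁ y₂ : V} {r : ℕ} (hr : 2 * r + 2 < g)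
    (hx : G.dist x c ≤ r) (h₁ : G.Adj x y₁) (h₂ : G.Adj x y₂) (r₁ : G.Reachable y₁ c)
    (r₂ : G.Reachable y₂ c) (d₁ : G.dist y₁ c ≤ G.dist x c) (d₂ : G.dist y₂ c ≤ G.dist x c) :
    y₁ = y₂ := by
  by_contra hne
  have key : ∀ y, G.Adj x y → G.Reachable y c → G.dist y c ≤ G.dist x c →
      ∃ p : G.Walk x c, p.IsPath ∧ p.length ≤ r + 1 ∧ p.getVert 1 = y := by
    intro y hy ry dy
    obtain ⟨p, hp, hl⟩ := ry.exists_path_of_dist
    refine ⟨Walk.cons hy p, ?_, by simp; omega, by simp⟩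
    rw [Walk.cons_isPath_iff]
    refine ⟨hp, fun hxp => ?_⟩
    have h1 := Walk.length_dropUntil_lt_length hxp hy.ne
    have h2 := dist_le (p.dropUntil x hxp)
    omega
  obtain ⟨p, hp, hl, hv⟩ := key y₁ h₁ r₁ d₁
  obtain ⟨q, hq, hl', hv'⟩ := key y₂ h₂ r₂ d₂
  have := hg.two_paths hp hq (by rintro rfl; exact hne (hv.symm.trans hv'))
  omega

/-- Subsets of small balls span forests. -/
lemma Gir.forest {g : ℕ} (hg : Gir G g) {c : V} {r : ℕ} (hr : 2 * r + 2 < g) (Y : Finset V)
    (hY : Y ⊆ bl G univ {c} r) (hne : Y.Nonempty) : E G Y Y + 2 ≤ 2 * Y.card := by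
  induction Y using Finset.strongInduction with
  | H Y ih =>
    obtain ⟨x, hx, hmax⟩ := exists_max_image Y (fun y => G.dist y c) hne
    have hreach : ∀ y ∈ Y, G.Reachable y c ∧ G.dist y c ≤ r := by
      intro y hy
      obtain ⟨p, hp, -⟩ := mem_bl_one.1 (hY hy)
      exact ⟨⟨p⟩, (dist_le p).trans hp⟩
    have h1 : dg G (Y.erase x) x ≤ 1 := by
      apply card_le_one.2
      intro y₁ hy₁ y₂ hy₂
      rw [mem_filter] at hy₁ hy₂
      have m₁ := mem_of_mem_erase hy₁.1
      have m₂ := mem_of_mem_erase hy₂.1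
      exact hg.one_nbr hr (hreach x hx).2 hy₁.2 hy₂.2 (hreach _ m₁).1 (hreach _ m₂).1
        (hmax _ m₁) (hmax _ m₂)
    have hE := E_insert_self (G := G) (notMem_erase x Y)
    rw [insert_erase hx] at hE
    have hc := card_erase_add_one hx
    rcases (Y.erase x).eq_empty_or_nonempty with h0 | h0
    · rw [h0] at hE hc
      have e1 : E G (∅ : Finset V) ∅ = 0 := by simp [E]
      have e2 : dg G (∅ : Finset V) x = 0 := by simp [dg]
      rw [card_empty] at hc
      omega
    · have := ih _ (erase_ssubset hx) ((erase_subset _ _).trans hY) h0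
      omega

end girth

end Pool.Agent.P.MP_bb4f54_co
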