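import Pool.Agent.P.MP_bb4f54_co.Gadget

set_option autoImplicit false
set_option linter.unusedSectionVars false

namespace Pool.Agent.P.MP_bb4f54_co

open Finset SimpleGraph

variable {V : Type*} [Fintype V] [DecidableEq V] {G : SimpleGraph V} [DecidableRel G.Adj]

/-- There is a cycle of length `t`. -/
def Cyc (G : SimpleGraph V) (t : ℕ) : Prop := ∃ (v : V) (c : G.Walk v v), c.IsCycle ∧ c.length = t

/-- A window of lengths. -/
def Win (s d m : ℕ) : Set ℕ := {t | ∃ i ≤ m, t = s + 2 * i ∨ t = s + d + 2 * i}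

/-- Links with two lengths that differ by two can be found avoiding any small set. -/
def OR (G : SimpleGraph V) (X : Finset V) (D r w B P : ℕ) : Prop :=
  ∀ W : Finset V, W.card ≤ w → ∃ (l : LD V) (s : ℕ), IsLink G X D r l ∅ {s, s + 2} ∧
    Disjoint W l.supp ∧ l.A.card + P + 1 ≤ B ∧ s + P ≤ B

variable {X : Finset V} {D r : ℕ}

lemma chain {B k P w s₀ d α₀ t m₀ : ℕ} (hC : Conn G X B k) (hP : 2 * r + k ≤ P)
    (hO : OR G X D r w B P) {l₀ : LD V} {M W : Finset V} (h₀ : IsLink G X D r l₀ M {s₀, s₀ + d})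
    (hW : Disjoint W l₀.supp) (hA : l₀.A.card ≤ α₀) (ht : s₀ + m₀ * B ≤ t)
    (h1 : W.card + 2 * D + α₀ + t * B ≤ w) (h2 : B * (W.card + α₀ + t * B + B) ≤ D) :
    ∃ (l : LD V) (s : ℕ), IsLink G X D r l M (Win s d m₀) ∧ Disjoint W l.supp ∧
      l.A.card ≤ α₀ + t * B ∧ s₀ ≤ s ∧ s ≤ t ∧ t < s + B := by
  by_contra hcon
  have key : ∀ m, ∃ (l : LD V) (s : ℕ), IsLink G X D r l M (Win s d m) ∧ Disjoint W l.supp ∧
      l.A.card ≤ α₀ + m * B ∧ s₀ + m ≤ s ∧ s ≤ t ∧ s ≤ s₀ + m * B := by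
    intro m
    induction m with
    | zero =>
      refine ⟨l₀, s₀, h₀.mono ?_, hW, by simpa using hA, by simp, by omega, by simp⟩
      rintro t ⟨i, hi, rfl | rfl⟩ <;> simp [Nat.le_zero.1 hi]
    | succ m ih =>
      obtain ⟨l, s, L, dl, al, s1, s2, s3⟩ := ih
      have hmt : m * B ≤ t * B := Nat.mul_le_mul_right _ (by omega)
      have c1 := L.card_supp
      have c2 := card_union_le W l.supp
      obtain ⟨l', s', L', dl', al', s4⟩ := hO (W ∪ l.supp) (by omega)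
      rw [disjoint_union_left] at dl'
      obtain ⟨l'', j, j1, j2, L'', dl'', al''⟩ := combine (W := W) hC L L' dl'.2 dl dl'.1 hP
        (le_trans (Nat.mul_le_mul_left _ (by omega)) h2)
      have e : (m + 1) * B = m * B + B := by ring
      by_cases hs : s + j + s' ≤ t
      · refine ⟨l'', s + j + s', ?_, dl'', by omega, by omega, hs, by omega⟩
        rw [union_empty] at L''
        refine L''.mono ?_
        rintro t ⟨i, hi, ht⟩
        rcases Nat.lt_or_ge i (m + 1) with h | h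
        · rcases ht with rfl | rfl
          · exact ⟨s + 2 * i, ⟨i, by omega, Or.inl rfl⟩, s', by simp, by omega⟩
          · exact ⟨s + d + 2 * i, ⟨i, by omega, Or.inr rfl⟩, s', by simp, by omega⟩
        · rcases ht with rfl | rfl
          · exact ⟨s + 2 * m, ⟨m, by omega, Or.inl rfl⟩, s' + 2, by simp, by omega⟩
          · exact ⟨s + d + 2 * m, ⟨m, by omega, Or.inr rfl⟩, s' + 2, by simp, by omega⟩
      · exfalso
        have hm : m₀ ≤ m := by
          by_contra hm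
          have : (m + 1) * B ≤ m₀ * B := Nat.mul_le_mul_right _ (by omega)
          omega
        refine hcon ⟨l, s, L.mono ?_, dl, by omega, by omega, s2, by omega⟩
        rintro t ⟨i, hi, ht⟩
        exact ⟨i, hi.trans hm, ht⟩
  obtain ⟨l, s, -, -, -, s1, s2, -⟩ := key (t + 1)
  omega

lemma chain_close {B k P w s₀ d α₀ t m₀ : ℕ} (hC : Conn G X B k) (hP : 2 * r + k ≤ P)
    (hO : OR G X D r w B P) {l₀ : LD V} {M W : Finset V} (h₀ : IsLink G X D r l₀ M {s₀, s₀ + d})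
    (hW : Disjoint W l₀.supp) (hA : l₀.A.card ≤ α₀) (ht : s₀ + m₀ * B + P + d ≤ t)
    (hm : B + P + d ≤ 2 * m₀) (_hs : 2 ≤ s₀ + m₀) (hB : 1 ≤ B) (hs' : 2 ≤ s₀ ∨ B + 2 ≤ m₀ * B)
    (h1 : W.card + 2 * D + α₀ + t * B ≤ w) (h2 : B * (W.card + α₀ + t * B + B) ≤ D)
    (he : Even t) :
    Cyc G t ∨ (Even d ∧ ∃ (v : V) (c : G.Walk v v), c.IsCycle ∧ Odd c.length ∧ c.length ≤ t ∧
      (∀ x ∈ c.support, x ∉ W) ∧ ∀ x ∈ M, x ∈ c.support) := by
  have hmt : (t - P - d) * B ≤ t * B := Nat.mul_le_mul_right _ (by omega)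
  obtain ⟨l, s, L, dl, al, s1, s2, s3⟩ := chain (t := t - P - d) (m₀ := m₀) hC hP hO h₀ hW hA
    (by omega) (by omega) (le_trans (Nat.mul_le_mul_left _ (by omega)) h2)
  obtain ⟨j, j1, hj⟩ := close hC L dl hP (le_trans (Nat.mul_le_mul_left _ (by omega)) h2)
  have hs2 : 2 ≤ s := by omega
  obtain ⟨t', rfl⟩ := he
  rcases Nat.even_or_odd' (s + j) with ⟨i, hi | hi⟩
  · left
    obtain ⟨v, c, hc, hl, -⟩ := hj (s + 2 * (t' - i)) ⟨t' - i, by omega, Or.inl rfl⟩ (by omega)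
    exact ⟨v, c, hc, by omega⟩
  · rcases Nat.even_or_odd' d with ⟨e, he | he⟩
    · right
      obtain ⟨v, c, hc, hl, h3, h4⟩ := hj (s + 2 * 0) ⟨0, by omega, Or.inl rfl⟩ (by omega)
      exact ⟨⟨e, by omega⟩, v, c, hc, ⟨i, by omega⟩, by omega, h3, h4⟩
    · left
      obtain ⟨v, c, hc, hl, -⟩ := hj (s + d + 2 * (t' - i - e - 1))
        ⟨t' - i - e - 1, by omega, Or.inr rfl⟩ (by omega)
      exact ⟨v, c, hc, by omega⟩

lemma claw_link {x c₁ c₂ : V} {F₁ F₂ F₃ : Finset V} (e₁ : G.Adj c₁ x) (e₂ : G.Adj c₂ x)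
    (x₁ : Xp G F₁ c₁ r) (x₂ : Xp G F₂ c₂ r) (hx : x ∈ F₃) (k₁ : F₁.card = D) (k₂ : F₂.card = D)
    (s₁ : F₁ ⊆ X) (s₂ : F₂ ⊆ X) (d₁₂ : Disjoint F₁ F₂) (d₁₃ : Disjoint F₁ F₃)
    (d₂₃ : Disjoint F₂ F₃) : IsLink G X D r ⟨c₁, c₂, F₁, F₂, {x}⟩ {x} {2} := by
  have a1 := x₁.1
  have a2 := x₂.1
  have d12 := Finset.disjoint_left.1 d₁₂
  refine ⟨x₁, x₂, k₁, k₂, s₁, s₂, d₁₂, d₁₃.mono_right (by simpa using hx),
    d₂₃.mono_right (by simpa using hx), ?_⟩
  rintro t rfl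
  have := e₁.ne
  have := e₂.ne
  refine ⟨Walk.cons e₁ (Walk.cons e₂.symm Walk.nil), ?_, rfl, ?_, by simp⟩
  · simp only [Walk.cons_isPath_iff, Walk.support_cons, Walk.support_nil, List.mem_cons]
    grind [Walk.IsPath.nil]
  · simp only [Walk.support_cons, Walk.support_nil, List.mem_cons, mem_singleton]
    grind

lemma pw {B : ℕ} (hB : 16 ≤ B) (i : ℕ) : 16 * B ^ i ≤ B ^ (i + 1) := by
  rw [pow_succ, mul_comm]; exact Nat.mul_le_mul_left _ hB

lemma mul_le_pw {B x : ℕ} (i : ℕ) (h : x ≤ B ^ i) : B * x ≤ B ^ (i + 1) := by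
  rw [pow_succ, mul_comm]; exact Nat.mul_le_mul_right _ h

lemma mul_le_pw' {B x : ℕ} (i : ℕ) (h : x ≤ B ^ i) : x * B ≤ B ^ (i + 1) := by
  rw [pow_succ]; exact Nat.mul_le_mul_right _ h

lemma HO.or {B k P D : ℕ} (h : HO G X (B ^ 32) (B ^ 31) r) (hC : Conn G X B k)
    (hP : 2 * (r + 2) + k ≤ P) (hB : 16 * P ≤ B) (hD : 1 ≤ D) (hD' : D ≤ B ^ 25) :
    OR G X D (r + 2) (B ^ 23) B P := by
  intro W hW
  have h16 : 16 ≤ B := by omega
  have p1 : B ^ 1 = B := pow_one B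
  have p2 := pw h16 1
  have p23 : B ^ 2 ≤ B ^ 23 := Nat.pow_le_pow_right (by omega) (by norm_num)
  have p24 := pw h16 23
  have p25 := pw h16 24
  have p26 := pw h16 25
  have p27 := pw h16 26
  have p28 := pw h16 27
  have p29 := pw h16 28
  have p30 := pw h16 29
  have p31 := pw h16 30
  have p32 := pw h16 31
  norm_num at p2 p24 p25 p26 p27 p28 p29 p30 p31 p32
  obtain ⟨l, s, L, dl, al, sl⟩ := pair_gadgets (D := B ^ 25) (σ := 4 * B ^ 25) (w := B ^ 27) hC hP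
    (W := W) (by
      intro W' hW'
      obtain ⟨S, α, β, h1, h2, h3⟩ := h.gadget (D := B ^ 25) (D₂ := B ^ 29) (W := W') hC hP
        (by omega) (by omega) (by omega) (by omega) (mul_le_pw 30 (by omega))
        (mul_le_pw 28 (by omega))
      exact ⟨S, α, β, h1, by omega, h3⟩)
    (by
      have : (2 * P + 2) * (4 * B ^ 25) ≤ B * (4 * B ^ 25) := Nat.mul_le_mul_right _ (by omega)
      have e : B * (4 * B ^ 25) = 4 * B ^ 26 := by ring
      omega)
    (mul_le_pw 24 (by omega))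
  obtain ⟨l', L', sub, hA⟩ := L.trim hD hD'
  exact ⟨l', s, L', dl.mono_right sub, by rw [hA]; omega, by omega⟩

theorem HO.window {B k P : ℕ} (h : HO G X (B ^ 32) (B ^ 31) r) (hC : Conn G X B k)
    (hP : 2 * (r + 2) + k ≤ P) (hB : 16 * P ≤ B) :
    (∀ t, Even t → B ^ 3 ≤ t → t ≤ B ^ 6 → Cyc G t) ∨
      (∀ t, Even t → B ^ 8 ≤ t → t ≤ B ^ 16 → Cyc G t) := by
  have h16 : 16 ≤ B := by omega
  have p1 : B ^ 1 = B := pow_one B
  have p2 := pw h16 1
  have p3 := pw h16 2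
  have p6 : B ^ 3 ≤ B ^ 6 := Nat.pow_le_pow_right (by omega) (by norm_num)
  have p7 := pw h16 6
  have p8 := pw h16 7
  have p17 : B ^ 8 ≤ B ^ 17 := Nat.pow_le_pow_right (by omega) (by norm_num)
  have p18 := pw h16 17
  have p19 := pw h16 18
  have p20 := pw h16 19
  have p21 := pw h16 20
  have p22 := pw h16 21
  have p23 := pw h16 22
  have p25 : B ^ 23 ≤ B ^ 25 := Nat.pow_le_pow_right (by omega) (by norm_num)
  have p31 : B ^ 25 ≤ B ^ 31 := Nat.pow_le_pow_right (by omega) (by norm_num)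
  have p32 := pw h16 31
  norm_num at p2 p3 p7 p8 p18 p19 p20 p21 p22 p23 p32
  have O₁ := h.or (D := B ^ 22) hC hP hB (by omega) (by omega)
  have O₀ := h.or (D := B ^ 20) hC hP hB (by omega) (by omega)
  obtain ⟨x, c₁, c₂, F₁, F₂, F₃, e₁, e₂, x₁, x₂, x₃, k₁, k₂, k₃, s₁, s₂, s₃, d₁₂, d₁₃, d₂₃⟩ :=
    h.claw (W := ∅) (n₁ := B ^ 22) (n₂ := B ^ 22) (n₃ := B ^ 20) (by simp) (by omega) (by omega)
      (by omega) (by omega) (by omega) (by omega)
  obtain ⟨y, c₃, c₄, H₁, H₂, H₃, e₃, e₄, y₁, y₂, y₃, m₁, m₂, m₃, t₁, t₂, t₃, g₁₂, g₁₃, g₂₃⟩ :=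
    h.claw (W := F₁ ∪ F₂ ∪ F₃) (n₁ := B ^ 22) (n₂ := B ^ 22) (n₃ := B ^ 20) (by
      have := card_union_le (F₁ ∪ F₂) F₃
      have := card_union_le F₁ F₂
      omega) (by omega) (by omega) (by omega) (by omega) (by omega) (by omega)
  rw [sdiff_empty] at s₁ s₂ s₃
  have L₁ := claw_link e₁ e₂ x₁ x₂ x₃.1 k₁ k₂ s₁ s₂ d₁₂ d₁₃ d₂₃
  have L₂ := claw_link e₃ e₄ y₁ y₂ y₃.1 m₁ m₂ (t₁.trans sdiff_subset) (t₂.trans sdiff_subset)
    g₁₂ g₁₃ g₂₃
  have t₃' := t₃.trans sdiff_subset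
  simp only [subset_iff, mem_sdiff, mem_union] at t₁ t₂ t₃
  simp only [Finset.disjoint_left] at d₁₂ d₁₃ d₂₃ g₁₂ g₁₃ g₂₃
  have a1 := x₃.1
  have a2 := y₃.1
  have cW : (F₃.erase x ∪ H₃.erase y).card ≤ 2 * B ^ 20 := by
    have := card_union_le (F₃.erase x) (H₃.erase y)
    have := card_erase_le (s := F₃) (a := x)
    have := card_erase_le (s := H₃) (a := y)
    omega
  obtain ⟨l₀, j, j1, j2, L₀, dl₀, al₀⟩ := combine (W := F₃.erase x ∪ H₃.erase y) hC L₁ L₂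
    (by simp only [LD.supp, Finset.disjoint_left, mem_union, mem_singleton]; grind)
    (by simp only [LD.supp, Finset.disjoint_left, mem_union, mem_singleton, mem_erase]; grind)
    (by simp only [LD.supp, Finset.disjoint_left, mem_union, mem_singleton, mem_erase]; grind)
    hP (mul_le_pw 21 (by simp only [card_singleton]; omega))
  simp only [card_singleton] at al₀
  have L₀' : IsLink G X (B ^ 22) (r + 2) l₀ ({x} ∪ {y}) {2 + j + 2, 2 + j + 2 + 0} :=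
    L₀.mono (by rintro t (rfl | rfl) <;> exact ⟨2, rfl, 2, rfl, rfl⟩)
  by_cases hall : ∀ t, Even t → B ^ 3 ≤ t → t ≤ B ^ 6 → Cyc G t
  · exact Or.inl hall
  right
  push Not at hall
  obtain ⟨t, he, ht1, ht2, hnc⟩ := hall
  have q1 := mul_le_pw' 6 ht2
  have q2 : B * B = B ^ 2 := by ring
  norm_num at q1
  obtain ⟨-, v, c, hc, hodd, hl, hcW, hcM⟩ := (chain_close (m₀ := B) (α₀ := B) (t := t) hC hP O₁
    L₀' dl₀ (by omega) (by omega) (by omega) (by omega) (by omega) (by omega) (by omega)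
    (mul_le_pw 21 (by omega)) he).resolve_left hnc
  obtain ⟨l₁, s, d, L, hsd, al⟩ := link_of_cycle (X := X) hc (hcM x (by simp)) (hcM y (by simp))
    x₃ y₃ k₃ m₃ s₃ t₃' (by simp only [Finset.disjoint_left]; grind) hcW
  intro t' he' ht1' ht2'
  have q3 := mul_le_pw' 16 ht2'
  have q4 : 2 * B ^ 6 * B = 2 * B ^ 7 := by ring
  norm_num at q3
  refine (chain_close (m₀ := 2 * B ^ 6) (α₀ := 2 * B ^ 6) (t := t') (W := ∅) hC hP O₀
    L (disjoint_empty_left _) (by omega) (by omega) (by omega) (by omega) (by omega) (by omega)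
    (by simp only [card_empty]; omega) (mul_le_pw 19 (by simp only [card_empty]; omega))
    he').resolve_right ?_
  rintro ⟨⟨e, he⟩, -⟩
  obtain ⟨o, ho⟩ := hodd
  omega

end Pool.Agent.P.MP_bb4f54_co
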