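import Pool.Agent.P.MP_bb4f54_co.Chain

set_option autoImplicit false
set_option linter.unusedSectionVars false

namespace Pool.Agent.P.MP_bb4f54_co

open Finset SimpleGraph

variable {V : Type*} [Fintype V] [DecidableEq V] {G : SimpleGraph V} [DecidableRel G.Adj]

/-- Limited contact of the balls around `w` with the set `Q`. -/
def CH (G : SimpleGraph V) [DecidableRel G.Adj] (U Q K : Finset V) (w c : V) (ρ κ : ℕ) : Prop :=
  ∀ r < ρ, ∃ S : Finset V, K ⊆ S ∧ S ⊆ Q ∧
    (∀ v ∈ bl G (U \ Q) {w} r, ∀ x ∈ Q, G.Adj v x → x ∈ S) ∧ S.card ≤ κ * (r + 2) ∧ Con G S ∧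
      S ⊆ bl G univ {c} (r + 3)

lemma CH.mono {U Q K : Finset V} {w c : V} {ρ κ κ' : ℕ} (h : CH G U Q K w c ρ κ) (hκ : κ ≤ κ') :
    CH G U Q K w c ρ κ' := by
  intro r hr
  obtain ⟨S, h1, h2, h3, h4, h5⟩ := h r hr
  exact ⟨S, h1, h2, h3, h4.trans (Nat.mul_le_mul_right _ hκ), h5⟩

lemma con_seg {S : Finset V} (hS : Con G S) {w y k : V} (hk : k ∈ S) (hw : G.Adj w k)
    (p : G.Walk w y) (m : ℕ) : Con G (S ∪ (range m).image p.getVert) := by
  induction m with
  | zero => simpa using hS
  | succ m ih =>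
    rw [range_add_one, image_insert, union_insert]
    rcases m with _ | m
    · exact ih.insert (mem_union_left _ hk) (Or.inr (by simpa using hw))
    · refine ih.insert (s := p.getVert m)
        (mem_union_right _ (mem_image_of_mem _ (mem_range.2 (by omega)))) ?_
      rcases Nat.lt_or_ge m p.length with h | h
      · exact Or.inr (p.adj_getVert_succ h).symm
      · left
        rw [p.getVert_of_length_le h, p.getVert_of_length_le (by omega)]

lemma multi {X W K I₀ J₀ : Finset V} {c : V} {T : V → Finset V} {Pr : V → Finset V → Prop}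
    {B k ρ s σ q : ℕ} (hC : Conn G X B k) (hs : B * (W.card + q) ≤ s) (hs1 : 1 ≤ s)
    (hI : ∀ w ∈ I₀, w ∈ X \ W ∧ (∃ x ∈ K, G.Adj w x) ∧ Rch G univ 2 w c)
    (hE : ∀ w ∈ I₀, ∀ Q : Finset V, w ∉ Q → Q.card ≤ q → CH G (X \ W) Q K w c ρ 5 →
      s ≤ (bl G ((X \ W) \ Q) {w} ρ).card)
    (hT0 : ∀ z ∈ J₀, T z ⊆ X \ W)
    (hTd : ∀ z ∈ J₀, ∀ z' ∈ J₀, z ≠ z' → Disjoint (T z) (T z'))
    (hT1 : ∀ z ∈ J₀, ∀ Q : Finset V, Q.card ≤ q → Disjoint (T z) Q →
      s ≤ (bl G ((X \ W) \ Q) (T z) 1).card)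
    (hT2 : ∀ z ∈ J₀, ∀ y ∈ T z, ∃ R ⊆ T z, R.card ≤ σ ∧
      (∀ x ∈ R, x ≠ y → x ∉ bl G (X \ W) I₀ ρ) ∧ Pr y R)
    (n : ℕ) : ∀ (I J Q : Finset V) (κ : ℕ), I ⊆ I₀ → J ⊆ J₀ → I.card = n → n ≤ J.card →
      Disjoint I Q → (∀ z ∈ J, Disjoint (T z) Q) → Q.card + n * (ρ + k + 2 + σ) ≤ q →
      κ + n ≤ 5 → (∀ w ∈ I, CH G (X \ W) Q K w c ρ κ) →
      ∃ F : V → Finset V, (∀ w ∈ I, F w ⊆ (X \ W) \ Q ∧ (F w).card ≤ ρ + k + 2 + σ ∧
        ∃ (y : V) (R : Finset V) (p : G.Walk w y), p.length ≤ ρ + k + 1 ∧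
          F w = p.support.toFinset ∪ R ∧ Pr y R) ∧
        ∀ w ∈ I, ∀ w' ∈ I, w ≠ w' → Disjoint (F w) (F w') := by
  induction n with
  | zero =>
    intro I J Q κ _ _ hn
    rw [card_eq_zero] at hn
    subst hn
    intros
    exact ⟨fun _ => ∅, by simp, by simp⟩
  | succ n ih =>
    intro I J Q κ hII hJJ hn hJ hIQ hTQ hq hκ hCH
    obtain ⟨w₀, hw₀⟩ : I.Nonempty := card_pos.1 (by omega)
    obtain ⟨z₀, hz₀⟩ : J.Nonempty := card_pos.1 (by omega)
    have hq' : Q.card ≤ q := by omega
    have e1 := hE w₀ (hII hw₀) Q (Finset.disjoint_left.1 hIQ hw₀) hq'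
      ((hCH w₀ hw₀).mono (by omega))
    have e2 := hT1 z₀ (hJJ hz₀) Q hq' (hTQ z₀ hz₀)
    have e3 : B * (W ∪ Q).card ≤ s := by
      refine le_trans (Nat.mul_le_mul_left _ ?_) hs
      have := card_union_le W Q
      omega
    have eU : X \ (W ∪ Q) = (X \ W) \ Q := by
      ext x; simp only [mem_sdiff, mem_union]; tauto
    obtain ⟨a₁, ha₁, a₂, ha₂, hr⟩ := hC (W ∪ Q) _ _ (eU ▸ bl_subset _ _ _)
      (card_pos.1 (lt_of_lt_of_le hs1 e1)) (e3.trans e1) (eU ▸ bl_subset _ _ _)
      (card_pos.1 (lt_of_lt_of_le hs1 e2)) (e3.trans e2)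
    rw [eU] at hr
    obtain ⟨y₀, hy₀, r₂⟩ := mem_bl.1 ha₂
    obtain ⟨w, hw, y, hy, p, hpl, hps, hpI, hpT, hgeo⟩ := exists_shortest (I := I)
      (T := J.biUnion T) hw₀ (mem_biUnion.2 ⟨z₀, hz₀, hy₀⟩)
      (((mem_bl_one.1 ha₁).symm.trans hr).trans r₂)
    obtain ⟨z, hz, hyz⟩ := mem_biUnion.1 hy
    obtain ⟨R, hRT, hRc, hRf, hPr⟩ := hT2 z (hJJ hz) y hyz
    have hFc : (p.support.toFinset ∪ R).card ≤ ρ + k + 2 + σ := by
      have := card_union_le p.support.toFinset R
      have := card_support_le p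
      omega
    have hyp := p.end_mem_support
    obtain ⟨F, hF1, hF2⟩ := ih (I.erase w) (J.erase z) (Q ∪ (p.support.toFinset ∪ R)) (κ + 1)
      ((erase_subset _ _).trans hII) ((erase_subset _ _).trans hJJ)
      (by rw [card_erase_of_mem hw]; omega) (by rw [card_erase_of_mem hz]; omega)
      (by
        rw [Finset.disjoint_left]
        intro w' hw' hw''
        have h1 := mem_erase.1 hw'
        have h2 : w' ∈ bl G (X \ W) I₀ ρ :=
          mem_bl.2 ⟨w', hII h1.2, Rch.refl (hI w' (hII h1.2)).1 _⟩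
        have h3 := Finset.disjoint_left.1 hIQ h1.2
        simp only [mem_union, List.mem_toFinset] at hw''
        grind)
      (by
        intro z' hz'
        have h1 := mem_erase.1 hz'
        have h2 := Finset.disjoint_left.1 (hTd z' (hJJ h1.2) z (hJJ hz) h1.1)
        have h3 := Finset.disjoint_left.1 (hTQ z' h1.2)
        rw [Finset.disjoint_left]
        intro x hx hx'
        have h4 : x ∈ J.biUnion T := mem_biUnion.2 ⟨z', h1.2, hx⟩
        simp only [mem_union, List.mem_toFinset] at hx'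
        grind)
      (by
        have := card_union_le Q (p.support.toFinset ∪ R)
        have e : (n + 1) * (ρ + k + 2 + σ) = n * (ρ + k + 2 + σ) + (ρ + k + 2 + σ) := by ring
        omega)
      (by omega)
      (by
        intro w' hw' r hr
        have h1 := mem_erase.1 hw'
        obtain ⟨S, s1, s2, s3, s4, s5, s6⟩ := hCH w' h1.2 r hr
        obtain ⟨-, ⟨x₀, hx₀, hadj₀⟩, hwc⟩ := hI w (hII hw)
        refine ⟨S ∪ (range (r + 2)).image p.getVert, s1.trans subset_union_left, ?_, ?_, ?_,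
          con_seg s5 (s1 hx₀) hadj₀ p _, ?_⟩
        · refine union_subset_union s2 ?_
          intro x hx
          obtain ⟨i, -, rfl⟩ := mem_image.1 hx
          exact mem_union_left _ (List.mem_toFinset.2 (p.getVert_mem_support i))
        · intro v hv x hx hadj
          have hv' : v ∈ bl G ((X \ W) \ Q) {w'} r :=
            bl_mono (sdiff_subset_sdiff subset_rfl subset_union_left) subset_rfl le_rfl hv
          have hsupp : x ∈ p.support → x ∈ S ∪ (range (r + 2)).image p.getVert := by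
            intro hxp
            have hxU := hps x hxp
            obtain ⟨i, rfl, hi⟩ := Walk.mem_support_iff_exists_getVert.1 hxp
            have := hgeo i hi w' h1.2 (r + 1) (mem_bl_one.1 (mem_bl_succ hv' hadj hxU)).symm
            exact mem_union_right _ (mem_image_of_mem _ (mem_range.2 (by omega)))
          rcases mem_union.1 hx with hx | hx
          · exact mem_union_left _ (s3 v hv' x hx hadj)
          rcases mem_union.1 hx with hx | hx
          · exact hsupp (List.mem_toFinset.1 hx)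
          · by_cases hxy : x = y
            · exact hsupp (hxy ▸ hyp)
            · refine absurd ?_ (hRf x hx hxy)
              have hv'' : v ∈ bl G (X \ W) {w'} r :=
                bl_mono sdiff_subset subset_rfl le_rfl hv
              exact bl_mono subset_rfl (singleton_subset_iff.2 (hII h1.2)) (by omega)
                (mem_bl_succ hv'' hadj (hT0 z (hJJ hz) (hRT hx)))
        · have := card_union_le S ((range (r + 2)).image p.getVert)
          have := card_image_le (s := range (r + 2)) (f := p.getVert)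
          rw [card_range] at this
          have e : (κ + 1) * (r + 2) = κ * (r + 2) + (r + 2) := by ring
          omega
        · refine union_subset s6 fun x hx => ?_
          obtain ⟨i, hi, rfl⟩ := mem_image.1 hx
          have := mem_range.1 hi
          exact mem_bl_one.2 (((rch_getVert_start p (fun x _ => mem_univ x) i).symm.trans hwc).mono
            subset_rfl (by omega)))
    have hFU : p.support.toFinset ∪ R ⊆ (X \ W) \ Q := by
      refine union_subset (fun x hx => hps x (List.mem_toFinset.1 hx)) fun x hx => ?_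
      exact mem_sdiff.2 ⟨hT0 z (hJJ hz) (hRT hx), Finset.disjoint_left.1 (hTQ z hz) (hRT hx)⟩
    have hdis : ∀ w' ∈ I, w' ≠ w → Disjoint (F w') (p.support.toFinset ∪ R) := by
      intro w' hw' hne
      have := (hF1 w' (mem_erase.2 ⟨hne, hw'⟩)).1
      rw [Finset.disjoint_left]
      intro x hx hx'
      exact (mem_sdiff.1 (this hx)).2 (mem_union_right _ hx')
    refine ⟨Function.update F w (p.support.toFinset ∪ R), ?_, ?_⟩
    · intro w' hw'
      by_cases hne : w' = w
      · subst hne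
        rw [Function.update_self]
        exact ⟨hFU, hFc, y, R, p, hpl, rfl, hPr⟩
      · rw [Function.update_of_ne hne]
        obtain ⟨h1, h2⟩ := hF1 w' (mem_erase.2 ⟨hne, hw'⟩)
        exact ⟨h1.trans (sdiff_subset_sdiff subset_rfl subset_union_left), h2⟩
    · intro w₁ h₁ w₂ h₂ hne
      by_cases e₁ : w₁ = w
      · subst e₁
        rw [Function.update_self, Function.update_of_ne hne.symm]
        exact (hdis w₂ h₂ hne.symm).symm
      · by_cases e₂ : w₂ = w
        · subst e₂
          rw [Function.update_self, Function.update_of_ne hne]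
          exact hdis w₁ h₁ hne
        · rw [Function.update_of_ne e₁, Function.update_of_ne e₂]
          exact hF2 w₁ (mem_erase.2 ⟨e₁, h₁⟩) w₂ (mem_erase.2 ⟨e₂, h₂⟩) hne

end Pool.Agent.P.MP_bb4f54_co
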