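import Pool.Agent.P.MP_bb4f54_co.Trap
import Pool.Agent.P.MP_bb4f54_co.Multi

set_option autoImplicit false
set_option linter.unusedSectionVars false

namespace Pool.Agent.P.MP_bb4f54_co

open Finset SimpleGraph

variable {V : Type*} [Fintype V] [DecidableEq V] {G : SimpleGraph V} [DecidableRel G.Adj]

/-- Vertices of `U` with a neighbour in `W`. -/
def Sg (G : SimpleGraph V) [DecidableRel G.Adj] (U W : Finset V) : Finset V :=
  U.filter (fun v => ∃ x ∈ W, G.Adj v x)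

open Classical in
/-- Vertices of `U` with a neighbour in `W` close to another edge to `W`. -/
noncomputable def Sb (G : SimpleGraph V) (U W : Finset V) (t : ℕ) : Finset V :=
  U.filter (fun v => ∃ x ∈ W, ∃ x' ∈ W, ∃ v', Rch G U t v v' ∧ G.Adj v x ∧ G.Adj v' x' ∧
    (v' ≠ v ∨ x ≠ x'))

/-- Vertices of large degree. -/
def Hb (G : SimpleGraph V) [DecidableRel G.Adj] (X : Finset V) (D : ℕ) : Finset V :=
  X.filter (fun v => D ≤ dg G X v)

lemma mem_Sb {U W : Finset V} {t : ℕ} {v : V} : v ∈ Sb G U W t ↔ v ∈ U ∧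
    ∃ x ∈ W, ∃ x' ∈ W, ∃ v', Rch G U t v v' ∧ G.Adj v x ∧ G.Adj v' x' ∧ (v' ≠ v ∨ x ≠ x') := by
  simp only [Sb, mem_filter]

lemma low_dg {X W : Finset V} {D : ℕ} : ∀ v ∈ (X \ W) \ Hb G X D, dg G X v < D := by
  intro v hv
  simp only [Hb, mem_sdiff, mem_filter] at hv
  by_contra h
  exact hv.2 ⟨hv.1.1, by omega⟩

lemma card_Sb {X W : Finset V} {g t : ℕ} (hg : Gir G g) (ht : 2 * t + 4 < g) :
    (Sb G (X \ W) W t).card ≤ W.card ^ 2 := by
  rw [sq, ← card_product]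
  apply card_le_card_of_forall_subsingleton (fun v (e : V × V) => ∃ p : G.Walk e.1 e.2,
    p.IsPath ∧ p.length ≤ t + 2 ∧ p.getVert 1 = v)
  · intro v hv
    obtain ⟨-, x, hx, x', hx', v', hr, a1, a2, hne⟩ := mem_Sb.1 hv
    obtain ⟨q, hq, hl, hs⟩ := hr.path
    have hxq : x ∉ q.support := fun h => (mem_sdiff.1 (hs x h)).2 hx
    have hxq' : x' ∉ q.support := fun h => (mem_sdiff.1 (hs x' h)).2 hx'
    have hxx : x ≠ x' := by
      rintro rfl
      have hv' : v' ≠ v := by simpa using hne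
      have := hg.two_paths (p := Walk.cons a1.symm q) (q := Walk.cons a2.symm Walk.nil)
        ((Walk.cons_isPath_iff _ _).2 ⟨hq, hxq⟩) (by simpa using a2.ne.symm) (by
          intro h
          have := congrArg (fun p => p.getVert 1) h
          simp at this
          exact hv' this.symm)
      simp at this
      omega
    refine ⟨(x, x'), mem_product.2 ⟨hx, hx'⟩, Walk.cons a1.symm (q.concat a2), ?_, by simp; omega,
      by simp⟩
    rw [Walk.cons_isPath_iff, Walk.concat_isPath_iff]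
    simp only [Walk.support_concat, List.mem_append, List.mem_singleton]
    grind
  · rintro e - v₁ ⟨-, p, hp, hl, h1⟩ v₂ ⟨-, q, hq, hl', h2⟩
    by_contra hne
    have := hg.two_paths hp hq (by rintro rfl; exact hne (h1.symm.trans h2))
    omega

lemma dg_le_one_of_not_Sb {U W : Finset V} {t : ℕ} : ∀ y ∈ U \ Sb G U W t, dg G W y ≤ 1 := by
  intro y hy
  rw [mem_sdiff] at hy
  apply card_le_one.2
  intro x hx x' hx'
  rw [mem_filter] at hx hx'
  by_contra hne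
  exact hy.2 (mem_Sb.2 ⟨hy.1, x, hx.1, x', hx'.1, y, Rch.refl hy.1 _, hx.2, hx'.2, Or.inr hne⟩)

lemma Good.count_sg {X W : Finset V} (hX : Good G X) {g r D : ℕ} (hg : Gir G g)
    (hr : 4 * (r + 15) + 4 < g) :
    32 * (bl G ((X \ W) \ Hb G X D) (Sg G (X \ W) W) r).card ≤
      32 * (W.card ^ 2 * D ^ r) + X.card := by
  set U := X \ W with hU
  set A := Sb G U W (2 * (r + 15)) with hA
  have hsub : bl G (U \ Hb G X D) (Sg G U W) r ⊆
      bl G (U \ Hb G X D) A r ∪ (Sg G U W \ A).biUnion (fun v => bl G U {v} r) := by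
    intro x hx
    obtain ⟨a, ha, h⟩ := mem_bl.1 hx
    by_cases haA : a ∈ A
    · exact mem_union_left _ (mem_bl.2 ⟨a, haA, h⟩)
    · exact mem_union_right _ (mem_biUnion.2 ⟨a, mem_sdiff.2 ⟨ha, haA⟩,
        mem_bl_one.2 (h.mono sdiff_subset le_rfl)⟩)
  have h1 : (bl G (U \ Hb G X D) A r).card ≤ W.card ^ 2 * D ^ r :=
    (card_bl_le A (sdiff_subset.trans sdiff_subset) low_dg r).trans
      (Nat.mul_le_mul_right _ (card_Sb hg (by omega)))
  have h2 : ∀ v ∈ Sg G U W \ A, 32 * (bl G U {v} r).card ≤ (bl G U {v} (r + 15)).card := by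
    intro v hv
    obtain ⟨hv1, hv2⟩ := mem_sdiff.1 hv
    obtain ⟨hvU, x, hx, hadj⟩ := mem_filter.1 hv1
    refine grow_third (fun r => (bl G U {v} r).card) (r₀ := r) 5 fun r' _ hr' => ?_
    refine hX.tree_step hg sdiff_subset hvU (S := {x}) (c := v) (r' := r + 15) (by omega) ?_ ?_
      (con_singleton x) (bl_mono (subset_univ _) subset_rfl (by omega)) ?_
    · intro v' hv' x' hx' hx'' hadj'
      have hx'W : x' ∈ W := by
        by_contra h; exact hx'' (mem_sdiff.2 ⟨hx', h⟩)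
      by_contra hne
      exact hv2 (mem_Sb.2 ⟨hvU, x, hx, x', hx'W, v',
        (mem_bl_one.1 hv').symm.mono subset_rfl (by omega), hadj, hadj',
        Or.inr (fun h => hne (by simp [h]))⟩)
    · simpa using fun h => (mem_sdiff.1 h).2 hx
    · rw [singleton_subset_iff]
      exact mem_bl_one.2 ((Rch.adj hadj.symm (mem_univ _) (mem_univ _)).mono subset_rfl (by omega))
  have h3 : ∑ v ∈ Sg G U W \ A, (bl G U {v} (r + 15)).card ≤ X.card := by
    rw [← card_biUnion]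
    · exact card_le_card (biUnion_subset.2 fun v _ => (bl_subset _ _ _).trans sdiff_subset)
    · intro v₁ h₁ v₂ h₂ hne
      rw [Function.onFun, Finset.disjoint_left]
      intro z hz₁ hz₂
      obtain ⟨hv1, hv2⟩ := mem_sdiff.1 h₁
      obtain ⟨hvU, x, hx, hadj⟩ := mem_filter.1 hv1
      obtain ⟨-, x', hx', hadj'⟩ := mem_filter.1 (mem_sdiff.1 h₂).1
      exact hv2 (mem_Sb.2 ⟨hvU, x, hx, x', hx', v₂,
        ((mem_bl_one.1 hz₁).symm.trans (mem_bl_one.1 hz₂)).mono subset_rfl (by omega), hadj, hadj',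
        Or.inl hne.symm⟩)
  have h4 := sum_le_sum h2
  rw [← mul_sum] at h4
  have h5 := card_biUnion_le (s := Sg G U W \ A) (t := fun v => bl G U {v} r)
  have h6 := (card_le_card hsub).trans (card_union_le _ _)
  omega

lemma Good.full_edge {X W B B₁ : Finset V} (hX : Good G X) {D : ℕ}
    (h1 : B ⊆ (X \ W) \ Hb G X D) (h1' : B ⊆ B₁)
    (h2 : ∀ v ∈ (X \ W) \ Hb G X D, ∀ x ∈ W, G.Adj v x → v ∈ B)
    (h3 : ∀ v ∈ (X \ W) \ Hb G X D, ∀ x ∈ B, G.Adj v x → v ∈ B₁)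
    (h4 : 20 * B₁.card ≤ X.card) (h5 : 20 * W.card ≤ X.card) (h6 : 2 * (W.card + 2) ≤ D) :
    ∃ u ∈ (X \ W) \ B, ∃ u' ∈ (X \ W) \ B, G.Adj u u' ∧ 3 ≤ dg G ((X \ W) \ B) u ∧
      3 ≤ dg G ((X \ W) \ B) u' := by
  by_contra hcon
  push Not at hcon
  set X₁ := (X \ W) \ B with hX₁
  set NF := X₁.filter (fun v => dg G X₁ v < 3) with hNF
  set FF := X₁.filter (fun v => ¬ dg G X₁ v < 3) with hFF
  set H := NF ∩ Hb G X D with hH
  have c1 : NF.card + FF.card = X₁.card := card_filter_add_card_filter_not _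
  have c2 : 3 * FF.card ≤ E G FF NF := by
    refine le_trans ?_ (E_le_of_sub (T := X₁) ?_)
    · rw [mul_comm]
      exact card_nsmul_le_sum FF _ 3 fun v hv => by have := (mem_filter.1 hv).2; omega
    · intro y hy x hx hadj
      have hy' := mem_filter.1 hy
      exact mem_filter.2 ⟨hx, hcon y hy'.1 x hx hadj (by omega)⟩
  have c3 : E G NF FF ≤ NF.card * 2 := by
    refine le_trans (E_mono_right _ (filter_subset _ _)) ?_
    exact sum_le_card_nsmul NF _ 2 fun v hv => by have := (mem_filter.1 hv).2; omega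
  rw [E_comm] at c3
  have c4 : H.card * D ≤ 2 * E G H B := by
    unfold E
    rw [mul_sum]
    refine card_nsmul_le_sum H _ D fun v hv => ?_
    have hv' := mem_inter.1 hv
    have a1 := (mem_filter.1 hv'.1).2
    have a2 := (mem_filter.1 hv'.2).2
    have a3 := dg_le_sdiff_add (G := G) X W v
    have a4 := dg_split (G := G) (h1.trans sdiff_subset) v
    rw [← hX₁] at a4
    omega
  have c5 : E G B H ≤ B.card * D := by
    refine sum_le_card_nsmul B _ D fun v hv => ?_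
    refine le_trans (dg_mono ?_ v) (low_dg v (h1 hv)).le
    exact inter_subset_right.trans (filter_subset _ _)
  rw [E_comm] at c5
  have c6 : H.card ≤ 2 * B.card := by
    have : H.card * D ≤ 2 * B.card * D := by rw [mul_assoc]; omega
    exact Nat.le_of_mul_le_mul_right this (by omega)
  have c7 : NF ⊆ X.filter (fun v => dg G X v < 3) ∪ B₁ ∪ H := by
    intro v hv
    by_cases hH : v ∈ Hb G X D
    · exact mem_union_right _ (mem_inter.2 ⟨hv, hH⟩)
    obtain ⟨a1, a2⟩ := mem_filter.1 hv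
    obtain ⟨a3, a4⟩ := mem_sdiff.1 a1
    by_cases hB : v ∈ B₁
    · exact mem_union_left _ (mem_union_right _ hB)
    refine mem_union_left _ (mem_union_left _ (mem_filter.2 ⟨(mem_sdiff.1 a3).1,
      lt_of_le_of_lt (dg_le_of_sub fun x hx hadj => ?_) a2⟩))
    exact mem_sdiff.2 ⟨mem_sdiff.2 ⟨hx, fun h => a4 (h2 v (mem_sdiff.2 ⟨a3, hH⟩) x h hadj)⟩,
      fun h => hB (h3 v (mem_sdiff.2 ⟨a3, hH⟩) x h hadj)⟩
  have c8 := (card_le_card c7).trans (card_union_le _ _)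
  have c9 := card_union_le (X.filter (fun v => dg G X v < 3)) B₁
  have c10 := hX.v3
  have c11 := le_card_sdiff W X
  have c12 := le_card_sdiff B (X \ W)
  rw [← hX₁] at c12
  have c13 := card_le_card h1'
  have c14 := hX.ne.card_pos
  omega

/-- Balls around good vertices escape. -/
lemma Good.escape {X W Z Q K : Finset V} (hX : Good G X) {g D j₀ J q t : ℕ} (hg : Gir G g)
    {w c : V} (hw : w ∈ X \ W)
    (hw1 : w ∉ bl G ((X \ W) \ Hb G X D) (Sg G (X \ W) W) (8 * Cc * j₀ ^ 3))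
    (hw2 : w ∉ bl G ((X \ W) \ Hb G X D) (Z ∪ Sb G (X \ W) W t) (8 * Cc * J ^ 3))
    (hZ : ∀ j, j₀ ≤ j → j < J → ∀ Y, NE G (X \ W) (Sb G (X \ W) W t) Cc j Y → ¬ Disjoint Y Z)
    (hc : Rch G univ 2 w c) (n1 : 2 ^ J + W.card + q ≤ D) (n2 : 2 * (8 * Cc * j₀ ^ 3 + 3) + 2 < g)
    (n3 : j₀ ≤ J) (n4 : ∀ j, j₀ ≤ j → 2 * Cc * (j + 2) ^ 2 * (5 * (8 * Cc * (j + 1) ^ 3 + 2)) ≤ 2 ^ j)
    (hwQ : w ∉ Q) (hQ : Q.card ≤ q) (hCH : CH G (X \ W) Q K w c (8 * Cc * J ^ 3 + 1) 5) :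
    2 ^ J ≤ (bl G ((X \ W) \ Q) {w} (8 * Cc * J ^ 3 + 1)).card := by
  set U := (X \ W) \ Q with hU
  have hwU : w ∈ U := mem_sdiff.2 ⟨hw, hwQ⟩
  by_cases hh : ∃ h ∈ bl G U {w} (8 * Cc * J ^ 3), h ∈ Hb G X D
  · obtain ⟨h, h1, h2⟩ := hh
    have a1 := (mem_filter.1 h2).2
    have a2 := dg_le_sdiff_add (G := G) X W h
    have a3 := dg_le_sdiff_add (G := G) (X \ W) Q h
    have a4 : dg G U h ≤ (bl G U {w} (8 * Cc * J ^ 3 + 1)).card := card_le_card fun x hx =>
      mem_bl_succ h1 (mem_filter.1 hx).2 (mem_filter.1 hx).1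
    rw [← hU] at a3
    omega
  push Not at hh
  have hlow : ∀ r ≤ 8 * Cc * J ^ 3, ∀ v ∈ bl G U {w} r, Rch G ((X \ W) \ Hb G X D) r w v := by
    intro r hr v hv
    refine (mem_bl_one.1 hv).in_bl.symm.mono (fun x hx => ?_) le_rfl
    exact mem_sdiff.2 ⟨(mem_sdiff.1 (bl_subset _ _ _ hx)).1,
      hh x (bl_mono subset_rfl subset_rfl hr hx)⟩
  have hC : 0 < Cc := by norm_num [Cc]
  have hj : 8 * Cc * j₀ ^ 3 ≤ 8 * Cc * J ^ 3 :=
    Nat.mul_le_mul_left _ (Nat.pow_le_pow_left n3 3)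
  have hj' : 3 * j₀ ≤ 8 * Cc * j₀ ^ 3 := by
    have : j₀ ≤ j₀ ^ 3 := Nat.le_self_pow (by norm_num) _
    nlinarith
  refine le_trans (grow_cube (fun r => (bl G U {w} r).card) (card_bl_mono _ _) hC n3 ?_ ?_)
    (card_bl_mono _ _ (Nat.le_succ _))
  · have := grow_third (fun r => (bl G U {w} r).card) (r₀ := 0) j₀ (by
      intro r _ hr
      obtain ⟨S, -, s2, s3, -, s5, s6⟩ := hCH r (by omega)
      refine hX.tree_step hg (sdiff_subset.trans sdiff_subset) hwU (S := S) (c := c)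
        (r' := r + 3) (by omega) ?_ (sdiff_disjoint.mono_right s2) s5 ?_ s6
      · intro v hv x hx hx' hadj
        by_cases hxW : x ∈ W
        · exact absurd (mem_bl.2 ⟨v, mem_filter.2 ⟨(mem_sdiff.1 (bl_subset _ _ _ hv)).1, x, hxW,
            hadj⟩, (hlow r (by omega) v hv).mono subset_rfl (by omega)⟩) hw1
        · refine s3 v hv x ?_ hadj
          by_contra h
          exact hx' (mem_sdiff.2 ⟨mem_sdiff.2 ⟨hx, hxW⟩, h⟩)
      · intro v hv
        exact mem_bl_one.2 (((mem_bl_one.1 hv).mono (subset_univ _) le_rfl).trans hc))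
    have h1 : 1 ≤ (bl G U {w} 0).card := card_pos.2 ⟨w, mem_bl_one.2 (Rch.refl hwU _)⟩
    have h2 := card_bl_mono (G := G) U {w} (show 0 + 3 * j₀ ≤ 8 * Cc * j₀ ^ 3 by omega)
    simp only at h2
    nlinarith [Nat.two_pow_pos j₀]
  · intro j r h1 h2 h3 h4 h5
    have hr : r < 8 * Cc * J ^ 3 :=
      lt_of_lt_of_le h3 (Nat.mul_le_mul_left _ (Nat.pow_le_pow_left h2 3))
    obtain ⟨S, -, -, s3, s4, -⟩ := hCH r (by omega)
    refine grow_step (S := S) ?_ (le_trans (Nat.mul_le_mul_left _ (by omega)) (n4 j h1)) h4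
    have hout : ∀ v ∈ bl G U {w} r, v ∉ Z ∪ Sb G (X \ W) W t := fun v hv h =>
      hw2 (mem_bl.2 ⟨v, h, (hlow r hr.le v hv).mono subset_rfl hr.le⟩)
    by_contra hlt
    refine hZ j h1 h2 (bl G U {w} r) ⟨fun v hv => mem_sdiff.2
      ⟨(mem_sdiff.1 (bl_subset _ _ _ hv)).1, fun h => hout v hv (mem_union_right _ h)⟩, h4, h5,
      lt_of_le_of_lt (Nat.mul_le_mul_left _ (card_le_card fun x hx => ?_)) (not_le.1 hlt)⟩
      (Finset.disjoint_left.2 fun v hv h => hout v hv (mem_union_left _ h))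
    obtain ⟨hx1, y, hy, hadj⟩ := mem_filter.1 hx
    obtain ⟨hx2, hx3⟩ := mem_sdiff.1 hx1
    by_cases hxQ : x ∈ Q
    · exact mem_union_right _ (s3 y hy x hxQ hadj)
    · exact mem_union_left _ (mem_sdiff.2 ⟨mem_bl_succ hy hadj (mem_sdiff.2 ⟨hx2, hxQ⟩), hx3⟩)

end Pool.Agent.P.MP_bb4f54_co
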