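import Pool.Agent.P.MP_bb4f54_co.Basic

set_option autoImplicit false
set_option linter.unusedSectionVars false

namespace Pool.Agent.P.MP_bb4f54_co

open Finset SimpleGraph

variable {V : Type*} [Fintype V] [DecidableEq V] (G : SimpleGraph V) [DecidableRel G.Adj]

/-- The expansion properties of a minimiser of the potential. -/
structure Good (X : Finset V) : Prop where
  ne : X.Nonempty
  v1 : ∀ Y ⊆ X, 2 * Y.card ≤ X.card → ∀ N : Finset V,
    (∀ y ∈ Y, ∀ x ∈ X, x ∉ Y → G.Adj y x → x ∈ N) → ∀ l : ℕ, Y.card < 2 ^ (l + 1) →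
      Y.card ≤ 144 * (l + 2) ^ 2 * N.card
  v2 : ∀ Y ⊆ X, 17 * Y.card ≤ 6 * E G Y Y + 12 * E G Y (X \ Y)
  v3 : 6 * (X.filter (fun v => dg G X v < 3)).card ≤ X.card

/-- Deficiency of the vertices of `Z` with respect to `X`. -/
def df (X Z : Finset V) : ℕ := ∑ v ∈ Z, (3 - dg G X v)

noncomputable def psi (x : ℕ) : ℝ := 1 / ((Nat.log 2 (x ^ 2) : ℝ) + 1)

noncomputable def Phi (X : Finset V) : ℝ := (df G X X : ℝ) / X.card - psi X.card / 6

variable {G}

lemma psi_pos (x : ℕ) : 0 < psi x := by unfold psi; positivity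

lemma psi_le_one (x : ℕ) : psi x ≤ 1 := by
  unfold psi
  rw [div_le_one (by positivity)]
  have : (0 : ℝ) ≤ (Nat.log 2 (x ^ 2) : ℝ) := by positivity
  linarith

lemma psi_anti {x y : ℕ} (h : x ≤ y) : psi y ≤ psi x := by
  unfold psi
  apply one_div_le_one_div_of_le (by positivity)
  have : Nat.log 2 (x ^ 2) ≤ Nat.log 2 (y ^ 2) := Nat.log_mono_right (Nat.pow_le_pow_left h 2)
  have : (Nat.log 2 (x ^ 2) : ℝ) ≤ Nat.log 2 (y ^ 2) := by exact_mod_cast this
  linarith

lemma psi_gain {x y l : ℕ} (hx : 0 < x) (h : 2 * x ^ 2 ≤ y ^ 2) (hl : x ^ 2 < 2 ^ (2 * l + 3)) :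
    1 / (4 * ((l : ℝ) + 2) ^ 2) ≤ psi x - psi y := by
  unfold psi
  have h1 : Nat.log 2 (x ^ 2) + 1 ≤ Nat.log 2 (y ^ 2) := by
    rw [← Nat.log_mul_base (by norm_num) (by positivity)]
    exact Nat.log_mono_right (by omega)
  have h2 : Nat.log 2 (x ^ 2) < 2 * l + 3 := Nat.log_lt_of_lt_pow (by positivity) hl
  set a := Nat.log 2 (x ^ 2)
  set b := Nat.log 2 (y ^ 2)
  have h1' : (a : ℝ) + 1 ≤ b := by exact_mod_cast h1
  have h2' : (a : ℝ) ≤ 2 * l + 2 := by exact_mod_cast (by omega : a ≤ 2 * l + 2)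
  have ha : (0 : ℝ) ≤ a := by positivity
  have e1 : 1 / ((b : ℝ) + 1) ≤ 1 / ((a : ℝ) + 2) :=
    one_div_le_one_div_of_le (by positivity) (by linarith)
  have e2 : 1 / ((a : ℝ) + 1) - 1 / ((a : ℝ) + 2) = 1 / (((a : ℝ) + 1) * (a + 2)) := by
    field_simp; ring
  have e3 : 1 / (4 * ((l : ℝ) + 2) ^ 2) ≤ 1 / (((a : ℝ) + 1) * (a + 2)) :=
    one_div_le_one_div_of_le (by positivity) (by nlinarith)
  linarith

lemma df_split {X Y : Finset V} (Z : Finset V) (h : Y ⊆ X) :
    df G Z X = df G Z Y + df G Z (X \ Y) := by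
  unfold df; rw [← sum_union disjoint_sdiff, union_sdiff_of_subset h]

lemma df_sdiff_le {X Y : Finset V} (h : Y ⊆ X) :
    df G (X \ Y) (X \ Y) ≤ df G X (X \ Y) + E G Y (X \ Y) := by
  rw [E_comm]
  unfold df E
  rw [← sum_add_distrib]
  refine sum_le_sum fun v _ => ?_
  have := dg_split (G := G) h v
  omega

lemma three_le_df (X Y : Finset V) : 3 * Y.card ≤ df G X Y + E G Y X := by
  unfold df E
  rw [← sum_add_distrib, card_eq_sum_ones, mul_sum]
  exact sum_le_sum fun v _ => by omega

lemma df_le_card (X Y : Finset V) : df G X Y ≤ 3 * Y.card := by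
  unfold df
  rw [card_eq_sum_ones, mul_sum]
  exact sum_le_sum fun v _ => by omega

theorem exists_good [Nonempty V] (hδ : ∀ v, 3 ≤ G.degree v) : ∃ X : Finset V, Good G X := by
  obtain ⟨X, hX, hmin⟩ := exists_min_image (univ.filter (fun X : Finset V => X.Nonempty))
    (Phi G) ⟨univ, by simp⟩
  have hne : X.Nonempty := (mem_filter.1 hX).2
  have hmin' : ∀ X' : Finset V, X'.Nonempty → Phi G X ≤ Phi G X' :=
    fun X' h => hmin X' (by simpa using h)
  have hn : (0 : ℝ) < X.card := by exact_mod_cast hne.card_pos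
  obtain ⟨ω, hω⟩ : ∃ ω : ℝ, ω = (df G X X : ℝ) / X.card := ⟨_, rfl⟩
  have hω0 : 0 ≤ ω := by rw [hω]; exact div_nonneg (Nat.cast_nonneg _) (Nat.cast_nonneg _)
  have hdf : (df G X X : ℝ) = ω * X.card := by rw [hω]; field_simp
  have hω1 : ω ≤ 1 / 6 := by
    have h1 := hmin' univ univ_nonempty
    have h0 : df G (univ : Finset V) univ = 0 := by
      unfold df
      refine sum_eq_zero fun v _ => ?_
      rw [dg_univ]; have := hδ v; omega
    unfold Phi at h1
    rw [h0] at h1
    have := psi_pos (univ : Finset V).card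
    have := psi_le_one X.card
    simp only [Nat.cast_zero, zero_div] at h1
    linarith
  have hlow : ∀ X' : Finset V, X'.Nonempty →
      X'.card * (ω + (psi X'.card - psi X.card) / 6) ≤ (df G X' X' : ℝ) := by
    intro X' h
    have h1 := hmin' X' h
    have hn' : (0 : ℝ) < X'.card := by exact_mod_cast h.card_pos
    unfold Phi at h1
    rw [mul_comm, ← le_div_iff₀ hn']
    linarith
  clear hω
  have hlow' : ∀ X' ⊆ X, X'.card * ω ≤ (df G X' X' : ℝ) := by
    intro X' h
    rcases X'.eq_empty_or_nonempty with rfl | h0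
    · simp
    · refine le_trans ?_ (hlow X' h0)
      have := psi_anti (card_le_card h)
      gcongr
      linarith
  refine ⟨X, hne, ?_, ?_, ?_⟩
  · intro Y hY h2 N hN l hl
    rcases Y.eq_empty_or_nonempty with rfl | hYne
    · simp
    set N' := N ∩ (X \ Y) with hN'
    have hNN : N'.card ≤ N.card := card_le_card inter_subset_left
    suffices h : Y.card ≤ 144 * (l + 2) ^ 2 * N'.card from
      h.trans (Nat.mul_le_mul_left _ hNN)
    by_cases hc : 2 * Y.card ≤ 5 * N'.card
    · have : 4 ≤ (l + 2) ^ 2 := by nlinarith [Nat.zero_le l]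
      nlinarith
    push Not at hc
    have hd : Disjoint Y N' := by
      rw [Finset.disjoint_left]; intro x hx hx'
      exact (mem_sdiff.1 (mem_inter.1 hx').2).2 hx
    have hcard : (Y ∪ N').card = Y.card + N'.card := card_union_of_disjoint hd
    have hpos : 0 < (Y ∪ N').card := by have := hYne.card_pos; omega
    have hg := psi_gain (x := (Y ∪ N').card) (y := X.card) (l := l) hpos (by nlinarith) (by
      have e : 2 ^ (2 * l + 3) = 2 * (2 ^ (l + 1)) ^ 2 := by ring
      rw [e]
      nlinarith)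
    have a1 : df G (Y ∪ N') (Y ∪ N') ≤ df G X Y + 3 * N'.card := by
      rw [df_split (G := G) _ (subset_union_left (s₂ := N')), union_sdiff_cancel_left hd]
      refine Nat.add_le_add ?_ (df_le_card _ _)
      refine sum_le_sum fun v hv => ?_
      have : dg G X v ≤ dg G (Y ∪ N') v := by
        apply dg_le_of_sub
        intro x hx hadj
        by_cases hxY : x ∈ Y
        · exact mem_union_left _ hxY
        · exact mem_union_right _ (mem_inter.2 ⟨hN v hv x hx hxY hadj, mem_sdiff.2 ⟨hx, hxY⟩⟩)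
      omega
    have a2 : df G (X \ Y) (X \ Y) ≤ df G X (X \ Y) + 3 * N'.card := by
      have hsub : N' ⊆ X \ Y := inter_subset_right
      rw [df_split (G := G) (X \ Y) hsub, df_split (G := G) X hsub]
      have b1 := df_le_card (G := G) (X \ Y) N'
      have b2 : df G (X \ Y) ((X \ Y) \ N') ≤ df G X ((X \ Y) \ N') := by
        refine sum_le_sum fun v hv => ?_
        have hv' := mem_sdiff.1 hv
        have hv'' := mem_sdiff.1 hv'.1
        have : dg G X v ≤ dg G (X \ Y) v := by
          apply dg_le_of_sub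
          intro x hx hadj
          refine mem_sdiff.2 ⟨hx, fun hxY => hv'.2 ?_⟩
          exact mem_inter.2 ⟨hN x hxY v hv''.1 hv''.2 hadj.symm, hv'.1⟩
        omega
      omega
    have a3 := df_split (G := G) X hY
    have l1 := hlow (Y ∪ N') (card_pos.1 hpos)
    have l2 := hlow' (X \ Y) sdiff_subset
    have c2 : ((X \ Y).card : ℝ) = X.card - Y.card := by
      rw [card_sdiff_of_subset hY, Nat.cast_sub (card_le_card hY)]
    have a1' : (df G (Y ∪ N') (Y ∪ N') : ℝ) ≤ df G X Y + 3 * N'.card := by exact_mod_cast a1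
    have a2' : (df G (X \ Y) (X \ Y) : ℝ) ≤ df G X (X \ Y) + 3 * N'.card := by exact_mod_cast a2
    have a3' : (df G X X : ℝ) = df G X Y + df G X (X \ Y) := by exact_mod_cast a3
    have c1 : ((Y ∪ N').card : ℝ) = Y.card + N'.card := by exact_mod_cast hcard
    set γ : ℝ := 1 / (4 * ((l : ℝ) + 2) ^ 2) with hγ
    have hγ0 : 0 < γ := by positivity
    have l1' : (Y.card : ℝ) * (ω + γ / 6) ≤ (df G (Y ∪ N') (Y ∪ N') : ℝ) := by
      refine le_trans ?_ l1
      rw [c1]
      have : (0 : ℝ) ≤ N'.card := Nat.cast_nonneg _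
      gcongr
      linarith
    have fin : (Y.card : ℝ) * γ ≤ 36 * N'.card := by
      rw [c2] at l2
      nlinarith
    have : (Y.card : ℝ) ≤ 144 * ((l : ℝ) + 2) ^ 2 * N'.card := by
      rw [hγ, mul_one_div, div_le_iff₀ (by positivity)] at fin
      linarith
    exact_mod_cast this
  · intro Y hY
    have l2 := hlow' (X \ Y) sdiff_subset
    have c2 : ((X \ Y).card : ℝ) = X.card - Y.card := by
      rw [card_sdiff_of_subset hY, Nat.cast_sub (card_le_card hY)]
    have a1 := df_sdiff_le (G := G) hY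
    have a2 := three_le_df (G := G) X Y
    have a3 := df_split (G := G) X hY
    have a4 := E_split (G := G) Y hY
    have a1' : (df G (X \ Y) (X \ Y) : ℝ) ≤ df G X (X \ Y) + E G Y (X \ Y) := by
      exact_mod_cast a1
    have a2' : (3 * Y.card : ℝ) ≤ df G X Y + (E G Y Y + E G Y (X \ Y)) := by
      rw [a4] at a2; exact_mod_cast a2
    have a3' : (df G X X : ℝ) = df G X Y + df G X (X \ Y) := by exact_mod_cast a3
    have hy : (0 : ℝ) ≤ Y.card := Nat.cast_nonneg _
    have : (17 * Y.card : ℝ) ≤ 6 * E G Y Y + 12 * E G Y (X \ Y) := by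
      rw [c2] at l2
      nlinarith
    exact_mod_cast this
  · have h1 : (X.filter (fun v => dg G X v < 3)).card ≤ df G X X := by
      unfold df
      rw [card_filter]
      refine sum_le_sum fun v _ => ?_
      split_ifs <;> omega
    have h1' : ((X.filter (fun v => dg G X v < 3)).card : ℝ) ≤ df G X X := by exact_mod_cast h1
    have : (6 * (X.filter (fun v => dg G X v < 3)).card : ℝ) ≤ X.card := by nlinarith
    exact_mod_cast this

end Pool.Agent.P.MP_bb4f54_co
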