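import Pool.Agent.P.MP_bb4f54_co.Link

set_option autoImplicit false
set_option linter.unusedSectionVars false
set_option linter.unusedSimpArgs false

namespace Pool.Agent.P.MP_bb4f54_co

open Finset SimpleGraph

variable {V : Type*} [Fintype V] [DecidableEq V] {G : SimpleGraph V} [DecidableRel G.Adj]

/-- An edge with four disjoint expansions attached, two at each end. -/
structure IsH (G : SimpleGraph V) (U : Finset V) (D r : ℕ) (u u' a₁ a₂ b₁ b₂ : V)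
    (F₁ F₂ F₃ F₄ : Finset V) : Prop where
  e : G.Adj u u'
  e₁ : G.Adj a₁ u
  e₂ : G.Adj a₂ u
  e₃ : G.Adj b₁ u'
  e₄ : G.Adj b₂ u'
  x₁ : Xp G F₁ a₁ r
  x₂ : Xp G F₂ a₂ r
  x₃ : Xp G F₃ b₁ r
  x₄ : Xp G F₄ b₂ r
  c₁ : D ≤ F₁.card
  c₂ : D ≤ F₂.card
  c₃ : D ≤ F₃.card
  c₄ : D ≤ F₄.card
  hu : u ∈ U
  hu' : u' ∈ U
  s₁ : F₁ ⊆ U \ {u, u'}
  s₂ : F₂ ⊆ U \ {u, u'}
  s₃ : F₃ ⊆ U \ {u, u'}
  s₄ : F₄ ⊆ U \ {u, u'}
  d₁₂ : Disjoint F₁ F₂
  d₁₃ : Disjoint F₁ F₃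
  d₁₄ : Disjoint F₁ F₄
  d₂₃ : Disjoint F₂ F₃
  d₂₄ : Disjoint F₂ F₄
  d₃₄ : Disjoint F₃ F₄

def HO (G : SimpleGraph V) (X : Finset V) (K D r : ℕ) : Prop :=
  ∀ W : Finset V, W.card ≤ K → ∃ u u' a₁ a₂ b₁ b₂ F₁ F₂ F₃ F₄,
    IsH G (X \ W) D r u u' a₁ a₂ b₁ b₂ F₁ F₂ F₃ F₄

variable {X : Finset V} {K D r : ℕ}

lemma HO.claw (h : HO G X K D r) {W : Finset V} (hW : W.card ≤ K) {n₁ n₂ n₃ : ℕ} (h₁ : 1 ≤ n₁)
    (h₂ : 1 ≤ n₂) (h₃ : 1 ≤ n₃) (h₁' : n₁ ≤ D) (h₂' : n₂ ≤ D) (h₃' : n₃ ≤ D) :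
    ∃ (x c₁ c₂ : V) (F₁ F₂ F₃ : Finset V), G.Adj c₁ x ∧ G.Adj c₂ x ∧
      Xp G F₁ c₁ (r + 2) ∧ Xp G F₂ c₂ (r + 2) ∧ Xp G F₃ x (r + 2) ∧
      F₁.card = n₁ ∧ F₂.card = n₂ ∧ F₃.card = n₃ ∧ F₁ ⊆ X \ W ∧ F₂ ⊆ X \ W ∧ F₃ ⊆ X \ W ∧
      Disjoint F₁ F₂ ∧ Disjoint F₁ F₃ ∧ Disjoint F₂ F₃ := by
  obtain ⟨u, u', a₁, a₂, b₁, b₂, F₁, F₂, F₃, F₄, H⟩ := h W hW
  obtain ⟨F₁', t₁, y₁, k₁⟩ := H.x₁.trim h₁ (h₁'.trans H.c₁)
  obtain ⟨F₂', t₂, y₂, k₂⟩ := H.x₂.trim h₂ (h₂'.trans H.c₂)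
  obtain ⟨F₃', t₃, y₃, k₃⟩ := ((H.x₃.insert H.e₃).insert H.e.symm).trim h₃
    ((h₃'.trans H.c₃).trans (card_le_card ((subset_insert _ _).trans (subset_insert _ _))))
  have s₁ := H.s₁
  have s₂ := H.s₂
  have s₃ := H.s₃
  have hu := H.hu
  have hu' := H.hu'
  have d₁₃ := Finset.disjoint_left.1 H.d₁₃
  have d₂₃ := Finset.disjoint_left.1 H.d₂₃
  simp only [subset_iff, mem_sdiff, mem_insert, mem_singleton] at s₁ s₂ s₃ t₁ t₂ t₃ hu hu'
  refine ⟨u, a₁, a₂, F₁', F₂', F₃', H.e₁, H.e₂, y₁.mono (by omega), y₂.mono (by omega), y₃,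
    k₁, k₂, k₃, ?_, ?_, ?_, H.d₁₂.mono t₁ t₂, ?_, ?_⟩
  · simp only [subset_iff, mem_sdiff]; grind
  · simp only [subset_iff, mem_sdiff]; grind
  · simp only [subset_iff, mem_sdiff]; grind
  · simp only [Finset.disjoint_left]; grind
  · simp only [Finset.disjoint_left]; grind

lemma HO.fork (h : HO G X K D r) {W : Finset V} (hW : W.card ≤ K) {n₁ n₂ n₃ : ℕ} (h₁ : 1 ≤ n₁)
    (h₂ : 1 ≤ n₂) (h₃ : 1 ≤ n₃) (h₁' : n₁ ≤ D) (h₂' : n₂ ≤ D) (h₃' : n₃ ≤ D) :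
    ∃ (u u' a b : V) (F₁ F₂ F₃ F₄ : Finset V), G.Adj u u' ∧ G.Adj a u ∧ G.Adj b u' ∧
      Xp G F₁ a (r + 2) ∧ Xp G F₂ b (r + 2) ∧ Xp G F₃ u (r + 2) ∧ Xp G F₄ u' (r + 2) ∧
      F₁.card = n₁ ∧ F₂.card = n₂ ∧ F₃.card = n₃ ∧ F₄.card = n₃ ∧
      F₁ ⊆ X \ W ∧ F₂ ⊆ X \ W ∧ F₃ ⊆ X \ W ∧ F₄ ⊆ X \ W ∧
      Disjoint F₁ F₂ ∧ Disjoint F₁ F₃ ∧ Disjoint F₁ F₄ ∧ Disjoint F₂ F₃ ∧ Disjoint F₂ F₄ ∧
      Disjoint F₃ F₄ := by
  obtain ⟨u, u', a₁, a₂, b₁, b₂, F₁, F₂, F₃, F₄, H⟩ := h W hW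
  obtain ⟨F₁', t₁, y₁, k₁⟩ := H.x₁.trim h₁ (h₁'.trans H.c₁)
  obtain ⟨F₃', t₃, y₃, k₃⟩ := H.x₃.trim h₂ (h₂'.trans H.c₃)
  obtain ⟨F₂', t₂, y₂, k₂⟩ := (H.x₂.insert H.e₂).trim h₃
    ((h₃'.trans H.c₂).trans (card_le_card (subset_insert _ _)))
  obtain ⟨F₄', t₄, y₄, k₄⟩ := (H.x₄.insert H.e₄).trim h₃
    ((h₃'.trans H.c₄).trans (card_le_card (subset_insert _ _)))
  have s₁ := H.s₁
  have s₂ := H.s₂
  have s₃ := H.s₃
  have s₄ := H.s₄
  have hu := H.hu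
  have hu' := H.hu'
  have huu := H.e.ne
  have d₁₂ := Finset.disjoint_left.1 H.d₁₂
  have d₁₄ := Finset.disjoint_left.1 H.d₁₄
  have d₂₃ := Finset.disjoint_left.1 H.d₂₃
  have d₂₄ := Finset.disjoint_left.1 H.d₂₄
  have d₃₄ := Finset.disjoint_left.1 H.d₃₄
  simp only [subset_iff, mem_sdiff, mem_insert, mem_singleton] at s₁ s₂ s₃ s₄ t₁ t₂ t₃ t₄ hu hu'
  refine ⟨u, u', a₁, b₁, F₁', F₃', F₂', F₄', H.e, H.e₁, H.e₃, y₁.mono (by omega),
    y₃.mono (by omega), y₂.mono (by omega), y₄.mono (by omega),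
    k₁, k₃, k₂, k₄, ?_, ?_, ?_, ?_, H.d₁₃.mono t₁ t₃, ?_, ?_, ?_, ?_, ?_⟩
  · simp only [subset_iff, mem_sdiff]; grind
  · simp only [subset_iff, mem_sdiff]; grind
  · simp only [subset_iff, mem_sdiff]; grind
  · simp only [subset_iff, mem_sdiff]; grind
  · simp only [Finset.disjoint_left]; grind
  · simp only [Finset.disjoint_left]; grind
  · simp only [Finset.disjoint_left]; grind
  · simp only [Finset.disjoint_left]; grind
  · simp only [Finset.disjoint_left]; grind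

lemma link_two {u u' v a b c₁ c₂ : V} {Fu Fv : Finset V} (e : G.Adj u u') (e₁ : G.Adj a u)
    (e₂ : G.Adj b u') (e₃ : G.Adj c₁ v) (e₄ : G.Adj c₂ v) (xu : Xp G Fu u r) (xv : Xp G Fv v r)
    (cu : Fu.card = D) (cv : Fv.card = D) (su : Fu ⊆ X) (sv : Fv ⊆ X) (d : Disjoint Fu Fv)
    (hu : u' ∉ Fu) (hv : u' ∉ Fv) {p : G.Walk a c₁} {q : G.Walk b c₂} (hp : p.IsPath)
    (hq : q.IsPath) (hps : ∀ x ∈ p.support, x ∉ Fu ∧ x ∉ Fv)
    (hqs : ∀ x ∈ q.support, x ∉ Fu ∧ x ∉ Fv ∧ x ≠ u') :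
    IsLink G X D r ⟨u, v, Fu, Fv, insert u' (p.support.toFinset ∪ q.support.toFinset)⟩ ∅
      {p.length + 2, q.length + 3} := by
  have a1 := xu.1
  have a2 := xv.1
  have d' := Finset.disjoint_left.1 d
  refine ⟨xu, xv, cu, cv, su, sv, d, ?_, ?_, ?_⟩
  · simp only [Finset.disjoint_left, mem_insert, mem_union, List.mem_toFinset]; grind
  · simp only [Finset.disjoint_left, mem_insert, mem_union, List.mem_toFinset]; grind
  · rintro t (rfl | rfl)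
    · refine ⟨Walk.cons e₁.symm (p.concat e₃), ?_, by simp, ?_, by simp⟩
      · rw [Walk.cons_isPath_iff, Walk.concat_isPath_iff]
        simp only [Walk.support_concat, List.concat_eq_append, List.mem_append, List.mem_singleton]
        grind
      · simp only [Walk.support_cons, Walk.support_concat, List.concat_eq_append, List.mem_append,
          List.mem_singleton, List.mem_cons, mem_insert, mem_union, List.mem_toFinset]
        grind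
    · refine ⟨Walk.cons e (Walk.cons e₂.symm (q.concat e₄)), ?_, by simp, ?_, by simp⟩
      · have := e.ne
        rw [Walk.cons_isPath_iff, Walk.cons_isPath_iff, Walk.concat_isPath_iff]
        simp only [Walk.support_cons, Walk.support_concat, List.concat_eq_append, List.mem_append,
          List.mem_singleton, List.mem_cons]
        grind
      · simp only [Walk.support_cons, Walk.support_concat, List.concat_eq_append, List.mem_append,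
          List.mem_singleton, List.mem_cons, mem_insert, mem_union, List.mem_toFinset]
        grind

/-- A gadget offers two links inside `S`. -/
def Gad (G : SimpleGraph V) (X : Finset V) (D r P : ℕ) (S : Finset V) (α β : ℕ) : Prop :=
  α ≤ P ∧ β ≤ P ∧
    (∃ l : LD V, IsLink G X D r l ∅ {α + 2, β + 3} ∧ l.supp ⊆ S ∧ l.A.card ≤ 2 * P + 3) ∧
    (∃ l : LD V, IsLink G X D r l ∅ {β + 2, α + 3} ∧ l.supp ⊆ S ∧ l.A.card ≤ 2 * P + 3)

lemma HO.gadget {D₃ D₂ B k P : ℕ} (h : HO G X K D₃ r) (hC : Conn G X B k)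
    (hP : 2 * (r + 2) + k ≤ P) {W : Finset V} (hD : 1 ≤ D) (hD₂ : D ≤ D₂) (hD₃ : D₂ ≤ D₃)
    (h1 : W.card + D₃ + D₂ + 2 * D ≤ K) (h2 : B * (W.card + 3 * D + 2 * D₂) ≤ D₃)
    (h3 : B * (W.card + 3 * D + P + 1) ≤ D₂) :
    ∃ (S : Finset V) (α β : ℕ), Disjoint W S ∧ S.card ≤ 3 * D + 2 * P + 2 ∧
      Gad G X D (r + 2) P S α β := by
  obtain ⟨u, u', a, b, F₁, F₂, F₃, F₄, e, e₁, e₂, x₁, x₂, x₃, x₄, k₁, k₂, k₃, k₄, s₁, s₂, s₃, s₄,
    d₁₂, d₁₃, d₁₄, d₂₃, d₂₄, d₃₄⟩ := h.fork (W := W) (n₁ := D₃) (n₂ := D₂) (n₃ := D) (by omega)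
      (by omega) (by omega) hD le_rfl hD₃ (by omega)
  obtain ⟨v, c₁, c₂, H₁, H₂, H₃, f₁, f₂, y₁, y₂, y₃, m₁, m₂, m₃, t₁, t₂, t₃, g₁₂, g₁₃, g₂₃⟩ :=
    h.claw (W := W ∪ F₁ ∪ F₂ ∪ F₃ ∪ F₄) (n₁ := D₃) (n₂ := D₂) (n₃ := D) (by
      have := card_union_le (W ∪ F₁ ∪ F₂ ∪ F₃) F₄
      have := card_union_le (W ∪ F₁ ∪ F₂) F₃
      have := card_union_le (W ∪ F₁) F₂
      have := card_union_le W F₁
      omega) (by omega) (by omega) hD le_rfl hD₃ (by omega)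
  simp only [subset_iff, mem_sdiff, mem_union] at s₁ s₂ s₃ s₄ t₁ t₂ t₃
  simp only [Finset.disjoint_left] at d₁₂ d₁₃ d₁₄ d₂₃ d₂₄ d₃₄ g₁₂ g₁₃ g₂₃
  have z1 : (W ∪ F₃ ∪ F₄ ∪ H₃).card ≤ W.card + 3 * D := by
    have := card_union_le (W ∪ F₃ ∪ F₄) H₃
    have := card_union_le (W ∪ F₃) F₄
    have := card_union_le W F₃
    omega
  have z2 : B * (W ∪ F₃ ∪ F₄ ∪ H₃ ∪ F₂ ∪ H₂).card ≤ D₃ := by
    refine le_trans (Nat.mul_le_mul_left _ ?_) h2
    have := card_union_le (W ∪ F₃ ∪ F₄ ∪ H₃ ∪ F₂) H₂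
    have := card_union_le (W ∪ F₃ ∪ F₄ ∪ H₃) F₂
    omega
  obtain ⟨p, hp, hpl, hps⟩ := hC.join (W := W ∪ F₃ ∪ F₄ ∪ H₃ ∪ F₂ ∪ H₂) x₁ y₁
    (by simp only [subset_iff, mem_sdiff, mem_union]; grind)
    (by simp only [subset_iff, mem_sdiff, mem_union]; grind) (k₁ ▸ z2) (m₁ ▸ z2) hP
  simp only [mem_sdiff, mem_union] at hps
  have z3 : B * (W ∪ F₃ ∪ F₄ ∪ H₃ ∪ p.support.toFinset).card ≤ D₂ := by
    refine le_trans (Nat.mul_le_mul_left _ ?_) h3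
    have := card_union_le (W ∪ F₃ ∪ F₄ ∪ H₃) p.support.toFinset
    have := card_support_le p
    omega
  obtain ⟨q, hq, hql, hqs⟩ := hC.join (W := W ∪ F₃ ∪ F₄ ∪ H₃ ∪ p.support.toFinset) x₂ y₂
    (by simp only [subset_iff, mem_sdiff, mem_union, List.mem_toFinset]; grind)
    (by simp only [subset_iff, mem_sdiff, mem_union, List.mem_toFinset]; grind)
    (k₂ ▸ z3) (m₂ ▸ z3) hP
  simp only [mem_sdiff, mem_union, List.mem_toFinset] at hqs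
  have a3 := x₃.1
  have a4 := x₄.1
  have cp := card_support_le p
  have cq := card_support_le q
  have cpq := card_union_le p.support.toFinset q.support.toFinset
  refine ⟨F₃ ∪ F₄ ∪ H₃ ∪ (p.support.toFinset ∪ q.support.toFinset), p.length, q.length, ?_, ?_,
    hpl, hql, ⟨_, link_two e e₁ e₂ f₁ f₂ x₃ y₃ k₃ m₃ ?_ ?_ ?_ ?_ ?_ hp hq ?_ ?_, ?_, ?_⟩,
    ⟨_, link_two e.symm e₂ e₁ f₂ f₁ x₄ y₃ k₄ m₃ ?_ ?_ ?_ ?_ ?_ hq hp ?_ ?_, ?_, ?_⟩⟩
  · simp only [Finset.disjoint_left, mem_union, List.mem_toFinset]; grind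
  · have := card_union_le (F₃ ∪ F₄ ∪ H₃) (p.support.toFinset ∪ q.support.toFinset)
    have := card_union_le (F₃ ∪ F₄) H₃
    have := card_union_le F₃ F₄
    omega
  · intro x hx; grind
  · intro x hx; grind
  · simp only [Finset.disjoint_left]; grind
  · grind
  · grind
  · grind
  · grind
  · simp only [LD.supp, subset_iff, mem_union, mem_insert, List.mem_toFinset]; grind
  · have := card_insert_le u' (p.support.toFinset ∪ q.support.toFinset)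
    simp only
    omega
  · intro x hx; grind
  · intro x hx; grind
  · simp only [Finset.disjoint_left]; grind
  · grind
  · grind
  · grind
  · grind
  · simp only [LD.supp, subset_iff, mem_union, mem_insert, List.mem_toFinset]; grind
  · have := card_insert_le u (q.support.toFinset ∪ p.support.toFinset)
    have := card_union_le q.support.toFinset p.support.toFinset
    simp only
    omega

/-- Two gadgets with the same difference give a link with two lengths that differ by two. -/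
lemma pair_gadgets {B k P σ w : ℕ} (hC : Conn G X B k) (hP : 2 * r + k ≤ P)
    (hG : ∀ W : Finset V, W.card ≤ w → ∃ (S : Finset V) (α β : ℕ), Disjoint W S ∧ S.card ≤ σ ∧
      Gad G X D r P S α β) {W : Finset V} (h1 : W.card + (2 * P + 2) * σ ≤ w)
    (h2 : B * (W.card + (2 * P + 3) + (2 * P + 3)) ≤ D) :
    ∃ (l : LD V) (s : ℕ), IsLink G X D r l ∅ {s, s + 2} ∧ Disjoint W l.supp ∧
      l.A.card ≤ 5 * P + 7 ∧ s ≤ 3 * P + 4 := by
  by_contra hcon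
  have key : ∀ m, m ≤ 2 * P + 2 → ∃ (Δ : Finset ℕ) (W' : Finset V), Δ.card = m ∧
      Δ ⊆ range (2 * P + 1) ∧ W ⊆ W' ∧ W'.card ≤ W.card + m * σ ∧
      ∀ δ ∈ Δ, ∃ (S : Finset V) (α β : ℕ), Gad G X D r P S α β ∧ α + P = δ + β ∧ S ⊆ W' ∧
        Disjoint W S := by
    intro m
    induction m with
    | zero => intro _; exact ⟨∅, W, rfl, empty_subset _, subset_rfl, by simp, by simp⟩
    | succ m ih =>
      intro hm
      obtain ⟨Δ, W', c1, c2, c3, c4, c5⟩ := ih (by omega)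
      have : m * σ ≤ (2 * P + 2) * σ := Nat.mul_le_mul_right _ (by omega)
      obtain ⟨S, α, β, d, cS, hg⟩ := hG W' (by omega)
      have hα := hg.1
      have hβ := hg.2.1
      by_cases hδ : α + P - β ∈ Δ
      · exfalso
        obtain ⟨S', α', β', hg', e, sub, d'⟩ := c5 _ hδ
        obtain ⟨l₁, L₁, s₁, a₁⟩ := hg'.2.2.1
        obtain ⟨l₂, L₂, s₂, a₂⟩ := hg.2.2.2
        have hα' := hg'.1
        obtain ⟨l, j, j1, j2, L, dl, al⟩ := combine (W := W) hC L₁ L₂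
          (d.mono (s₁.trans sub) s₂) (d'.mono_right s₁) (d.mono c3 s₂) hP
          (le_trans (Nat.mul_le_mul_left _ (by omega)) h2)
        refine hcon ⟨l, α' + 2 + j + (β + 2), ?_, dl, by omega, by omega⟩
        rw [union_empty] at L
        refine L.mono ?_
        rintro t (rfl | rfl)
        · exact ⟨α' + 2, by simp, β + 2, by simp, rfl⟩
        · exact ⟨β' + 3, by simp, α + 3, by simp, by omega⟩
      · refine ⟨insert (α + P - β) Δ, W' ∪ S, by rw [card_insert_of_notMem hδ, c1],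
          insert_subset (mem_range.2 (by omega)) c2, c3.trans subset_union_left, ?_, ?_⟩
        · have := card_union_le W' S
          have e : (m + 1) * σ = m * σ + σ := by ring
          omega
        · intro δ hδ'
          rcases mem_insert.1 hδ' with rfl | hδ'
          · exact ⟨S, α, β, hg, by omega, subset_union_right, d.mono_left c3⟩
          · obtain ⟨S', α', β', hg', e, sub, d'⟩ := c5 _ hδ'
            exact ⟨S', α', β', hg', e, sub.trans subset_union_left, d'⟩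
  obtain ⟨Δ, -, c1, c2, -⟩ := key _ le_rfl
  have := card_le_card c2
  rw [card_range] at this
  omega

end Pool.Agent.P.MP_bb4f54_co
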