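import Pool.Agent.P.MP_bb4f54_co.Expander

set_option autoImplicit false
set_option linter.unusedSectionVars false

namespace Pool.Agent.P.MP_bb4f54_co

open Finset SimpleGraph

variable {V : Type*} [Fintype V] [DecidableEq V] {G : SimpleGraph V} [DecidableRel G.Adj]

lemma grow_double (b : ℕ → ℕ) (hb : Monotone b) {m s r₀ : ℕ} (hm : 0 < m) (h0 : s ≤ b r₀)
    (hstep : ∀ r, r₀ ≤ r → r < r₀ + m → b r < 2 * s → m * b r + s ≤ m * b (r + 1)) :
    2 * s ≤ b (r₀ + m) := by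
  by_contra hc
  push Not at hc
  have key : ∀ i, i ≤ m → m * s + i * s ≤ m * b (r₀ + i) := by
    intro i
    induction i with
    | zero => intro _; simpa using Nat.mul_le_mul_left m h0
    | succ i ih =>
      intro hi
      have h1 := ih (by omega)
      have h2 := hstep (r₀ + i) (by omega) (by omega)
        (lt_of_le_of_lt (hb (by omega)) hc)
      rw [← add_assoc]
      nlinarith
  have := key m le_rfl
  have : m * (2 * s) ≤ m * b (r₀ + m) := by nlinarith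
  have := Nat.le_of_mul_le_mul_left this hm
  omega

lemma grow_cube (b : ℕ → ℕ) (hb : Monotone b) {C j₁ j₂ : ℕ} (hC : 0 < C) (hj : j₁ ≤ j₂)
    (h0 : 2 ^ j₁ ≤ b (8 * C * j₁ ^ 3))
    (hstep : ∀ j r, j₁ ≤ j → j < j₂ → r < 8 * C * (j + 1) ^ 3 → 2 ^ j ≤ b r → b r < 2 ^ (j + 1) →
      2 * C * (j + 2) ^ 2 * b r + 2 ^ j ≤ 2 * C * (j + 2) ^ 2 * b (r + 1)) :
    2 ^ j₂ ≤ b (8 * C * j₂ ^ 3) := by
  induction j₂, hj using Nat.le_induction with
  | base => exact h0
  | succ j hj ih =>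
    have h1 := ih (fun j' r h1 h2 => hstep j' r h1 (by omega))
    have hle : 8 * C * j ^ 3 + 2 * C * (j + 2) ^ 2 ≤ 8 * C * (j + 1) ^ 3 := by
      have : 8 * C * (j + 1) ^ 3 = 8 * C * j ^ 3 + 2 * C * (j + 2) ^ 2
        + C * (22 * j ^ 2 + 16 * j) := by ring
      omega
    have h2 := grow_double b hb (m := 2 * C * (j + 2) ^ 2) (by positivity) h1 (by
      intro r hr1 hr2 hr3
      exact hstep j r hj (by omega) (by omega) (h1.trans (hb hr1)) (by rw [pow_succ]; omega))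
    rw [pow_succ]
    have := hb hle
    omega

lemma grow_third (b : ℕ → ℕ) {r₀ : ℕ} (i : ℕ)
    (h : ∀ r, r₀ ≤ r → r < r₀ + 3 * i → 4 * b r ≤ 3 * b (r + 1)) :
    2 ^ i * b r₀ ≤ b (r₀ + 3 * i) := by
  induction i with
  | zero => simp
  | succ i ih =>
    have h1 := ih (fun r h1 h2 => h r h1 (by omega))
    have a1 := h (r₀ + 3 * i) (by omega) (by omega)
    have a2 := h (r₀ + 3 * i + 1) (by omega) (by omega)
    have a3 := h (r₀ + 3 * i + 1 + 1) (by omega) (by omega)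
    have e : r₀ + 3 * (i + 1) = r₀ + 3 * i + 1 + 1 + 1 := by ring
    rw [e, pow_succ, mul_comm (2 ^ i) 2, mul_assoc]
    omega

lemma grow_step {U A S : Finset V} {r C j : ℕ}
    (h1 : (bl G U A r).card ≤
      C * (j + 2) ^ 2 * ((bl G U A (r + 1) \ bl G U A r) ∪ S).card)
    (h2 : 2 * C * (j + 2) ^ 2 * S.card ≤ 2 ^ j) (h3 : 2 ^ j ≤ (bl G U A r).card) :
    2 * C * (j + 2) ^ 2 * (bl G U A r).card + 2 ^ j ≤
      2 * C * (j + 2) ^ 2 * (bl G U A (r + 1)).card := by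
  have hsub : bl G U A r ⊆ bl G U A (r + 1) := bl_mono subset_rfl subset_rfl (by omega)
  have h4 := card_union_le (bl G U A (r + 1) \ bl G U A r) S
  have h5 := card_sdiff_add_card_eq_card hsub
  rw [← h5]
  set n := (bl G U A (r + 1) \ bl G U A r).card
  set b := (bl G U A r).card
  set M := C * (j + 2) ^ 2 with hM
  have e : 2 * C * (j + 2) ^ 2 = 2 * M := by rw [hM]; ring
  rw [e] at h2 ⊢
  have : b ≤ M * (n + S.card) := h1.trans (Nat.mul_le_mul_left _ h4)
  nlinarith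

/-- Uniform growth of a large set avoiding a small set. -/
lemma Good.half {X W A : Finset V} (hX : Good G X) {L : ℕ} (hL : X.card < 2 ^ (L + 1))
    (hA : A ⊆ X \ W) (hne : A.Nonempty) (hW : 576 * (L + 2) ^ 2 * W.card ≤ A.card) :
    X.card < 2 * (bl G (X \ W) A (1152 * (L + 1) ^ 3)).card := by
  by_contra hc
  push Not at hc
  have hpos := hne.card_pos
  have hAX : A.card ≤ X.card := card_le_card (hA.trans sdiff_subset)
  set j₁ := Nat.log 2 A.card with hj₁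
  have p1 : 2 ^ j₁ ≤ A.card := Nat.pow_log_le_self 2 (by omega)
  have p2 : A.card < 2 ^ (j₁ + 1) := Nat.lt_pow_succ_log_self (by norm_num) _
  have p3 : j₁ < L + 1 := (Nat.pow_lt_pow_iff_right (by norm_num : 1 < 2)).1 (by omega)
  have := grow_cube (fun r => (bl G (X \ W) A r).card) (card_bl_mono _ _) (C := 144) (j₁ := j₁)
    (j₂ := L + 1) (by norm_num) p3.le (p1.trans (card_le_card (subset_bl hA _))) (by
      intro j r h1 h2 h3 h4 h5
      apply grow_step (S := W) _ _ h4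
      · have hr : r ≤ 1152 * (L + 1) ^ 3 := by
          have : (j + 1) ^ 3 ≤ (L + 1) ^ 3 := Nat.pow_le_pow_left (by omega) 3
          omega
        have := card_bl_mono (G := G) (X \ W) A hr
        refine hX.v1 _ ((bl_subset _ _ _).trans sdiff_subset) (by simp only at this; omega) _ ?_ j h5
        intro y hy x hx hxY hadj
        by_cases hxW : x ∈ W
        · exact mem_union_right _ hxW
        · exact mem_union_left _ (mem_sdiff.2 ⟨mem_bl_succ hy hadj (mem_sdiff.2 ⟨hx, hxW⟩), hxY⟩)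
      · have a1 : (j + 2) ^ 2 ≤ (L + 2) ^ 2 := Nat.pow_le_pow_left (by omega) 2
        have a2 : 2 ^ j₁ ≤ 2 ^ j := Nat.pow_le_pow_right (by norm_num) h1
        have a3 : (j + 2) ^ 2 * W.card ≤ (L + 2) ^ 2 * W.card := Nat.mul_le_mul_right _ a1
        rw [pow_succ] at p2
        nlinarith)
  norm_num at this
  omega

lemma Good.connect {X W A₁ A₂ : Finset V} (hX : Good G X) {L : ℕ} (hL : X.card < 2 ^ (L + 1))
    (hA₁ : A₁ ⊆ X \ W) (hne₁ : A₁.Nonempty) (hW₁ : 576 * (L + 2) ^ 2 * W.card ≤ A₁.card)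
    (hA₂ : A₂ ⊆ X \ W) (hne₂ : A₂.Nonempty) (hW₂ : 576 * (L + 2) ^ 2 * W.card ≤ A₂.card) :
    ∃ a₁ ∈ A₁, ∃ a₂ ∈ A₂, Rch G (X \ W) (2304 * (L + 1) ^ 3) a₁ a₂ := by
  have h1 := hX.half hL hA₁ hne₁ hW₁
  have h2 := hX.half hL hA₂ hne₂ hW₂
  have hnd : ¬ Disjoint (bl G (X \ W) A₁ (1152 * (L + 1) ^ 3))
      (bl G (X \ W) A₂ (1152 * (L + 1) ^ 3)) := by
    intro hd
    have := card_le_card (union_subset ((bl_subset (G := G) _ A₁ (1152 * (L + 1) ^ 3)).trans
      (sdiff_subset (s := X) (t := W))) ((bl_subset (G := G) _ A₂ (1152 * (L + 1) ^ 3)).trans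
      (sdiff_subset (s := X) (t := W))))
    rw [card_union_of_disjoint hd] at this
    omega
  obtain ⟨z, hz1, hz2⟩ := not_disjoint_iff.1 hnd
  obtain ⟨a₁, ha₁, r₁⟩ := mem_bl.1 hz1
  obtain ⟨a₂, ha₂, r₂⟩ := mem_bl.1 hz2
  exact ⟨a₁, ha₁, a₂, ha₂, (r₁.symm.trans r₂).mono subset_rfl (by omega)⟩

/-- Growth of small balls, where the graph looks like a tree. -/
lemma Good.tree_step {X U S : Finset V} (hX : Good G X) {g : ℕ} (hg : Gir G g) (hU : U ⊆ X)
    {w c : V} (hw : w ∈ U) {r r' : ℕ} (hr : 2 * r' + 2 < g)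
    (hcov : ∀ v ∈ bl G U {w} r, ∀ x ∈ X, x ∉ U → G.Adj v x → x ∈ S) (hd : Disjoint U S)
    (hS : Con G S) (hc1 : bl G U {w} (r + 1) ⊆ bl G univ {c} r') (hc2 : S ⊆ bl G univ {c} r') :
    4 * (bl G U {w} r).card ≤ 3 * (bl G U {w} (r + 1)).card := by
  have hsub : bl G U {w} r ⊆ bl G U {w} (r + 1) := bl_mono subset_rfl subset_rfl (by omega)
  set B := bl G U {w} r with hB
  set B' := bl G U {w} (r + 1) with hB'
  have hBU : B ⊆ U := bl_subset _ _ _
  have hB'U : B' ⊆ U := bl_subset _ _ _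
  have hwB : w ∈ B' := mem_bl_one.2 (Rch.refl hw _)
  have h1 := hg.forest hr (B' ∪ S) (union_subset hc1 hc2) ⟨w, mem_union_left _ hwB⟩
  have hd' : Disjoint B' S := hd.mono_left hB'U
  rw [card_union_of_disjoint hd'] at h1
  have e : B' ∪ S = B ∪ ((B' \ B) ∪ S) := by rw [← union_assoc, union_sdiff_of_subset hsub]
  have hd2 : Disjoint B ((B' \ B) ∪ S) :=
    disjoint_union_right.2 ⟨disjoint_sdiff, hd.mono_left hBU⟩
  rw [e, E_union_self hd2] at h1
  have h2 : E G S S ≤ E G ((B' \ B) ∪ S) ((B' \ B) ∪ S) := E_mono subset_union_right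
  have h3 : E G B (X \ B) ≤ E G B ((B' \ B) ∪ S) := by
    apply E_le_of_sub
    intro y hy x hx hadj
    have hx' := mem_sdiff.1 hx
    by_cases hxU : x ∈ U
    · exact mem_union_left _ (mem_sdiff.2 ⟨mem_bl_succ hy hadj hxU, hx'.2⟩)
    · exact mem_union_right _ (hcov y hy x hx'.1 hxU hadj)
  have h4 := hX.v2 B (hBU.trans hU)
  unfold Con at hS
  omega

lemma Good.large {X : Finset V} (hX : Good G X) {g : ℕ} (hg : Gir G g) {i : ℕ}
    (hi : 6 * i + 2 < g) : 2 ^ i ≤ X.card := by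
  obtain ⟨w, hw⟩ := hX.ne
  have := grow_third (fun r => (bl G X {w} r).card) (r₀ := 0) i (by
    intro r _ hr
    exact hX.tree_step hg subset_rfl hw (S := ∅) (c := w) (r' := 3 * i) (by omega)
      (fun v _ x hx hx' => absurd hx hx') (disjoint_empty_right _) con_empty
      (bl_mono (subset_univ _) subset_rfl (by omega)) (empty_subset _))
  have h1 : 1 ≤ (bl G X {w} 0).card := card_pos.2 ⟨w, mem_bl_one.2 (Rch.refl hw _)⟩
  have h2 := card_le_card (bl_subset (G := G) X {w} (0 + 3 * i))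
  nlinarith [Nat.two_pow_pos i]

/-- `F` is a set containing `v` whose vertices reach `v` inside `F` in at most `r` steps. -/
def Xp (G : SimpleGraph V) (F : Finset V) (v : V) (r : ℕ) : Prop :=
  v ∈ F ∧ ∀ x ∈ F, Rch G F r x v

lemma Xp.mono {F : Finset V} {v : V} {r r' : ℕ} (h : Xp G F v r) (hr : r ≤ r') : Xp G F v r' :=
  ⟨h.1, fun x hx => (h.2 x hx).mono subset_rfl hr⟩

lemma xp_bl {U : Finset V} {v : V} (hv : v ∈ U) (r : ℕ) : Xp G (bl G U {v} r) v r :=
  ⟨mem_bl_one.2 (Rch.refl hv _), fun _ hx => (mem_bl_one.1 hx).in_bl⟩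

lemma Xp.insert {F : Finset V} {v u : V} {r : ℕ} (h : Xp G F v r) (hu : G.Adj v u) :
    Xp G (insert u F) u (r + 1) := by
  refine ⟨mem_insert_self _ _, fun x hx => ?_⟩
  rcases mem_insert.1 hx with rfl | hx
  · exact Rch.refl (mem_insert_self _ _) _
  · exact ((h.2 x hx).mono (subset_insert _ _) le_rfl).trans
      (Rch.adj hu (mem_insert_of_mem h.1) (mem_insert_self _ _))

lemma Xp.erase {F : Finset V} {v : V} {r : ℕ} (h : Xp G F v r) (h2 : 2 ≤ F.card) :
    ∃ x ∈ F, Xp G (F.erase x) v r := by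
  classical
  have hex : ∀ x ∈ F, ∃ k, Rch G F k x v := fun x hx => ⟨r, h.2 x hx⟩
  let d : V → ℕ := fun x => if hx : x ∈ F then Nat.find (hex x hx) else 0
  have hd1 : ∀ x ∈ F, Rch G F (d x) x v := by
    intro x hx; simp only [d, dif_pos hx]; exact Nat.find_spec (hex x hx)
  have hd2 : ∀ x ∈ F, ∀ k, Rch G F k x v → d x ≤ k := by
    intro x hx k hk; simp only [d, dif_pos hx]; exact Nat.find_min' _ hk
  have hne : (F.erase v).Nonempty := by
    rw [← card_pos, card_erase_of_mem h.1]; omega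
  obtain ⟨x, hx, hmax⟩ := exists_max_image _ d hne
  have hx' := mem_erase.1 hx
  refine ⟨x, hx'.2, mem_erase.2 ⟨hx'.1.symm, h.1⟩, fun y hy => ?_⟩
  have hy' := mem_erase.1 hy
  by_cases hyv : y = v
  · subst hyv; exact Rch.refl hy _
  obtain ⟨p, hp, hs⟩ := hd1 y hy'.2
  refine ⟨p, hp.trans (hd2 y hy'.2 r (h.2 y hy'.2)), fun z hz => mem_erase.2 ⟨?_, hs z hz⟩⟩
  rintro rfl
  have h1 := Walk.length_dropUntil_lt_length hz hy'.1.symm
  have h3 := hd2 z hx'.2 (p.dropUntil z hz).length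
    ⟨p.dropUntil z hz, le_rfl, fun t ht => hs t (p.support_dropUntil_subset_support hz ht)⟩
  have h4 := hmax y (mem_erase.2 ⟨hyv, hy'.2⟩)
  omega

lemma Xp.trim {F : Finset V} {v : V} {r D : ℕ} (h : Xp G F v r) (h1 : 1 ≤ D) (hD : D ≤ F.card) :
    ∃ F' ⊆ F, Xp G F' v r ∧ F'.card = D := by
  obtain ⟨k, hk⟩ := Nat.exists_eq_add_of_le hD
  induction k generalizing F with
  | zero => exact ⟨F, subset_rfl, h, hk⟩
  | succ k ih =>
    obtain ⟨x, hx, h'⟩ := h.erase (by omega)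
    have hc := card_erase_add_one hx
    obtain ⟨F', hF', h''⟩ := ih h' (by omega) (by omega)
    exact ⟨F', hF'.trans (erase_subset _ _), h''⟩

/-- A shortest walk between two sets. -/
lemma exists_shortest {U I T : Finset V} {k : ℕ} {w₀ y₀ : V} (hw₀ : w₀ ∈ I) (hy₀ : y₀ ∈ T)
    (h : Rch G U k w₀ y₀) :
    ∃ w ∈ I, ∃ y ∈ T, ∃ p : G.Walk w y, p.length ≤ k ∧ (∀ x ∈ p.support, x ∈ U) ∧
      (∀ x ∈ p.support, x ∈ I → x = w) ∧ (∀ x ∈ p.support, x ∈ T → x = y) ∧
      ∀ i, i ≤ p.length → ∀ w' ∈ I, ∀ r, Rch G U r w' (p.getVert i) → i ≤ r := by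
  classical
  have hex : ∃ k, ∃ w ∈ I, ∃ y ∈ T, Rch G U k w y := ⟨k, w₀, hw₀, y₀, hy₀, h⟩
  obtain ⟨w, hw, y, hy, p, hp, hs⟩ := Nat.find_spec hex
  have hmin : ∀ r, ∀ w ∈ I, ∀ y ∈ T, Rch G U r w y → p.length ≤ r :=
    fun r w hw y hy h => hp.trans (Nat.find_min' hex ⟨w, hw, y, hy, h⟩)
  refine ⟨w, hw, y, hy, p, hmin k w₀ hw₀ y₀ hy₀ h, hs, ?_, ?_, ?_⟩
  · intro x hx hxI
    by_contra hne
    have h1 := Walk.length_dropUntil_lt_length hx hne
    have := hmin _ x hxI y hy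
      ⟨p.dropUntil x hx, le_rfl, fun t ht => hs t (p.support_dropUntil_subset_support hx ht)⟩
    omega
  · intro x hx hxT
    by_contra hne
    have h1 := Walk.length_takeUntil_lt_length hx hne
    have := hmin _ w hw x hxT
      ⟨p.takeUntil x hx, le_rfl, fun t ht => hs t (p.support_takeUntil_subset_support hx ht)⟩
    omega
  · intro i hi w' hw' r hr
    have := hmin _ w' hw' y hy (hr.trans (rch_getVert_end p hs i))
    omega

end Pool.Agent.P.MP_bb4f54_co
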