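import Pool.Agent.P.MP_bb4f54_co.Growth

set_option autoImplicit false
set_option linter.unusedSectionVars false

namespace Pool.Agent.P.MP_bb4f54_co

open Finset SimpleGraph

variable {V : Type*} [Fintype V] [DecidableEq V] {G : SimpleGraph V} [DecidableRel G.Adj]

/-- Large sets can be joined by short walks avoiding small sets. -/
def Conn (G : SimpleGraph V) (X : Finset V) (B k : ℕ) : Prop :=
  ∀ W A₁ A₂ : Finset V, A₁ ⊆ X \ W → A₁.Nonempty → B * W.card ≤ A₁.card →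
    A₂ ⊆ X \ W → A₂.Nonempty → B * W.card ≤ A₂.card →
      ∃ a₁ ∈ A₁, ∃ a₂ ∈ A₂, Rch G (X \ W) k a₁ a₂

/-- Data of a link: two ends, their expansions, and the inner vertices. -/
structure LD (V : Type*) where
  a : V
  b : V
  Fa : Finset V
  Fb : Finset V
  A : Finset V

def LD.supp (l : LD V) : Finset V := l.Fa ∪ l.Fb ∪ l.A

def LD.swap (l : LD V) : LD V := ⟨l.b, l.a, l.Fb, l.Fa, l.A⟩

structure IsLink (G : SimpleGraph V) (X : Finset V) (D r : ℕ) (l : LD V) (M : Finset V)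
    (T : Set ℕ) : Prop where
  xa : Xp G l.Fa l.a r
  xb : Xp G l.Fb l.b r
  ca : l.Fa.card = D
  cb : l.Fb.card = D
  sa : l.Fa ⊆ X
  sb : l.Fb ⊆ X
  dab : Disjoint l.Fa l.Fb
  da : Disjoint l.Fa l.A
  db : Disjoint l.Fb l.A
  path : ∀ t ∈ T, ∃ p : G.Walk l.a l.b, p.IsPath ∧ p.length = t ∧
    (∀ x ∈ p.support, x = l.a ∨ x = l.b ∨ x ∈ l.A) ∧ ∀ x ∈ M, x ∈ p.support

variable {X : Finset V} {D r : ℕ}

lemma LD.supp_swap (l : LD V) : l.swap.supp = l.supp := by
  simp only [LD.supp, LD.swap, union_comm l.Fa l.Fb]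

lemma IsLink.card_supp {l : LD V} {M : Finset V} {T : Set ℕ} (h : IsLink G X D r l M T) :
    l.supp.card ≤ 2 * D + l.A.card := by
  have h1 := card_union_le (l.Fa ∪ l.Fb) l.A
  have h2 := card_union_le l.Fa l.Fb
  have := h.ca
  have := h.cb
  unfold LD.supp
  omega

lemma IsLink.swap {l : LD V} {M : Finset V} {T : Set ℕ} (h : IsLink G X D r l M T) :
    IsLink G X D r l.swap M T := by
  refine ⟨h.xb, h.xa, h.cb, h.ca, h.sb, h.sa, h.dab.symm, h.db, h.da, fun t ht => ?_⟩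
  obtain ⟨p, hp, hl, hs, hM⟩ := h.path t ht
  refine ⟨p.reverse, hp.reverse, (Walk.length_reverse p).trans hl, fun x hx => ?_, fun x hx => ?_⟩
  · have hx' : x ∈ p.reverse.support := hx
    have := hs x (by simpa using hx')
    simp only [LD.swap]; tauto
  · show x ∈ p.reverse.support
    simpa using hM x hx

lemma IsLink.mono {l : LD V} {M : Finset V} {T T' : Set ℕ} (h : IsLink G X D r l M T)
    (hT : T' ⊆ T) : IsLink G X D r l M T' :=
  ⟨h.xa, h.xb, h.ca, h.cb, h.sa, h.sb, h.dab, h.da, h.db, fun t ht => h.path t (hT ht)⟩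

lemma IsLink.trim {l : LD V} {M : Finset V} {T : Set ℕ} (h : IsLink G X D r l M T) {D' : ℕ}
    (h1 : 1 ≤ D') (hD : D' ≤ D) :
    ∃ l' : LD V, IsLink G X D' r l' M T ∧ l'.supp ⊆ l.supp ∧ l'.A = l.A := by
  obtain ⟨Fa, ha, xa, ca⟩ := h.xa.trim h1 (hD.trans h.ca.ge)
  obtain ⟨Fb, hb, xb, cb⟩ := h.xb.trim h1 (hD.trans h.cb.ge)
  refine ⟨⟨l.a, l.b, Fa, Fb, l.A⟩, ⟨xa, xb, ca, cb, ha.trans h.sa, hb.trans h.sb,
    h.dab.mono ha hb, h.da.mono_left ha, h.db.mono_left hb, h.path⟩, ?_, rfl⟩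
  exact union_subset_union (union_subset_union ha hb) subset_rfl

lemma isPath_append' {a b c : V} {p : G.Walk a b} {q : G.Walk b c} (hp : p.IsPath)
    (hq : q.IsPath) (h : ∀ x ∈ p.support, x ∈ q.support → x = b) : (p.append q).IsPath := by
  rw [Walk.isPath_def, Walk.support_append, List.nodup_append']
  refine ⟨hp.support_nodup, hq.support_nodup.tail, fun x hx hx' => ?_⟩
  have := h x hx (List.mem_of_mem_tail hx')
  subst this
  have h2 := hq.support_nodup
  rw [← Walk.cons_tail_support, List.nodup_cons] at h2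
  exact h2.1 hx'

lemma isCycle_append' {a b : V} {p : G.Walk a b} {q : G.Walk b a} (hp : p.IsPath)
    (hq : q.IsPath) (h : ∀ x ∈ p.support, x ∈ q.support → x = a ∨ x = b) (h2 : 2 ≤ p.length) :
    (p.append q).IsCycle := by
  refine hp.isCycle_append hq (fun x hx hx' => ?_) (Or.inl h2)
  rcases h x (List.mem_of_mem_tail hx) (List.mem_of_mem_tail hx') with rfl | rfl
  · have h2 := hp.support_nodup
    rw [← Walk.cons_tail_support, List.nodup_cons] at h2
    exact h2.1 hx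
  · have h2 := hq.support_nodup
    rw [← Walk.cons_tail_support, List.nodup_cons] at h2
    exact h2.1 hx'

lemma card_support_le {a b : V} (p : G.Walk a b) : p.support.toFinset.card ≤ p.length + 1 := by
  rw [← Walk.length_support]; exact List.toFinset_card_le _

/-- The set of lengths of a concatenation. -/
def cat (T₁ : Set ℕ) (k : ℕ) (T₂ : Set ℕ) : Set ℕ := {t | ∃ t₁ ∈ T₁, ∃ t₂ ∈ T₂, t = t₁ + k + t₂}

lemma cat_comm (T₁ : Set ℕ) (k : ℕ) (T₂ : Set ℕ) : cat T₁ k T₂ = cat T₂ k T₁ := by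
  ext t
  constructor <;> rintro ⟨a, ha, b, hb, rfl⟩ <;> exact ⟨b, hb, a, ha, by omega⟩

lemma combine_aux {l₁ l₂ : LD V} {M₁ M₂ W : Finset V} {T₁ T₂ : Set ℕ} {k P : ℕ}
    (h₁ : IsLink G X D r l₁ M₁ T₁) (h₂ : IsLink G X D r l₂ M₂ T₂)
    (hd : Disjoint l₁.supp l₂.supp) (hW₁ : Disjoint W l₁.supp) (hW₂ : Disjoint W l₂.supp)
    (hP : 2 * r + k ≤ P) {w y : V} (hw : w ∈ l₁.Fb) (hy : y ∈ l₂.Fa) (Q : G.Walk w y)
    (hQ : Q.length ≤ k) (hs : ∀ x ∈ Q.support, x ∈ X \ (W ∪ l₁.A ∪ l₂.A))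
    (hs₁ : ∀ x ∈ Q.support, x ∉ l₁.Fa) (hs₂ : ∀ x ∈ Q.support, x ∉ l₂.Fb) :
    ∃ (l : LD V) (j : ℕ), 1 ≤ j ∧ j ≤ P ∧ IsLink G X D r l (M₁ ∪ M₂) (cat T₁ j T₂) ∧
      Disjoint W l.supp ∧ l.A.card ≤ l₁.A.card + l₂.A.card + P + 1 := by
  set U := (X \ (W ∪ l₁.A ∪ l₂.A)) \ (l₁.Fa ∪ l₂.Fb) with hU
  simp only [LD.supp, disjoint_union_left, disjoint_union_right] at hd hW₁ hW₂
  obtain ⟨⟨⟨⟨d1, d2⟩, d3⟩, ⟨d4, d5⟩, d6⟩, ⟨d7, d8⟩, d9⟩ := hd
  simp only [Finset.disjoint_left] at d1 d2 d3 d4 d5 d6 d7 d8 d9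
  have e1 := Finset.disjoint_left.1 h₁.dab
  have e2 := Finset.disjoint_left.1 h₁.da
  have e3 := Finset.disjoint_left.1 h₁.db
  have e4 := Finset.disjoint_left.1 h₂.dab
  have e5 := Finset.disjoint_left.1 h₂.da
  have e6 := Finset.disjoint_left.1 h₂.db
  have w1 := Finset.disjoint_left.1 hW₁.1.1
  have w2 := Finset.disjoint_left.1 hW₁.1.2
  have w3 := Finset.disjoint_left.1 hW₁.2
  have w4 := Finset.disjoint_left.1 hW₂.1.1
  have w5 := Finset.disjoint_left.1 hW₂.1.2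
  have w6 := Finset.disjoint_left.1 hW₂.2
  have s1 := h₁.sb
  have s2 := h₂.sa
  have hb : l₁.Fb ⊆ U := by
    intro x hx
    simp only [hU, mem_sdiff, mem_union]
    grind
  have hc : l₂.Fa ⊆ U := by
    intro x hx
    simp only [hU, mem_sdiff, mem_union]
    grind
  have hQU : Rch G U k w y := ⟨Q, hQ, fun x hx => mem_sdiff.2 ⟨hs x hx, by
    rw [mem_union]; exact fun h => h.elim (hs₁ x hx) (hs₂ x hx)⟩⟩
  obtain ⟨π, hπ, hl, hπs⟩ := ((((h₁.xb.2 w hw).mono hb le_rfl).symm.trans hQU).trans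
    ((h₂.xa.2 y hy).mono hc le_rfl)).path
  have hπ' : ∀ x ∈ π.support, x ∈ X ∧ x ∉ W ∧ x ∉ l₁.A ∧ x ∉ l₂.A ∧ x ∉ l₁.Fa ∧ x ∉ l₂.Fb := by
    intro x hx
    have := hπs x hx
    simp only [hU, mem_sdiff, mem_union] at this
    tauto
  have a1 := h₁.xa.1
  have b1 := h₁.xb.1
  have a2 := h₂.xa.1
  have b2 := h₂.xb.1
  refine ⟨⟨l₁.a, l₂.b, l₁.Fa, l₂.Fb, l₁.A ∪ l₂.A ∪ π.support.toFinset⟩, π.length, ?_, by omega,
    ⟨h₁.xa, h₂.xb, h₁.ca, h₂.cb, h₁.sa, h₂.sb, ?_, ?_, ?_, ?_⟩, ?_, ?_⟩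
  · by_contra h0
    have := Walk.eq_of_length_eq_zero (p := π) (by omega)
    exact d2 b1 (this ▸ a2)
  · exact Finset.disjoint_left.2 d4
  · simp only [Finset.disjoint_left, mem_union, List.mem_toFinset]; grind
  · simp only [Finset.disjoint_left, mem_union, List.mem_toFinset]; grind
  · rintro t ⟨t₁, ht₁, t₂, ht₂, rfl⟩
    obtain ⟨p, hp, hpl, hps, hpM⟩ := h₁.path t₁ ht₁
    obtain ⟨q, hq, hql, hqs, hqM⟩ := h₂.path t₂ ht₂
    refine ⟨(p.append π).append q, isPath_append' (isPath_append' hp hπ ?_) hq ?_,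
      by simp [hpl, hql], ?_, ?_⟩
    · intro x hx hx'
      have := hps x hx
      have := hπ' x hx'
      grind
    · intro x hx hx'
      rw [Walk.mem_support_append_iff] at hx
      have := hqs x hx'
      rcases hx with hx | hx
      · have := hps x hx
        grind
      · have := hπ' x hx
        grind
    · intro x hx
      simp only [Walk.mem_support_append_iff] at hx
      simp only [mem_union, List.mem_toFinset]
      have := π.start_mem_support
      have := π.end_mem_support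
      rcases hx with (hx | hx) | hx
      · have := hps x hx
        grind
      · grind
      · have := hqs x hx
        grind
    · intro x hx
      simp only [Walk.mem_support_append_iff]
      rcases mem_union.1 hx with hx | hx
      · exact Or.inl (Or.inl (hpM x hx))
      · exact Or.inr (hqM x hx)
  · simp only [LD.supp, Finset.disjoint_left, mem_union, List.mem_toFinset]; grind
  · have c1 := card_union_le (l₁.A ∪ l₂.A) π.support.toFinset
    have c2 := card_union_le l₁.A l₂.A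
    have c3 := card_support_le π
    simp only
    omega

lemma combine {l₁ l₂ : LD V} {M₁ M₂ W : Finset V} {T₁ T₂ : Set ℕ} {B k P : ℕ}
    (hC : Conn G X B k)
    (h₁ : IsLink G X D r l₁ M₁ T₁) (h₂ : IsLink G X D r l₂ M₂ T₂)
    (hd : Disjoint l₁.supp l₂.supp) (hW₁ : Disjoint W l₁.supp) (hW₂ : Disjoint W l₂.supp)
    (hP : 2 * r + k ≤ P) (hB : B * (W.card + l₁.A.card + l₂.A.card) ≤ D) :
    ∃ (l : LD V) (j : ℕ), 1 ≤ j ∧ j ≤ P ∧ IsLink G X D r l (M₁ ∪ M₂) (cat T₁ j T₂) ∧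
      Disjoint W l.supp ∧ l.A.card ≤ l₁.A.card + l₂.A.card + P + 1 := by
  have hB' : B * (W ∪ l₁.A ∪ l₂.A).card ≤ D := by
    refine le_trans (Nat.mul_le_mul_left _ ?_) hB
    have c1 := card_union_le (W ∪ l₁.A) l₂.A
    have c2 := card_union_le W l₁.A
    omega
  have hd' := hd
  have hW₁' := hW₁
  have hW₂' := hW₂
  simp only [LD.supp, Finset.disjoint_left, mem_union] at hd' hW₁' hW₂'
  have e2 := Finset.disjoint_left.1 h₁.da
  have e5 := Finset.disjoint_left.1 h₂.da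
  have e1 := Finset.disjoint_left.1 h₁.dab
  have e4 := Finset.disjoint_left.1 h₂.dab
  have s1 := h₁.sa
  have s2 := h₂.sa
  obtain ⟨w₀, hw₀, y₀, hy₀, hr⟩ := hC (W ∪ l₁.A ∪ l₂.A) l₁.Fa l₂.Fa
    (by intro x hx; simp only [mem_sdiff, mem_union]; grind) ⟨_, h₁.xa.1⟩ (h₁.ca ▸ hB')
    (by intro x hx; simp only [mem_sdiff, mem_union]; grind) ⟨_, h₂.xa.1⟩ (h₂.ca ▸ hB')
  obtain ⟨w, hw, y, hy, Q, hQ, hs, hs₁, hs₂, -⟩ := exists_shortest (I := l₁.Fa ∪ l₁.Fb)
    (T := l₂.Fa ∪ l₂.Fb) (mem_union_left _ hw₀) (mem_union_left _ hy₀) hr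
  simp only [mem_union] at hs₁ hs₂
  rcases mem_union.1 hw with hw | hw <;> rcases mem_union.1 hy with hy | hy
  · exact combine_aux (l₁ := l₁.swap) h₁.swap h₂ (by rwa [LD.supp_swap]) (by rwa [LD.supp_swap])
      hW₂ hP hw hy Q hQ hs (by simp only [LD.swap]; grind) (by grind)
  · exact combine_aux (l₁ := l₁.swap) (l₂ := l₂.swap) h₁.swap h₂.swap
      (by rwa [LD.supp_swap, LD.supp_swap]) (by rwa [LD.supp_swap])
      (by rwa [LD.supp_swap]) hP hw hy Q hQ hs
      (by simp only [LD.swap]; grind) (by simp only [LD.swap]; grind)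
  · exact combine_aux h₁ h₂ hd hW₁ hW₂ hP hw hy Q hQ hs (by grind) (by grind)
  · exact combine_aux (l₂ := l₂.swap) h₁ h₂.swap (by rwa [LD.supp_swap]) hW₁
      (by rwa [LD.supp_swap]) hP hw hy Q hQ hs (by grind) (by simp only [LD.swap]; grind)

/-- Joining the centres of two expansions. -/
lemma Conn.join {B k P : ℕ} (hC : Conn G X B k) {W F₁ F₂ : Finset V} {a b : V}
    (x₁ : Xp G F₁ a r) (x₂ : Xp G F₂ b r) (s₁ : F₁ ⊆ X \ W) (s₂ : F₂ ⊆ X \ W)
    (c₁ : B * W.card ≤ F₁.card) (c₂ : B * W.card ≤ F₂.card) (hP : 2 * r + k ≤ P) :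
    ∃ p : G.Walk a b, p.IsPath ∧ p.length ≤ P ∧ ∀ x ∈ p.support, x ∈ X \ W := by
  obtain ⟨w, hw, y, hy, hr⟩ := hC W F₁ F₂ s₁ ⟨_, x₁.1⟩ c₁ s₂ ⟨_, x₂.1⟩ c₂
  obtain ⟨π, hπ, hl, hπs⟩ := ((((x₁.2 w hw).mono s₁ le_rfl).symm.trans hr).trans
    ((x₂.2 y hy).mono s₂ le_rfl)).path
  exact ⟨π, hπ, by omega, hπs⟩

lemma close {l : LD V} {M W : Finset V} {T : Set ℕ} {B k P : ℕ} (hC : Conn G X B k)
    (h : IsLink G X D r l M T) (hW : Disjoint W l.supp)
    (hP : 2 * r + k ≤ P) (hB : B * (W.card + l.A.card) ≤ D) :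
    ∃ j : ℕ, j ≤ P ∧ ∀ t ∈ T, 2 ≤ t → ∃ (v : V) (c : G.Walk v v), c.IsCycle ∧ c.length = t + j ∧
      (∀ x ∈ c.support, x ∉ W) ∧ ∀ x ∈ M, x ∈ c.support := by
  have hB' : B * (W ∪ l.A).card ≤ D :=
    le_trans (Nat.mul_le_mul_left _ (card_union_le _ _)) hB
  simp only [LD.supp, Finset.disjoint_left, mem_union] at hW
  have e2 := Finset.disjoint_left.1 h.da
  have e3 := Finset.disjoint_left.1 h.db
  have s1 := h.sa
  have s2 := h.sb
  obtain ⟨π, hπ, hl, hπs⟩ := hC.join (W := W ∪ l.A) h.xb h.xa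
    (by intro x hx; simp only [mem_sdiff, mem_union]; grind)
    (by intro x hx; simp only [mem_sdiff, mem_union]; grind) (h.cb ▸ hB') (h.ca ▸ hB') hP
  simp only [mem_sdiff, mem_union] at hπs
  refine ⟨π.length, hl, fun t ht h2 => ?_⟩
  obtain ⟨p, hp, hpl, hps, hpM⟩ := h.path t ht
  refine ⟨l.a, p.append π, isCycle_append' hp hπ ?_ (hpl ▸ h2), by simp [hpl], ?_, ?_⟩
  · intro x hx hx'
    have := hps x hx
    have := hπs x hx'
    grind
  · intro x hx
    have a1 := h.xa.1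
    have b1 := h.xb.1
    rcases (Walk.mem_support_append_iff _ _).1 hx with hx | hx
    · have := hps x hx
      grind
    · have := hπs x hx
      grind
  · intro x hx
    exact (Walk.mem_support_append_iff _ _).2 (Or.inl (hpM x hx))

/-- A cycle through two vertices with spare expansions gives a link. -/
lemma link_of_cycle {v x y : V} {c : G.Walk v v} (hc : c.IsCycle) (hx : x ∈ c.support)
    (hy : y ∈ c.support) {F₁ F₂ : Finset V} (x₁ : Xp G F₁ x r) (x₂ : Xp G F₂ y r)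
    (c₁ : F₁.card = D) (c₂ : F₂.card = D) (s₁ : F₁ ⊆ X) (s₂ : F₂ ⊆ X) (hd : Disjoint F₁ F₂)
    (hc₁ : ∀ z ∈ c.support, z ∉ F₁.erase x ∪ F₂.erase y) :
    ∃ (l : LD V) (s d : ℕ), IsLink G X D r l ∅ {s, s + d} ∧ 2 * s + d = c.length ∧
      l.A.card ≤ c.length + 1 := by
  have hxy : x ≠ y := by
    rintro rfl; exact Finset.disjoint_left.1 hd x₁.1 x₂.1
  set c' := c.rotate x hx with hc'
  have hc'c : c'.IsCycle := hc.rotate hx
  have hy' : y ∈ c'.support := (Walk.mem_support_rotate_iff _ _ _).2 hy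
  have hspec := Walk.take_spec c' hy'
  have p1 : (c'.takeUntil y hy').IsPath := hc'c.isPath_takeUntil hy'
  have p2 : (c'.dropUntil y hy').IsPath :=
    Walk.IsCycle.isPath_of_append_right (p := c'.takeUntil y hy') (Walk.not_nil_of_ne hxy)
      (hspec.symm ▸ hc'c)
  have hlen : (c'.takeUntil y hy').length + (c'.dropUntil y hy').length = c.length := by
    rw [← Walk.length_append, hspec, hc', Walk.length_rotate]
  have e1 := Finset.disjoint_left.1 hd
  have a1 := x₁.1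
  have a2 := x₂.1
  simp only [mem_union, mem_erase] at hc₁
  have key : IsLink G X D r ⟨x, y, F₁, F₂, (c.support.toFinset.erase x).erase y⟩ ∅
      {(c'.takeUntil y hy').length, (c'.dropUntil y hy').length} := by
    refine ⟨x₁, x₂, c₁, c₂, s₁, s₂, hd, ?_, ?_, ?_⟩
    · simp only [Finset.disjoint_left, mem_erase, List.mem_toFinset]; grind
    · simp only [Finset.disjoint_left, mem_erase, List.mem_toFinset]; grind
    · rintro t (rfl | rfl)
      · refine ⟨_, p1, rfl, fun z hz => ?_, by simp⟩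
        have := (Walk.mem_support_rotate_iff _ _ _).1 (c'.support_takeUntil_subset_support hy' hz)
        simp only [mem_erase, List.mem_toFinset]; grind
      · refine ⟨_, p2.reverse, by simp, fun z hz => ?_, by simp⟩
        have := (Walk.mem_support_rotate_iff _ _ _).1
          (c'.support_dropUntil_subset_support hy' (by simpa using hz))
        simp only [mem_erase, List.mem_toFinset]; grind
  have hA : ((c.support.toFinset.erase x).erase y).card ≤ c.length + 1 :=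
    (card_erase_le.trans card_erase_le).trans (card_support_le c)
  rcases le_total (c'.takeUntil y hy').length (c'.dropUntil y hy').length with h | h
  · obtain ⟨d, hd⟩ := Nat.exists_eq_add_of_le h
    exact ⟨_, _, d, hd ▸ key, by omega, hA⟩
  · obtain ⟨d, hd⟩ := Nat.exists_eq_add_of_le h
    refine ⟨_, (c'.dropUntil y hy').length, d, key.mono ?_, by omega, hA⟩
    rw [← hd]
    rintro t (rfl | rfl) <;> simp

end Pool.Agent.P.MP_bb4f54_co
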