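import Pool.Agent.P.MP_bb4f54_co.Assemble

set_option autoImplicit false
set_option linter.unusedSectionVars false

namespace Pool.Agent.P.MP_bb4f54_co

open Finset SimpleGraph Filter

lemma ev_pow (c k : ℕ) : ∃ i₀ : ℕ, ∀ i, i₀ ≤ i → c * (i + 1) ^ k ≤ 2 ^ i := by
  have h := tendsto_pow_const_div_const_pow_of_one_lt k (show (1 : ℝ) < 2 by norm_num)
  have h2 := h.eventually (gt_mem_nhds (show (0 : ℝ) < 1 / (2 * c + 1) by positivity))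
  obtain ⟨i₀, hi⟩ := eventually_atTop.1 h2
  refine ⟨i₀, fun i h => ?_⟩
  have := hi (i + 1) (by omega)
  rw [div_lt_div_iff₀ (by positivity) (by positivity)] at this
  have h3 : ((c : ℝ)) * ((i : ℝ) + 1) ^ k ≤ 2 ^ i := by
    push_cast at this
    rw [pow_succ] at this
    have : (0 : ℝ) ≤ ((i : ℝ) + 1) ^ k := by positivity
    nlinarith
  exact_mod_cast h3

lemma num_aux {M i L : ℕ} (hM : M = 8 * Cc * 720 ^ 3 + 1) (p1 : 2 ^ i ≤ L + 2)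
    (p2 : L + 2 < 2 ^ (i + 1)) (k₁ : M * (i + 1) ^ 3 ≤ 2 ^ i)
    (k₂ : 288 * 1422 ^ 2 * (i + 1) ^ 2 ≤ 2 ^ i) (k₃ : 21760 * (i / 2 + 1) ^ 1 ≤ 2 ^ (i / 2))
    (k₄ : 2 * (2150 + 740 * (2 * M + 2)) * (i + 1) ^ 4 ≤ 2 ^ i) :
    576 * (L + 2) ^ 2 ≤ 2 ^ (3 * i + 20) ∧
    16 * (6 * rho (3 * i + 20) + 3 * (2304 * (L + 1) ^ 3) + 6) ≤ 2 ^ (3 * i + 20) ∧
    288 * (71 * (3 * i + 20) + 2) ^ 2 ≤ 2 ^ (3 * i + 20) ∧
    34 * (3 * i + 20) * 2 ^ ((3 * i + 20) / 8) + 107 * (3 * i + 20) +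
      37 * (3 * i + 20) * (2 * rho (3 * i + 20) + 2) + 8 ≤ L := by
  have q1 : (L + 2) ^ 3 ≤ 2 ^ (3 * i + 3) := by
    rw [show 3 * i + 3 = (i + 1) * 3 by ring, pow_mul]
    exact Nat.pow_le_pow_left p2.le 3
  have q2 : 2 ^ (3 * i + 20) = 131072 * 2 ^ (3 * i + 3) := by ring
  have b : 1 ≤ (i + 1) ^ 3 := Nat.one_le_pow _ _ (Nat.succ_pos _)
  have q3 : rho (3 * i + 20) ≤ M * (i + 1) ^ 3 := by
    unfold rho
    have a : (36 * (3 * i + 20)) ^ 3 ≤ (720 * (i + 1)) ^ 3 :=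
      Nat.pow_le_pow_left (by clear * -; omega) 3
    have c := Nat.mul_le_mul_left (8 * Cc) a
    rw [mul_pow 720, ← mul_assoc] at c
    rw [hM, add_mul, one_mul]
    exact Nat.add_le_add c b
  clear hM
  have q5 : L + 2 ≤ (L + 2) ^ 3 := Nat.le_self_pow (by norm_num) _
  have q6 : (L + 2) ^ 2 ≤ (L + 2) ^ 3 := Nat.pow_le_pow_right (Nat.succ_pos _) (by norm_num)
  have q7 : (L + 1) ^ 3 ≤ (L + 2) ^ 3 := Nat.pow_le_pow_left (Nat.le_succ _) 3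
  refine ⟨by linarith, by linarith, ?_, ?_⟩
  · have b : (71 * (3 * i + 20) + 2) ^ 2 ≤ (1422 * (i + 1)) ^ 2 :=
      Nat.pow_le_pow_left (by clear * -; omega) 2
    have c : 2 ^ i ≤ 2 ^ (3 * i + 20) := Nat.pow_le_pow_right (by norm_num) (by clear * -; omega)
    rw [mul_pow] at b
    linarith
  · have c : 2 ^ ((3 * i + 20) / 8) ≤ 8 * 2 ^ (i / 2) := by
      rw [show 8 * 2 ^ (i / 2) = 2 ^ (i / 2 + 3) by ring]
      exact Nat.pow_le_pow_right (by norm_num) (by clear * -; omega)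
    have d : 2 ^ (i / 2) * 2 ^ (i / 2) ≤ 2 ^ i := by
      rw [← pow_add]; exact Nat.pow_le_pow_right (by norm_num) (by clear * -; omega)
    have e : 2 * (34 * (3 * i + 20) * 2 ^ ((3 * i + 20) / 8)) ≤ 2 ^ i := by
      have : 544 * (3 * i + 20) ≤ 21760 * (i / 2 + 1) ^ 1 := by
        rw [pow_one]; clear * -; omega
      calc _ ≤ 2 * (34 * (3 * i + 20) * (8 * 2 ^ (i / 2))) :=
            Nat.mul_le_mul_left _ (Nat.mul_le_mul_left _ c)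
        _ = (544 * (3 * i + 20)) * 2 ^ (i / 2) := by ring
        _ ≤ 2 ^ (i / 2) * 2 ^ (i / 2) := Nat.mul_le_mul_right _ (this.trans k₃)
        _ ≤ _ := d
    have f : 37 * (3 * i + 20) * (2 * rho (3 * i + 20) + 2) ≤
        740 * (2 * M + 2) * (i + 1) ^ 4 := by
      calc _ ≤ (740 * (i + 1)) * ((2 * M + 2) * (i + 1) ^ 3) := by
            apply Nat.mul_le_mul (by clear * -; omega)
            rw [add_mul, mul_assoc]
            linarith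
        _ = _ := by ring
    have h : i + 1 ≤ (i + 1) ^ 4 := Nat.le_self_pow (by norm_num) _
    rw [mul_assoc, add_mul] at k₄
    linarith

lemma exists_num : ∃ j₀ L₀ : ℕ, ∀ g L, 4 * (8 * Cc * j₀ ^ 3 + 16) + 4 < g → L₀ ≤ L →
    ∃ β, Num g j₀ β L := by
  obtain ⟨M, hM⟩ : ∃ M, M = 8 * Cc * 720 ^ 3 + 1 := ⟨_, rfl⟩
  obtain ⟨j₁, h₁⟩ := ev_pow 2304 2
  obtain ⟨j₂, h₂⟩ := ev_pow (40 * Cc * (8 * Cc + 2)) 5
  obtain ⟨i₁, k₁⟩ := ev_pow M 3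
  obtain ⟨i₂, k₂⟩ := ev_pow (288 * 1422 ^ 2) 2
  obtain ⟨i₃, k₃⟩ := ev_pow 21760 1
  obtain ⟨i₄, k₄⟩ := ev_pow (2 * (2150 + 740 * (2 * M + 2))) 4
  refine ⟨j₁ + j₂, 2 ^ (j₁ + j₂ + i₁ + i₂ + 2 * i₃ + i₄), fun g L hg hL => ?_⟩
  obtain ⟨i, hi⟩ : ∃ i, i = Nat.log 2 (L + 2) := ⟨_, rfl⟩
  have p1 : 2 ^ i ≤ L + 2 := hi ▸ Nat.pow_log_le_self 2 (Nat.succ_ne_zero _)
  have p2 : L + 2 < 2 ^ (i + 1) := hi ▸ Nat.lt_pow_succ_log_self (by norm_num) _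
  have p3 : j₁ + j₂ + i₁ + i₂ + 2 * i₃ + i₄ < i + 1 :=
    (Nat.pow_lt_pow_iff_right (by norm_num : 1 < 2)).1 (by linarith)
  obtain ⟨b1, b2, b3, b5⟩ := num_aux hM p1 p2 (k₁ i (by clear * - p3; omega))
    (k₂ i (by clear * - p3; omega)) (k₃ (i / 2) (by clear * - p3; omega))
    (k₄ i (by clear * - p3; omega))
  refine ⟨3 * i + 20, fun j hj => ?_, fun j hj => ?_, hg, b1, b2, b3, by clear * - p3; omega, b5⟩
  · have := h₁ j (by clear * - hj; omega)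
    calc _ = 2304 * (j + 1) ^ 2 := by ring
      _ ≤ _ := this
  · refine le_trans ?_ (h₂ j (by clear * - hj; omega))
    have a : (j + 2) ^ 2 ≤ 4 * (j + 1) ^ 2 := by clear * -; nlinarith [Nat.zero_le j]
    have b : 1 ≤ (j + 1) ^ 3 := Nat.one_le_pow _ _ (Nat.succ_pos _)
    calc _ ≤ 2 * Cc * (4 * (j + 1) ^ 2) * (5 * ((8 * Cc + 2) * (j + 1) ^ 3)) := by
          apply Nat.mul_le_mul (Nat.mul_le_mul_left _ a)
          rw [add_mul (8 * Cc)]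
          linarith
      _ = _ := by ring

universe u

theorem main : ∃ g : ℕ, ∀ (V : Type u) [Fintype V] [DecidableEq V] (G : SimpleGraph V)
    [DecidableRel G.Adj], 3 ≤ G.minDegree → (g : ℕ∞) ≤ G.egirth →
      ∃ k : ℕ, 2 ≤ k ∧ ∀ t : ℕ, Even t → 2 ^ k ≤ t → t ≤ 4 ^ k →
        ∃ (v : V) (c : G.Walk v v), c.IsCycle ∧ c.length = t := by
  obtain ⟨j₀, L₀, h⟩ := exists_num
  refine ⟨4 * (8 * Cc * j₀ ^ 3 + 16) + 5 + 6 * L₀, fun V _ _ G _ hδ hg => ?_⟩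
  have hg' : Gir G (4 * (8 * Cc * j₀ ^ 3 + 16) + 5 + 6 * L₀) := fun a w hw => by
    exact_mod_cast le_egirth.1 hg a w hw
  have hV : Nonempty V := by
    by_contra hV
    rw [not_nonempty_iff] at hV
    simp [minDegree] at hδ
  obtain ⟨X, hX⟩ := exists_good (G := G) fun v => hδ.trans (G.minDegree_le_degree v)
  have h1 := hX.large hg' (i := L₀) (by omega)
  have hpos := hX.ne.card_pos
  set L := Nat.log 2 X.card with hL
  have p1 : 2 ^ L ≤ X.card := Nat.pow_log_le_self 2 (by omega)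
  have p2 : X.card < 2 ^ (L + 1) := Nat.lt_pow_succ_log_self (by norm_num) _
  have p3 : L₀ < L + 1 := (Nat.pow_lt_pow_iff_right (by norm_num : 1 < 2)).1 (by omega)
  obtain ⟨β, hN⟩ := h (4 * (8 * Cc * j₀ ^ 3 + 16) + 5 + 6 * L₀) L (by omega) (by omega)
  have hβ := hN.four_le
  have b2 := hN.b2
  rcases (hX.ho hg' hN p1 p2).window (P := 6 * rho β + 3 * (2304 * (L + 1) ^ 3) + 6)
    (hX.conn p2 hN.b1) (by omega) b2 with h | h
  · refine ⟨β * 3, by omega, fun t he h1 h2 => h t he (by rwa [← pow_mul]) ?_⟩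
    rwa [← pow_mul, show β * 6 = 2 * (β * 3) by ring, pow_mul]
  · refine ⟨β * 8, by omega, fun t he h1 h2 => h t he (by rwa [← pow_mul]) ?_⟩
    rwa [← pow_mul, show β * 16 = 2 * (β * 8) by ring, pow_mul]

end Pool.Agent.P.MP_bb4f54_co
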