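import Pool.Agent.P.MP_bb4f54_co.Count

set_option autoImplicit false
set_option linter.unusedSectionVars false

namespace Pool.Agent.P.MP_bb4f54_co

open Finset SimpleGraph

variable {V : Type*} [Fintype V] [DecidableEq V] {G : SimpleGraph V} [DecidableRel G.Adj]

/-- The radius up to which contact is controlled. -/
def rho (β : ℕ) : ℕ := 8 * Cc * (36 * β) ^ 3 + 1

/-- The numerical conditions on the parameters. -/
structure Num (g j₀ β L : ℕ) : Prop where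
  a1 : ∀ j, j₀ ≤ j → 576 * (j + j + 2) ^ 2 ≤ 2 ^ j
  a2 : ∀ j, j₀ ≤ j → 2 * Cc * (j + 2) ^ 2 * (5 * (8 * Cc * (j + 1) ^ 3 + 2)) ≤ 2 ^ j
  a3 : 4 * (8 * Cc * j₀ ^ 3 + 16) + 4 < g
  b1 : 576 * (L + 2) ^ 2 ≤ 2 ^ β
  b2 : 16 * (6 * rho β + 3 * (2304 * (L + 1) ^ 3) + 6) ≤ 2 ^ β
  b3 : 288 * (71 * β + 2) ^ 2 ≤ 2 ^ β
  b4 : j₀ ≤ 36 * β
  b5 : 34 * β * 2 ^ (β / 8) + 107 * β + 37 * β * (2 * rho β + 2) + 8 ≤ L

lemma Num.four_le {g j₀ β L : ℕ} (h : Num g j₀ β L) : 4 ≤ β := by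
  have := h.b2
  by_contra hc
  have : 2 ^ β ≤ 2 ^ 3 := Nat.pow_le_pow_right (by norm_num) (by omega)
  omega

lemma exists_two {S : Finset V} {x : V} (h : 3 ≤ S.card) :
    ∃ a ∈ S, ∃ b ∈ S, a ≠ b ∧ a ≠ x ∧ b ≠ x := by
  have : 1 < (S.erase x).card := by
    have := pred_card_le_card_erase (s := S) (a := x)
    omega
  obtain ⟨a, ha, b, hb, hne⟩ := one_lt_card.1 this
  rw [mem_erase] at ha hb
  exact ⟨a, ha.2, b, hb.2, hne, ha.1, hb.1⟩

lemma Gir.no_triangle {g : ℕ} (hg : Gir G g) (h3 : 3 < g) {a b c : V} (h₁ : G.Adj a b)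
    (h₂ : G.Adj a c) (h : G.Adj c b) : False := by
  have := hg.two_paths (p := Walk.cons h₁ Walk.nil) (q := Walk.cons h₂ (Walk.cons h Walk.nil))
    (by simpa using h₁.ne) (by simp [h₁.ne, h₂.ne, h.ne]) (by
      intro e
      have := congrArg Walk.length e
      simp at this)
  simp at this
  omega

lemma Good.setup {X W : Finset V} (hX : Good G X) {g j₀ β L : ℕ} (hg : Gir G g)
    (hN : Num g j₀ β L) (hL : 2 ^ L ≤ X.card) (hW : W.card < 2 ^ (34 * β)) :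
    ∃ X₁ ⊆ X \ W, X.card ≤ 2 * X₁.card ∧
      (∀ w ∈ X₁, ∀ (c : V) (K Q : Finset V), Rch G univ 2 w c → w ∉ Q → Q.card ≤ 2 ^ (33 * β) →
        CH G (X \ W) Q K w c (rho β) 5 → 2 ^ (36 * β) ≤ (bl G ((X \ W) \ Q) {w} (rho β)).card) ∧
      ∃ u ∈ X₁, ∃ u' ∈ X₁, ∃ a₁ ∈ X₁, ∃ a₂ ∈ X₁, ∃ b₁ ∈ X₁, ∃ b₂ ∈ X₁, G.Adj u u' ∧ G.Adj a₁ u ∧
        G.Adj a₂ u ∧ G.Adj b₁ u' ∧ G.Adj b₂ u' ∧ a₁ ≠ a₂ ∧ b₁ ≠ b₂ ∧ a₁ ≠ u' ∧ a₂ ≠ u' ∧
        b₁ ≠ u ∧ b₂ ≠ u := by
  have hβ := hN.four_le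
  have b5 := hN.b5
  set r₂ := 8 * Cc * j₀ ^ 3 with hr₂
  set ρ₀ := 8 * Cc * (36 * β) ^ 3 with hρ₀
  have hρ : rho β = ρ₀ + 1 := rfl
  have hr : r₂ ≤ ρ₀ := Nat.mul_le_mul_left _ (Nat.pow_le_pow_left hN.b4 3)
  set μ := 34 * β * 2 ^ (β / 8) + 35 * β with hμ
  set A := Sb G (X \ W) W (2 * (r₂ + 16)) with hA
  set D := 2 ^ (37 * β) with hD
  obtain ⟨Z, hZ, hZ'⟩ := hX.trap (W := W) (A := A) (β := β) (μ := μ) (j₀ := j₀)
    dg_le_one_of_not_Sb hW hN.a1 (le_trans (Nat.pow_le_pow_right (by norm_num) (by omega)) hL)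
    hN.b3 le_rfl
  have a3 := hN.a3
  have cW : W.card ^ 2 ≤ 2 ^ (72 * β + μ) := by
    calc W.card ^ 2 ≤ (2 ^ (34 * β)) ^ 2 := Nat.pow_le_pow_left hW.le 2
      _ = 2 ^ (68 * β) := by rw [← pow_mul]; congr 1; ring
      _ ≤ _ := Nat.pow_le_pow_right (by norm_num) (by omega)
  have cA : A.card ≤ 2 ^ (72 * β + μ) := (card_Sb hg (by omega)).trans cW
  have cZ : Z.card ≤ 2 ^ (72 * β + μ) := by
    calc Z.card ≤ 36 * β * (2 ^ μ * 2 ^ (36 * β)) := hZ
      _ ≤ 2 ^ (36 * β) * (2 ^ μ * 2 ^ (36 * β)) :=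
        Nat.mul_le_mul_right _ (Nat.lt_two_pow_self).le
      _ = _ := by rw [← pow_add, ← pow_add]; congr 1; ring
  have cZA : (Z ∪ A).card ≤ 2 * 2 ^ (72 * β + μ) := (card_union_le _ _).trans (by omega)
  have hD1 : 1 ≤ D := Nat.one_le_two_pow
  have tiny : 256 * (2 ^ (72 * β + μ) * D ^ (ρ₀ + 1)) ≤ X.card := by
    refine le_trans ?_ hL
    rw [hD, ← pow_mul, ← pow_add, show 256 = 2 ^ 8 by norm_num, ← pow_add]
    refine Nat.pow_le_pow_right (by norm_num) ?_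
    have : 37 * β * (ρ₀ + 1) ≤ 37 * β * (2 * rho β + 2) := Nat.mul_le_mul_left _ (by omega)
    omega
  set U' := (X \ W) \ Hb G X D with hU'
  have k1 := hX.count_sg (W := W) (D := D) (r := r₂ + 1) hg (by omega)
  have k2 : W.card ^ 2 * D ^ (r₂ + 1) ≤ 2 ^ (72 * β + μ) * D ^ (ρ₀ + 1) :=
    Nat.mul_le_mul cW (Nat.pow_le_pow_right hD1 (by omega))
  have k3 : (bl G U' (Z ∪ A) (ρ₀ + 1)).card ≤ 2 * (2 ^ (72 * β + μ) * D ^ (ρ₀ + 1)) := by
    refine (card_bl_le _ (sdiff_subset.trans sdiff_subset) low_dg _).trans ?_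
    rw [← mul_assoc]
    exact Nat.mul_le_mul_right _ cZA
  have k4 := card_union_le (bl G U' (Sg G (X \ W) W) (r₂ + 1)) (bl G U' (Z ∪ A) (ρ₀ + 1))
  have k5 : 20 * W.card ≤ X.card := by
    refine le_trans ?_ hL
    have : 2 ^ (34 * β + 5) ≤ 2 ^ L := Nat.pow_le_pow_right (by norm_num) (by omega)
    rw [pow_add] at this
    omega
  have p1 : 2 ^ (33 * β + 1) ≤ 2 ^ (34 * β) := Nat.pow_le_pow_right (by norm_num) (by omega)
  have p2 : 2 ^ (34 * β + 2) ≤ 2 ^ (36 * β) := Nat.pow_le_pow_right (by norm_num) (by omega)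
  have p3 : 2 ^ (36 * β + 2) ≤ 2 ^ (37 * β) := Nat.pow_le_pow_right (by norm_num) (by omega)
  have p4 : 1 ≤ 2 ^ (33 * β) := Nat.one_le_two_pow
  rw [pow_add] at p1 p2 p3
  set B := bl G U' (Sg G (X \ W) W) r₂ ∪ bl G U' (Z ∪ A) ρ₀ with hB
  have hBB : B ⊆ bl G U' (Sg G (X \ W) W) (r₂ + 1) ∪ bl G U' (Z ∪ A) (ρ₀ + 1) :=
    union_subset_union (bl_mono subset_rfl subset_rfl (by omega))
      (bl_mono subset_rfl subset_rfl (by omega))
  obtain ⟨u, hu, u', hu', e, d, d'⟩ := hX.full_edge (W := W) (B := B) (D := D)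
    (B₁ := bl G U' (Sg G (X \ W) W) (r₂ + 1) ∪ bl G U' (Z ∪ A) (ρ₀ + 1))
    (union_subset (bl_subset _ _ _) (bl_subset _ _ _)) hBB
    (fun v hv x hx hadj => mem_union_left _ (mem_bl.2 ⟨v, mem_filter.2 ⟨(mem_sdiff.1 hv).1,
      x, hx, hadj⟩, Rch.refl hv _⟩))
    (fun v hv x hx hadj => by
      rcases mem_union.1 hx with hx | hx
      · exact mem_union_left _ (mem_bl_succ hx hadj.symm hv)
      · exact mem_union_right _ (mem_bl_succ hx hadj.symm hv))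
    (by rw [← hU'] at k1; omega) k5 (by omega)
  refine ⟨(X \ W) \ B, sdiff_subset, ?_, ?_, u, hu, u', hu', ?_⟩
  · have c11 := le_card_sdiff W X
    have c12 := le_card_sdiff B (X \ W)
    have c13 := card_le_card hBB
    rw [← hU'] at k1
    omega
  · intro w hw c K Q hc hwQ hQ hCH
    obtain ⟨hw1, hw2⟩ := mem_sdiff.1 hw
    exact hX.escape (D := D) (Z := Z) (t := 2 * (r₂ + 16)) (j₀ := j₀) hg hw1
      (fun h => hw2 (mem_union_left _ h)) (fun h => hw2 (mem_union_right _ h)) hZ' hc (by omega)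
      (by omega) hN.b4 hN.a2 hwQ hQ hCH
  · obtain ⟨a₁, h₁, a₂, h₂, n₁, n₂, n₃⟩ := exists_two (x := u') d
    obtain ⟨b₁, h₃, b₂, h₄, n₄, n₅, n₆⟩ := exists_two (x := u) d'
    rw [mem_filter] at h₁ h₂ h₃ h₄
    exact ⟨a₁, h₁.1, a₂, h₂.1, b₁, h₃.1, b₂, h₄.1, e, h₁.2.symm, h₂.2.symm, h₃.2.symm, h₄.2.symm,
      n₁, n₄, n₂, n₃, n₅, n₆⟩

lemma Xp.walk_union {R : Finset V} {w y : V} {a b : ℕ} (h : Xp G R y b) (p : G.Walk w y)
    (hp : p.length ≤ a) : Xp G (p.support.toFinset ∪ R) w (a + b) := by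
  have hs : ∀ x ∈ p.reverse.support, x ∈ p.support.toFinset ∪ R := fun x hx =>
    mem_union_left _ (by simpa using hx)
  have hr : ∀ x ∈ p.support, Rch G (p.support.toFinset ∪ R) a x w := fun x hx =>
    (rch_of_mem_support p.reverse hs (by simpa using hx)).mono subset_rfl (by simpa using hp)
  refine ⟨mem_union_left _ (by simp), fun x hx => ?_⟩
  rcases mem_union.1 hx with hx | hx
  · exact (hr x (List.mem_toFinset.1 hx)).mono subset_rfl (by omega)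
  · exact (((h.2 x hx).mono subset_union_right le_rfl).trans (hr y p.end_mem_support)).mono
      subset_rfl (by omega)

lemma far_points {U X X₁ : Finset V} {D R : ℕ} (hU : U ⊆ X) (hD : ∀ v ∈ U, dg G X v < D) (u : V)
    (hX₁ : X₁ ⊆ U) (m : ℕ) (h : m * D ^ R < X₁.card) :
    ∃ J ⊆ X₁, J.card = m ∧ (∀ z ∈ J, ¬ Rch G U R z u) ∧
      ∀ z ∈ J, ∀ z' ∈ J, z ≠ z' → ¬ Rch G U R z z' := by
  induction m with
  | zero => exact ⟨∅, by simp, rfl, by simp, by simp⟩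
  | succ m ih =>
    obtain ⟨J, h1, h2, h3, h4⟩ := ih (lt_of_le_of_lt (Nat.mul_le_mul_right _ (by omega)) h)
    have c1 := card_bl_le (G := G) (insert u J) hU hD R
    have c2 : (insert u J).card * D ^ R ≤ (m + 1) * D ^ R :=
      Nat.mul_le_mul_right _ (h2 ▸ card_insert_le u J)
    obtain ⟨z, hz, hz'⟩ := exists_mem_notMem_of_card_lt_card (lt_of_le_of_lt (c1.trans c2) h)
    have hf : ∀ a ∈ insert u J, ¬ Rch G U R z a := fun a ha hr => hz' (mem_bl.2 ⟨a, ha, hr⟩)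
    have hzJ : z ∉ J := fun hJ => hf z (mem_insert_of_mem hJ) (Rch.refl (hX₁ hz) _)
    refine ⟨insert z J, insert_subset hz h1, by rw [card_insert_of_notMem hzJ, h2], ?_, ?_⟩
    · intro a ha
      rcases mem_insert.1 ha with rfl | ha
      · exact hf u (mem_insert_self _ _)
      · exact h3 a ha
    · intro w hw w' hw' hww
      rcases mem_insert.1 hw with e₁ | h₃ <;> rcases mem_insert.1 hw' with e₂ | h₄
      · exact absurd (e₁.trans e₂.symm) hww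
      · exact e₁ ▸ hf _ (mem_insert_of_mem h₄)
      · exact e₂ ▸ fun hr => hf _ (mem_insert_of_mem h₃) hr.symm
      · exact h4 _ h₃ _ h₄ hww

lemma select (I : Finset V) (N : V → Finset V) (D : ℕ) (h : ∀ w ∈ I, I.card * D ≤ (N w).card) :
    ∃ M : V → Finset V, (∀ w ∈ I, M w ⊆ N w ∧ (M w).card = D) ∧
      ∀ w ∈ I, ∀ w' ∈ I, w ≠ w' → Disjoint (M w) (M w') := by
  induction I using Finset.induction_on with
  | empty => exact ⟨fun _ => ∅, by simp, by simp⟩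
  | insert a I ha ih =>
    rw [card_insert_of_notMem ha] at h
    obtain ⟨M, h1, h2⟩ := ih fun w hw =>
      le_trans (Nat.mul_le_mul_right _ (by omega)) (h w (mem_insert_of_mem hw))
    have c1 : (I.biUnion M).card ≤ I.card * D :=
      card_biUnion_le_card_mul _ _ _ fun w hw => (h1 w hw).2.le
    have c2 := le_card_sdiff (I.biUnion M) (N a)
    have c3 := h a (mem_insert_self _ _)
    have e : (I.card + 1) * D = I.card * D + D := by ring
    obtain ⟨M', hM', c4⟩ := exists_subset_card_eq (s := N a \ I.biUnion M) (n := D) (by omega)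
    have hd : ∀ w ∈ I, Disjoint M' (M w) := fun w hw =>
      sdiff_disjoint.mono hM' (subset_biUnion_of_mem M hw)
    have hne : ∀ w ∈ I, w ≠ a := fun w hw e => ha (e ▸ hw)
    refine ⟨Function.update M a M', ?_, ?_⟩
    · intro w hw
      rcases mem_insert.1 hw with rfl | hw
      · rw [Function.update_self]; exact ⟨hM'.trans sdiff_subset, c4⟩
      · rw [Function.update_of_ne (hne w hw)]; exact h1 w hw
    · intro w hw w' hw' hww
      rcases mem_insert.1 hw with e₁ | h₃ <;> rcases mem_insert.1 hw' with e₂ | h₄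
      · exact absurd (e₁.trans e₂.symm) hww
      · rw [e₁, Function.update_self, Function.update_of_ne (hne w' h₄)]; exact hd _ h₄
      · rw [e₂, Function.update_self, Function.update_of_ne (hne w h₃)]; exact (hd _ h₃).symm
      · rw [Function.update_of_ne (hne w h₃), Function.update_of_ne (hne w' h₄)]
        exact h2 _ h₃ _ h₄ hww

end Pool.Agent.P.MP_bb4f54_co
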