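import Pool.Agent.P.MP_bb4f54_co.Growth

set_option autoImplicit false
set_option linter.unusedSectionVars false

namespace Pool.Agent.P.MP_bb4f54_co

open Finset SimpleGraph

variable {V : Type*} [Fintype V] [DecidableEq V] {G : SimpleGraph V} [DecidableRel G.Adj]

/-- Neighbours of `Y` in `U` outside `Y`. -/
def Nb (G : SimpleGraph V) [DecidableRel G.Adj] (U Y : Finset V) : Finset V :=
  (U \ Y).filter (fun x => ∃ y ∈ Y, G.Adj y x)

/-- A set of scale `j` that does not expand inside `U`. -/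
def NE (G : SimpleGraph V) [DecidableRel G.Adj] (U A : Finset V) (C j : ℕ) (Y : Finset V) : Prop :=
  Y ⊆ U \ A ∧ 2 ^ j ≤ Y.card ∧ Y.card < 2 ^ (j + 1) ∧ C * (j + 2) ^ 2 * (Nb G U Y).card < Y.card

lemma card_small_subsets (W : Finset V) (m : ℕ) :
    (W.powerset.filter (fun s => s.card ≤ m)).card ≤ (W.card + 1) ^ m := by
  induction m with
  | zero =>
    rw [pow_zero]
    apply card_le_one.2
    intro a ha b hb
    rw [mem_filter, Nat.le_zero, card_eq_zero] at ha hb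
    rw [ha.2, hb.2]
  | succ m ih =>
    set P := W.powerset.filter (fun s => s.card ≤ m) with hP
    have hsub : W.powerset.filter (fun s => s.card ≤ m + 1) ⊆
        P ∪ W.biUnion (fun w => P.image (insert w)) := by
      intro s hs
      rw [mem_filter, mem_powerset] at hs
      rcases s.eq_empty_or_nonempty with rfl | ⟨w, hw⟩
      · exact mem_union_left _ (by simp [hP])
      · refine mem_union_right _ (mem_biUnion.2 ⟨w, hs.1 hw, mem_image.2 ⟨s.erase w, ?_,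
          insert_erase hw⟩⟩)
        rw [hP, mem_filter, mem_powerset, card_erase_of_mem hw]
        exact ⟨(erase_subset _ _).trans hs.1, by omega⟩
    have h1 := card_le_card hsub
    have h2 := card_union_le P (W.biUnion (fun w => P.image (insert w)))
    have h3 : (W.biUnion (fun w => P.image (insert w))).card ≤ W.card * P.card :=
      card_biUnion_le_card_mul _ _ _ fun w _ => card_image_le
    calc _ ≤ (W.card + 1) * P.card := by nlinarith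
      _ ≤ (W.card + 1) * (W.card + 1) ^ m := Nat.mul_le_mul_left _ ih
      _ = _ := by ring

lemma Good.union_false {X W A N : Finset V} (hX : Good G X) {C j κ : ℕ} {𝓕 : Finset (Finset V)}
    (hd : ∀ Y ∈ 𝓕, ∀ Y' ∈ 𝓕, Y ≠ Y' → Disjoint Y Y') (hne : ∀ Y ∈ 𝓕, NE G (X \ W) A C j Y)
    (hc : 𝓕.card = 2 ^ κ) (hN : ∀ Y ∈ 𝓕, ∀ y ∈ Y, ∀ x ∈ W, G.Adj y x → x ∈ N)
    (h1 : 2 ^ (j + κ + 2) ≤ X.card) (h2 : 288 * (j + κ + 2) ^ 2 * N.card ≤ 2 ^ (j + κ))
    (h3 : 288 * (j + κ + 2) ^ 2 ≤ C * (j + 2) ^ 2) : False := by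
  have hF : 𝓕.Nonempty := card_pos.1 (by rw [hc]; positivity)
  have hY : (𝓕.biUnion id).card = ∑ Y ∈ 𝓕, Y.card := card_biUnion hd
  have l1 : 2 ^ (j + κ) ≤ ∑ Y ∈ 𝓕, Y.card := by
    have := card_nsmul_le_sum 𝓕 (fun Y => Y.card) (2 ^ j) (fun Y hY => (hne Y hY).2.1)
    rw [hc, smul_eq_mul, ← pow_add, add_comm] at this
    exact this
  have l2 : ∑ Y ∈ 𝓕, Y.card < 2 ^ (j + κ + 1) := by
    have := sum_lt_sum_of_nonempty hF (fun Y hY => (hne Y hY).2.2.1)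
    rw [sum_const, hc, smul_eq_mul, ← pow_add] at this
    rwa [show j + κ + 1 = κ + (j + 1) by ring]
  have l3 : C * (j + 2) ^ 2 * ∑ Y ∈ 𝓕, (Nb G (X \ W) Y).card < ∑ Y ∈ 𝓕, Y.card := by
    rw [mul_sum]
    exact sum_lt_sum_of_nonempty hF (fun Y hY => (hne Y hY).2.2.2)
  have l4 := hX.v1 (𝓕.biUnion id) (by
      intro x hx
      obtain ⟨Y, hY, hx⟩ := mem_biUnion.1 hx
      exact (mem_sdiff.1 (mem_sdiff.1 ((hne Y hY).1 hx)).1).1)
    (by rw [hY]; rw [pow_succ] at h1; omega) (N ∪ 𝓕.biUnion (Nb G (X \ W))) (by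
      intro y hy x hx hx' hadj
      obtain ⟨Y, hY, hy⟩ := mem_biUnion.1 hy
      by_cases hxW : x ∈ W
      · exact mem_union_left _ (hN Y hY y hy x hxW hadj)
      · refine mem_union_right _ (mem_biUnion.2 ⟨Y, hY, mem_filter.2 ⟨mem_sdiff.2
          ⟨mem_sdiff.2 ⟨hx, hxW⟩, fun h => hx' (mem_biUnion.2 ⟨Y, hY, h⟩)⟩, y, hy, hadj⟩⟩))
    (j + κ) (hY ▸ l2)
  have l5 : (N ∪ 𝓕.biUnion (Nb G (X \ W))).card ≤ N.card + ∑ Y ∈ 𝓕, (Nb G (X \ W) Y).card :=
    (card_union_le _ _).trans (Nat.add_le_add_left card_biUnion_le _)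
  rw [hY] at l4
  set a := ∑ Y ∈ 𝓕, Y.card
  set b := ∑ Y ∈ 𝓕, (Nb G (X \ W) Y).card
  set M := (j + κ + 2) ^ 2
  have l6 : 144 * M * (N ∪ 𝓕.biUnion (Nb G (X \ W))).card ≤ 144 * M * (N.card + b) :=
    Nat.mul_le_mul_left _ l5
  have l7 : 288 * M * b ≤ C * (j + 2) ^ 2 * b := Nat.mul_le_mul_right _ h3
  nlinarith

/-- Few disjoint non-expanding sets at a large scale. -/
lemma Good.few_large {X W A : Finset V} (hX : Good G X) {C j κ : ℕ} {𝓕 : Finset (Finset V)}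
    (hd : ∀ Y ∈ 𝓕, ∀ Y' ∈ 𝓕, Y ≠ Y' → Disjoint Y Y') (hne : ∀ Y ∈ 𝓕, NE G (X \ W) A C j Y)
    (h1 : 2 ^ (j + κ + 2) ≤ X.card) (h2 : 288 * (j + κ + 2) ^ 2 * W.card ≤ 2 ^ (j + κ))
    (h3 : 288 * (j + κ + 2) ^ 2 ≤ C * (j + 2) ^ 2) : 𝓕.card ≤ 2 ^ κ := by
  by_contra hc
  obtain ⟨𝓖, hsub, hc'⟩ := exists_subset_card_eq (s := 𝓕) (n := 2 ^ κ) (by omega)
  exact hX.union_false (N := W) (fun Y hY Y' hY' => hd Y (hsub hY) Y' (hsub hY'))
    (fun Y hY => hne Y (hsub hY)) hc' (fun _ _ _ _ x hx _ => hx) h1 h2 h3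

/-- Few disjoint non-expanding sets at a small scale. -/
lemma Good.few_small {X W A : Finset V} (hX : Good G X) {C j : ℕ} {𝓕 : Finset (Finset V)}
    (hA : ∀ y ∈ (X \ W) \ A, dg G W y ≤ 1)
    (hd : ∀ Y ∈ 𝓕, ∀ Y' ∈ 𝓕, Y ≠ Y' → Disjoint Y Y') (hne : ∀ Y ∈ 𝓕, NE G (X \ W) A C j Y)
    (h1 : 2 ^ (j + j + 2) ≤ X.card) (h2 : 576 * (j + j + 2) ^ 2 ≤ 2 ^ j)
    (h3 : 288 * (j + j + 2) ^ 2 ≤ C * (j + 2) ^ 2) :
    𝓕.card ≤ (W.card + 1) ^ (2 ^ (j + 1)) * 2 ^ j := by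
  by_contra hc
  push Not at hc
  let f : Finset V → Finset V := fun Y => W.filter (fun x => ∃ y ∈ Y, G.Adj y x)
  have hf : ∀ Y ∈ 𝓕, f Y ∈ W.powerset.filter (fun s => s.card ≤ 2 ^ (j + 1)) := by
    intro Y hY
    refine mem_filter.2 ⟨mem_powerset.2 (filter_subset _ _), ?_⟩
    have hsub : f Y ⊆ Y.biUnion (fun y => W.filter (G.Adj y)) := by
      intro x hx
      obtain ⟨hx1, y, hy, hadj⟩ := mem_filter.1 hx
      exact mem_biUnion.2 ⟨y, hy, mem_filter.2 ⟨hx1, hadj⟩⟩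
    have := card_biUnion_le_card_mul Y (fun y => W.filter (G.Adj y)) 1
      (fun y hy => hA y ((hne Y hY).1 hy))
    have := card_le_card hsub
    have := (hne Y hY).2.2.1
    omega
  obtain ⟨N, hN, hfib⟩ := exists_lt_card_fiber_of_mul_lt_card_of_maps_to hf (n := 2 ^ j)
    (lt_of_le_of_lt (Nat.mul_le_mul_right _ (card_small_subsets W _)) hc)
  obtain ⟨𝓖, hsub, hc'⟩ := exists_subset_card_eq hfib.le
  have hsub' : 𝓖 ⊆ 𝓕 := hsub.trans (filter_subset _ _)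
  refine hX.union_false (N := N) (fun Y hY Y' hY' => hd Y (hsub' hY) Y' (hsub' hY'))
    (fun Y hY => hne Y (hsub' hY)) hc' ?_ h1 ?_ h3
  · intro Y hY y hy x hx hadj
    rw [← (mem_filter.1 (hsub hY)).2]
    exact mem_filter.2 ⟨hx, y, hy, hadj⟩
  · have := (mem_filter.1 hN).2
    calc _ ≤ 288 * (j + j + 2) ^ 2 * 2 ^ (j + 1) := Nat.mul_le_mul_left _ this
      _ = 576 * (j + j + 2) ^ 2 * 2 ^ j := by ring
      _ ≤ 2 ^ j * 2 ^ j := Nat.mul_le_mul_right _ h2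
      _ = _ := by ring

lemma exists_hit {P : Finset V → Prop} {M s : ℕ} (hP : ∀ Y, P Y → Y.Nonempty ∧ Y.card ≤ s)
    (hM : ∀ 𝓕 : Finset (Finset V), (∀ Y ∈ 𝓕, ∀ Y' ∈ 𝓕, Y ≠ Y' → Disjoint Y Y') →
      (∀ Y ∈ 𝓕, P Y) → 𝓕.card ≤ M) :
    ∃ Z : Finset V, Z.card ≤ M * s ∧ ∀ Y, P Y → ¬ Disjoint Y Z := by
  classical
  obtain ⟨𝓕, h𝓕, hmax⟩ := exists_max_image (univ.filter (fun 𝓕 : Finset (Finset V) =>
    (∀ Y ∈ 𝓕, ∀ Y' ∈ 𝓕, Y ≠ Y' → Disjoint Y Y') ∧ ∀ Y ∈ 𝓕, P Y)) card ⟨∅, by simp⟩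
  obtain ⟨h1, h2⟩ := (mem_filter.1 h𝓕).2
  refine ⟨𝓕.biUnion id, (card_biUnion_le_card_mul _ _ s fun Y hY => (hP Y (h2 Y hY)).2).trans
    (Nat.mul_le_mul_right _ (hM 𝓕 h1 h2)), fun Y hY hd => ?_⟩
  have hd' : ∀ Y' ∈ 𝓕, Disjoint Y Y' := fun Y' hY' => hd.mono_right (subset_biUnion_of_mem id hY')
  have hn : Y ∉ 𝓕 := fun h => (hP Y hY).1.ne_empty (disjoint_self.1 (hd' Y h))
  have := hmax (insert Y 𝓕) (mem_filter.2 ⟨mem_univ _, by
    intro Y₁ h₁ Y₂ h₂ hne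
    rcases mem_insert.1 h₁ with e₁ | h₃ <;> rcases mem_insert.1 h₂ with e₂ | h₄
    · exact absurd (e₁.trans e₂.symm) hne
    · exact e₁ ▸ hd' _ h₄
    · exact e₂ ▸ (hd' _ h₃).symm
    · exact h1 _ h₃ _ h₄ hne, by
    intro Y₁ h₁
    rcases mem_insert.1 h₁ with rfl | h₁
    · exact hY
    · exact h2 _ h₁⟩)
  rw [card_insert_of_notMem hn] at this
  omega

/-- The constant in the expansion rate away from the trapped sets. -/
def Cc : ℕ := 288 * 281 ^ 2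

/-- A small set meets every non-expanding set of moderate size. -/
lemma Good.trap {X W A : Finset V} (hX : Good G X) {β μ j₀ : ℕ}
    (hA : ∀ y ∈ (X \ W) \ A, dg G W y ≤ 1) (hW : W.card < 2 ^ (34 * β))
    (h0 : ∀ j, j₀ ≤ j → 576 * (j + j + 2) ^ 2 ≤ 2 ^ j) (h1 : 2 ^ (72 * β + 2) ≤ X.card)
    (h2 : 288 * (71 * β + 2) ^ 2 ≤ 2 ^ β) (h3 : 34 * β * 2 ^ (β / 8) + 35 * β ≤ μ) :
    ∃ Z : Finset V, Z.card ≤ 36 * β * (2 ^ μ * 2 ^ (36 * β)) ∧
      ∀ j, j₀ ≤ j → j < 36 * β → ∀ Y, NE G (X \ W) A Cc j Y → ¬ Disjoint Y Z := by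
  have key : ∀ j, ∃ Z : Finset V, j₀ ≤ j → j < 36 * β → Z.card ≤ 2 ^ μ * 2 ^ (36 * β) ∧
      ∀ Y, NE G (X \ W) A Cc j Y → ¬ Disjoint Y Z := by
    intro j
    by_cases hj : j₀ ≤ j ∧ j < 36 * β
    swap
    · exact ⟨∅, fun a b => absurd ⟨a, b⟩ hj⟩
    obtain ⟨Z, hZ⟩ := exists_hit (P := NE G (X \ W) A Cc j) (M := 2 ^ μ) (s := 2 ^ (36 * β))
      (fun Y hY => ⟨card_pos.1 (lt_of_lt_of_le (by positivity) hY.2.1),
        hY.2.2.1.le.trans (Nat.pow_le_pow_right (by norm_num) (by omega))⟩) (by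
        intro 𝓕 hd hne
        rcases Nat.lt_or_ge j (β / 8) with h | h
        · refine (hX.few_small hA hd hne
            (le_trans (Nat.pow_le_pow_right (by norm_num) (by omega)) h1) (h0 j hj.1) (by
              unfold Cc
              rw [mul_assoc, ← mul_pow]
              exact Nat.mul_le_mul_left _ (Nat.pow_le_pow_left (by omega) 2))).trans ?_
          calc _ ≤ (2 ^ (34 * β)) ^ (2 ^ (β / 8)) * 2 ^ (35 * β) := by
                apply Nat.mul_le_mul _ (Nat.pow_le_pow_right (by norm_num) (by omega))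
                exact (Nat.pow_le_pow_left hW _).trans (Nat.pow_le_pow_right (by positivity)
                  (Nat.pow_le_pow_right (by norm_num) (by omega)))
            _ = 2 ^ (34 * β * 2 ^ (β / 8) + 35 * β) := by rw [← pow_mul, ← pow_add]
            _ ≤ _ := Nat.pow_le_pow_right (by norm_num) h3
        · refine (hX.few_large (κ := 35 * β) hd hne
            (le_trans (Nat.pow_le_pow_right (by norm_num) (by omega)) h1) ?_ (by
              unfold Cc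
              rw [mul_assoc, ← mul_pow]
              exact Nat.mul_le_mul_left _ (Nat.pow_le_pow_left (by omega) 2))).trans
            (Nat.pow_le_pow_right (by norm_num) (by omega))
          calc _ ≤ 2 ^ β * 2 ^ (34 * β) := by
                refine Nat.mul_le_mul (le_trans ?_ h2) hW.le
                exact Nat.mul_le_mul_left _ (Nat.pow_le_pow_left (by omega) 2)
            _ = 2 ^ (35 * β) := by rw [← pow_add]; congr 1; ring
            _ ≤ _ := Nat.pow_le_pow_right (by norm_num) (by omega))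
    exact ⟨Z, fun _ _ => hZ⟩
  choose Z hZ using key
  refine ⟨((range (36 * β)).filter (j₀ ≤ ·)).biUnion Z, ?_, fun j h1 h2 Y hY hd => ?_⟩
  · refine (card_biUnion_le_card_mul _ _ (2 ^ μ * 2 ^ (36 * β)) fun j hj => ?_).trans
      (Nat.mul_le_mul_right _ ((card_filter_le _ _).trans (card_range _).le))
    rw [mem_filter, mem_range] at hj
    exact (hZ j hj.2 hj.1).1
  · exact (hZ j h1 h2).2 Y hY (hd.mono_right (subset_biUnion_of_mem Z
      (mem_filter.2 ⟨mem_range.2 h2, h1⟩)))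

end Pool.Agent.P.MP_bb4f54_co
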